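import Mathlib
import Pool.Agent.Run7.h129.Poly

set_option autoImplicit false

/-!
# Counting in polynomial rings over finite fields of characteristic two
-/

open Polynomial Filter Topology

namespace Pool.Agent.Run7.h175.CT

/-- The ordered pairs `(a, b)` of elements of `A` with `a + b = f` whose degrees are at most the
degree of `f`. -/
def reps {K : Type*} [Field K] (A : Set K[X]) (f : K[X]) : Set (K[X] × K[X]) :=
  {z | z.1 ∈ A ∧ z.2 ∈ A ∧ z.1 + z.2 = f ∧ z.1.degree ≤ f.degree ∧ z.2.degree ≤ f.degree}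

/-- The number of elements of `A` of degree less than `n`. -/
noncomputable def cnt {K : Type*} [Field K] (A : Set K[X]) (n : ℕ) : ℕ :=
  {a : K[X] | a ∈ A ∧ a.degree < n}.ncard

variable {K : Type*} [Field K]

lemma natCard_degreeLT [Finite K] (n : ℕ) : Nat.card (degreeLT K n) = Nat.card K ^ n := by
  rw [Nat.card_congr (degreeLTEquiv K n).toEquiv, Nat.card_fun]
  simp

lemma finite_lt [Finite K] (n : ℕ) : {a : K[X] | a.degree < n}.Finite := by
  have h1 : Finite (degreeLT K n) := Finite.of_equiv _ (degreeLTEquiv K n).toEquiv.symm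
  have h2 : {a : K[X] | a.degree < n} = (degreeLT K n : Set K[X]) := by
    ext a
    simp [mem_degreeLT]
  rw [h2]
  exact Set.toFinite _

lemma ncard_lt [Finite K] (n : ℕ) : {a : K[X] | a.degree < n}.ncard = Nat.card K ^ n := by
  have h2 : {a : K[X] | a.degree < n} = (degreeLT K n : Set K[X]) := by
    ext a
    simp [mem_degreeLT]
  rw [h2, ← natCard_degreeLT n]
  rfl

lemma finite_cnt [Finite K] (A : Set K[X]) (n : ℕ) : {a : K[X] | a ∈ A ∧ a.degree < n}.Finite :=
  (finite_lt n).subset fun _ h => h.2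

/-- a set for which every polynomial has a representation is large -/
lemma lower [Finite K] (A : Set K[X]) (h : ∀ f : K[X], 1 ≤ (reps A f).encard) (n : ℕ) :
    Nat.card K ^ n ≤ cnt A n ^ 2 := by
  classical
  have h1 : ∀ f : K[X], ∃ z : K[X] × K[X], z ∈ reps A f := by
    intro f
    have := h f
    rw [Set.one_le_encard_iff_nonempty] at this
    exact this
  choose z hz using h1
  have h2 : {a : K[X] | a.degree < n}.ncard ≤
      ({a : K[X] | a ∈ A ∧ a.degree < n} ×ˢ {a : K[X] | a ∈ A ∧ a.degree < n}).ncard := by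
    refine Set.ncard_le_ncard_of_injOn z ?_ ?_ ((finite_cnt A n).prod (finite_cnt A n))
    · intro f hf
      have h3 := hz f
      simp only [reps, Set.mem_ofPred_eq] at h3 hf
      exact ⟨⟨h3.1, h3.2.2.2.1.trans_lt hf⟩, ⟨h3.2.1, h3.2.2.2.2.trans_lt hf⟩⟩
    · intro f _ g _ hfg
      rw [← (hz f).2.2.1, ← (hz g).2.2.1, hfg]
  rw [ncard_lt, Set.ncard_prod] at h2
  rw [sq]
  exact h2

/-- the elements of degree `n` of a set with bounded representation function -/
lemma upper_step [Finite K] (A : Set K[X]) (C : ℕ) (h : ∀ f : K[X], (reps A f).encard ≤ C) (n : ℕ) :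
    {a : K[X] | a ∈ A ∧ a.degree = n}.ncard * cnt A n ≤ C * Nat.card K ^ (n + 1) := by
  classical
  have hf1 : {a : K[X] | a ∈ A ∧ a.degree = n}.Finite :=
    (finite_lt (n + 1)).subset fun a ha => by
      have := ha.2
      simp only [Set.mem_ofPred_eq, this]
      exact_mod_cast Nat.lt_succ_self n
  have hf2 := finite_cnt A n
  rw [cnt, ← Set.ncard_prod, ← ncard_lt (K := K) (n + 1),
    Set.ncard_eq_toFinset_card _ (hf1.prod hf2), Set.ncard_eq_toFinset_card _ (finite_lt (n + 1))]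
  refine Finset.card_le_mul_card_image_of_maps_to (f := fun z : K[X] × K[X] => z.1 + z.2) ?_ C ?_
  · intro z hz
    simp only [Set.Finite.mem_toFinset, Set.mem_prod, Set.mem_ofPred_eq] at hz ⊢
    have h1 : (z.1 + z.2).degree = z.1.degree :=
      degree_add_eq_left_of_degree_lt (by rw [hz.1.2]; exact hz.2.2)
    rw [h1, hz.1.2]
    exact_mod_cast Nat.lt_succ_self n
  · intro f _
    have h1 := h f
    have h2 : (((hf1.prod hf2).toFinset.filter fun z => z.1 + z.2 = f : Finset (K[X] × K[X])) :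
        Set (K[X] × K[X])) ⊆ reps A f := by
      intro z hz
      simp only [Finset.coe_filter, Set.Finite.mem_toFinset, Set.mem_prod, Set.mem_ofPred_eq] at hz
      have h3 : (z.1 + z.2).degree = z.1.degree :=
        degree_add_eq_left_of_degree_lt (by rw [hz.1.1.2]; exact hz.1.2.2)
      refine ⟨hz.1.1.1, hz.1.2.1, hz.2, ?_, ?_⟩
      · rw [← hz.2, h3]
      · rw [← hz.2, h3, hz.1.1.2]
        exact hz.1.2.2.le
    have h3 := (Set.encard_le_encard h2).trans h1
    rw [Set.encard_coe_eq_coe_finsetCard] at h3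
    exact_mod_cast h3

lemma cnt_succ [Finite K] (A : Set K[X]) (n : ℕ) :
    cnt A (n + 1) = cnt A n + {a : K[X] | a ∈ A ∧ a.degree = n}.ncard := by
  have hf1 : {a : K[X] | a ∈ A ∧ a.degree = n}.Finite :=
    (finite_lt (n + 1)).subset fun a ha => by
      have := ha.2
      simp only [Set.mem_ofPred_eq, this]
      exact_mod_cast Nat.lt_succ_self n
  unfold cnt
  rw [← Set.ncard_union_eq _ (finite_cnt A n) hf1]
  · congr 1
    ext a
    simp only [Set.mem_ofPred_eq, Set.mem_union]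
    constructor
    · rintro ⟨h1, h2⟩
      rcases eq_or_ne a 0 with rfl | h0
      · left
        exact ⟨h1, by simp [bot_lt_iff_ne_bot]⟩
      · rw [degree_eq_natDegree h0] at h2 ⊢
        have h3 : a.natDegree < n + 1 := by exact_mod_cast h2
        rcases Nat.lt_succ_iff_lt_or_eq.mp h3 with h4 | h4
        · left
          exact ⟨h1, by exact_mod_cast h4⟩
        · right
          exact ⟨h1, by rw [h4]⟩
    · rintro (⟨h1, h2⟩ | ⟨h1, h2⟩)
      · refine ⟨h1, h2.trans ?_⟩
        exact_mod_cast Nat.lt_succ_self n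
      · refine ⟨h1, ?_⟩
        rw [h2]
        exact_mod_cast Nat.lt_succ_self n
  · rw [Set.disjoint_left]
    rintro a ⟨-, h1⟩ ⟨-, h2⟩
    rw [h2] at h1
    exact lt_irrefl _ h1

lemma cnt_zero_le [Finite K] (A : Set K[X]) : cnt A 0 ≤ 1 := by
  unfold cnt
  refine (Set.ncard_le_ncard (t := {0}) ?_ (Set.finite_singleton _)).trans (by simp)
  rintro a ⟨-, h⟩
  have : a.degree = ⊥ := by
    have h1 : a.degree < 0 := by simpa using h
    rcases eq_or_ne a 0 with rfl | h0
    · simp
    · rw [degree_eq_natDegree h0] at h1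
      have : (0 : WithBot ℕ) ≤ (a.natDegree : WithBot ℕ) := by exact_mod_cast Nat.zero_le _
      exact absurd h1 (not_lt.mpr this)
  simpa using this

/-- upper bound for the number of elements, from a lower bound -/
lemma upper [Finite K] (A : Set K[X]) (C : ℕ) (h : ∀ f : K[X], (reps A f).encard ≤ C) (M : ℝ)
    (hM : 0 < M) (n0 : ℕ) (hn0 : ∀ n ≥ n0, M * √(Nat.card K) ^ n ≤ cnt A n) (n : ℕ) (hn : n0 ≤ n) :
    (cnt A n : ℝ) ≤ cnt A n0 + 3 * C * Nat.card K / M * √(Nat.card K) ^ n := by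
  have hq : 2 ≤ Nat.card K := Finite.one_lt_card
  have hqr : (2 : ℝ) ≤ Nat.card K := by exact_mod_cast hq
  set s : ℝ := √(Nat.card K) with hs
  have hs2 : s ^ 2 = Nat.card K := Real.sq_sqrt (by linarith)
  have hs1 : (4 / 3 : ℝ) ≤ s := by
    rw [hs]
    refine Real.le_sqrt_of_sq_le ?_
    norm_num
    linarith
  have hs0 : 0 < s := by linarith
  induction n, hn using Nat.le_induction with
  | base =>
    have : 0 ≤ 3 * C * (Nat.card K : ℝ) / M * s ^ n0 := by positivity
    linarith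
  | succ n hn ih =>
    have h1 := cnt_succ A n
    have h2 := upper_step A C h n
    set d := {a : K[X] | a ∈ A ∧ a.degree = n}.ncard with hd
    have h3 : (d : ℝ) * cnt A n ≤ C * (Nat.card K : ℝ) ^ (n + 1) := by exact_mod_cast h2
    have h4 : (d : ℝ) * (M * s ^ n) ≤ C * (Nat.card K : ℝ) ^ (n + 1) :=
      (mul_le_mul_of_nonneg_left (hn0 n hn) (Nat.cast_nonneg d)).trans h3
    have h5 : (d : ℝ) ≤ C * Nat.card K / M * s ^ n := by
      have h6 : (Nat.card K : ℝ) ^ (n + 1) = Nat.card K * (s ^ n * s ^ n) := by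
        rw [pow_succ, ← hs2, ← pow_mul]
        ring
      rw [h6] at h4
      have h7 : (d : ℝ) * (M * s ^ n) ≤ (C * Nat.card K / M * s ^ n) * (M * s ^ n) := by
        refine h4.trans (le_of_eq ?_)
        field_simp
      exact le_of_mul_le_mul_right h7 (by positivity)
    have h8 : (cnt A (n + 1) : ℝ) = cnt A n + d := by exact_mod_cast h1
    rw [h8]
    have h9 : 3 * C * (Nat.card K : ℝ) / M * s ^ n + C * Nat.card K / M * s ^ n ≤
        3 * C * (Nat.card K : ℝ) / M * s ^ (n + 1) := by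
      have h10 : 0 ≤ C * (Nat.card K : ℝ) / M * s ^ n := by positivity
      have h11 : 3 * C * (Nat.card K : ℝ) / M * s ^ n = 3 * (C * (Nat.card K : ℝ) / M * s ^ n) := by
        ring
      have h12 : 3 * C * (Nat.card K : ℝ) / M * s ^ (n + 1) =
          3 * s * (C * (Nat.card K : ℝ) / M * s ^ n) := by
        rw [pow_succ]
        ring
      rw [h11, h12]
      nlinarith
    linarith

/-- the number of elements of a set with a positive bounded representation function -/
lemma order [Finite K] (A : Set K[X]) (C : ℕ)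
    (h : ∀ f : K[X], 1 ≤ (reps A f).encard ∧ (reps A f).encard ≤ C) (n : ℕ) :
    cnt A n ^ 2 ≤ (1 + 3 * C * Nat.card K) ^ 2 * Nat.card K ^ n := by
  have hq : 2 ≤ Nat.card K := Finite.one_lt_card
  have hqr : (2 : ℝ) ≤ Nat.card K := by exact_mod_cast hq
  have hlow : ∀ n ≥ 0, (1 : ℝ) * √(Nat.card K) ^ n ≤ cnt A n := by
    intro n _
    have h1 := lower A (fun f => (h f).1) n
    have h2 : ((Nat.card K : ℝ)) ^ n ≤ (cnt A n : ℝ) ^ 2 := by exact_mod_cast h1
    rw [one_mul]
    refine abs_le_of_sq_le_sq' ?_ (Nat.cast_nonneg _) |>.2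
    rw [← pow_mul, mul_comm n 2, pow_mul, Real.sq_sqrt (by linarith)]
    exact h2
  have h1 := upper A C (fun f => (h f).2) 1 one_pos 0 hlow n (Nat.zero_le _)
  have h2 : (cnt A 0 : ℝ) ≤ 1 := by exact_mod_cast cnt_zero_le A
  have h3 : (1 : ℝ) ≤ √(Nat.card K) ^ n :=
    one_le_pow₀ (Real.one_le_sqrt.mpr (by linarith))
  have h4 : (cnt A n : ℝ) ≤ (1 + 3 * C * Nat.card K) * √(Nat.card K) ^ n := by
    rw [div_one] at h1
    nlinarith
  have h5 : (cnt A n : ℝ) ^ 2 ≤ (1 + 3 * C * Nat.card K) ^ 2 * (Nat.card K : ℝ) ^ n := by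
    have h6 := pow_le_pow_left₀ (Nat.cast_nonneg (cnt A n)) h4 2
    rw [mul_pow, ← pow_mul, mul_comm n 2, pow_mul, Real.sq_sqrt (by linarith)] at h6
    exact h6
  exact_mod_cast h5

/-- `|A_n| ≫ √(q ^ n) / g n`, where `A_n` is the set of the elements of degree less than `n` -/
def Dense (g : ℕ → ℝ) (A : Set K[X]) : Prop :=
  ∃ C : ℝ, 0 < C ∧ ∀ᶠ n : ℕ in atTop, √((Nat.card K : ℝ) ^ n) / g n ≤ C * cnt A n

/-- `g → 0` forces unbounded representations -/
lemma forces [Finite K] (g : ℕ → ℝ) (hg0 : ∀ᶠ n in atTop, 0 < g n) (hg : Tendsto g atTop (𝓝 0))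
    (A : Set K[X]) (hA : Dense g A) (k : ℕ) : ∃ f : K[X], k < (reps A f).encard := by
  by_contra hcon
  push Not at hcon
  obtain ⟨c, hc, hA⟩ := hA
  have hq : 2 ≤ Nat.card K := Finite.one_lt_card
  have hqr : (2 : ℝ) ≤ Nat.card K := by exact_mod_cast hq
  obtain ⟨M, hM0, hM⟩ : ∃ M : ℝ, 0 < M ∧ 3 * k * Nat.card K / M < M := by
    refine ⟨3 * k * Nat.card K + 1, by positivity, ?_⟩
    rw [div_lt_iff₀ (by positivity)]
    have : 0 ≤ 3 * k * (Nat.card K : ℝ) := by positivity
    nlinarith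
  have hsmall : ∀ᶠ n in atTop, g n < 1 / (M * c) := by
    have := hg.eventually (gt_mem_nhds (show (0 : ℝ) < 1 / (M * c) by positivity))
    exact this
  have hsq : ∀ n : ℕ, √((Nat.card K : ℝ) ^ n) = √(Nat.card K) ^ n := by
    intro n
    rw [show (Nat.card K : ℝ) ^ n = (√(Nat.card K) ^ n) ^ 2 by
      rw [← pow_mul, mul_comm n 2, pow_mul, Real.sq_sqrt (by linarith)],
      Real.sqrt_sq (by positivity)]
  have hev : ∀ᶠ n : ℕ in atTop, M * √(Nat.card K) ^ n ≤ cnt A n := by
    filter_upwards [hg0, hA, hsmall] with n h1 h2 h3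
    rw [hsq, div_le_iff₀ h1] at h2
    rw [lt_div_iff₀ (by positivity)] at h3
    have h5 : 0 < √(Nat.card K : ℝ) ^ n := by
      have : 0 < √(Nat.card K : ℝ) := Real.sqrt_pos.mpr (by linarith)
      positivity
    have h6 : (0 : ℝ) ≤ cnt A n := Nat.cast_nonneg _
    have h7 : M * √(Nat.card K : ℝ) ^ n ≤ M * (c * cnt A n * g n) :=
      mul_le_mul_of_nonneg_left h2 hM0.le
    have h8 : M * (c * cnt A n * g n) = (g n * (M * c)) * cnt A n := by ring
    rw [h8] at h7
    nlinarith
  obtain ⟨n0, hn0⟩ := eventually_atTop.mp hev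
  have hup := upper A k hcon M hM0 n0 hn0
  have hδ : 0 < M - 3 * k * Nat.card K / M := by linarith
  have hbd : ∀ n ≥ n0, (M - 3 * k * Nat.card K / M) * √(Nat.card K) ^ n ≤ cnt A n0 := by
    intro n hn
    have h1 := hup n hn
    have h2 := hn0 n hn
    nlinarith
  have hs1 : 1 < √(Nat.card K : ℝ) := by
    rw [Real.lt_sqrt (by norm_num)]
    linarith
  obtain ⟨n, hn⟩ := pow_unbounded_of_one_lt
    ((cnt A n0 : ℝ) / (M - 3 * k * Nat.card K / M)) hs1
  rw [div_lt_iff₀ hδ] at hn
  have h1 := hbd (max n n0) (le_max_right _ _)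
  have h2 : √(Nat.card K : ℝ) ^ n ≤ √(Nat.card K : ℝ) ^ (max n n0) :=
    pow_le_pow_right₀ hs1.le (le_max_left _ _)
  nlinarith

/-- a positive lower bound for `g` does not force unbounded representations -/
lemma not_forces [Finite K] (A : Set K[X]) (C : ℕ)
    (h : ∀ f : K[X], 1 ≤ (reps A f).encard ∧ (reps A f).encard ≤ C) (g : ℕ → ℝ)
    (hg : ∃ c > 0, ∀ᶠ n in atTop, c ≤ g n) : Dense g A := by
  obtain ⟨c, hc, hg⟩ := hg
  refine ⟨1 / c, by positivity, ?_⟩
  filter_upwards [hg] with n hn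
  have h1 := lower A (fun f => (h f).1) n
  have h2 : √((Nat.card K : ℝ) ^ n) ≤ cnt A n := by
    refine Real.sqrt_le_iff.mpr ⟨Nat.cast_nonneg _, ?_⟩
    exact_mod_cast h1
  calc √((Nat.card K : ℝ) ^ n) / g n ≤ cnt A n / c :=
        div_le_div₀ (Nat.cast_nonneg _) h2 hc hn
    _ = 1 / c * cnt A n := by ring

end Pool.Agent.Run7.h175.CT
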