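import Mathlib
import Pool.Agent.Run7.h129.Runs

set_option autoImplicit false

/-!
# Density thresholds for sets with long polynomial runs
-/

open Finset Filter Topology Polynomial
open Pool.Agent.Run7.h129.Arc (rep longest spline_mono)
open Pool.Agent.N715.QC (Spline diff spline_of_diff)

namespace Pool.Agent.Run7.h175.ST

lemma dens (g : ℕ → ℝ) (hg0 : ∀ᶠ N in atTop, 0 < g N)
    (hg : ∀ ε : ℝ, 0 < ε → ∀ᶠ N : ℕ in atTop, g N ≤ (N : ℝ) ^ ε) (A : Set ℕ)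
    (hA : ∃ C : ℝ, 0 < C ∧ ∀ᶠ N : ℕ in atTop,
      Real.sqrt (N : ℝ) / g N ≤ C * ((A ∩ Set.Icc 1 N).ncard : ℝ)) (ε : ℝ) (hε : 0 < ε) :
    ∀ᶠ N : ℕ in atTop, (N : ℝ) ^ (1 / 2 - ε) ≤ ((A ∩ Set.Icc 1 N).ncard : ℝ) := by
  obtain ⟨C, hC, hA⟩ := hA
  have htend : Tendsto (fun n : ℕ => (n : ℝ) ^ (ε / 2)) atTop atTop :=
    (tendsto_rpow_atTop (by positivity)).comp tendsto_natCast_atTop_atTop
  filter_upwards [hg0, hg (ε / 2) (by positivity), hA, htend.eventually (eventually_ge_atTop C),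
    eventually_ge_atTop 1] with N h1 h2 h3 h4 h5
  have hN : (0 : ℝ) < N := by exact_mod_cast h5
  set c : ℝ := ((A ∩ Set.Icc 1 N).ncard : ℝ) with hc
  have hc0 : 0 ≤ c := Nat.cast_nonneg _
  have hN2 : 0 < (N : ℝ) ^ (ε / 2) := Real.rpow_pos_of_pos hN _
  rw [div_le_iff₀ h1] at h3
  have h6 : Real.sqrt N ≤ (N : ℝ) ^ ε * c := by
    calc Real.sqrt N ≤ C * c * g N := h3
      _ ≤ (N : ℝ) ^ (ε / 2) * c * (N : ℝ) ^ (ε / 2) :=
          mul_le_mul (mul_le_mul_of_nonneg_right h4 hc0) h2 h1.le (by positivity)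
      _ = (N : ℝ) ^ (ε / 2) * (N : ℝ) ^ (ε / 2) * c := by ring
      _ = (N : ℝ) ^ ε * c := by
          rw [← Real.rpow_add hN]
          congr 2
          ring
  have h7 : (N : ℝ) ^ ε * (N : ℝ) ^ (1 / 2 - ε) ≤ (N : ℝ) ^ ε * c := by
    rw [← Real.rpow_add hN]
    refine le_trans (le_of_eq ?_) h6
    rw [Real.sqrt_eq_rpow]
    congr 1
    ring
  exact le_of_mul_le_mul_left h7 (Real.rpow_pos_of_pos hN _)

/-- **Sets with long runs.** -/
theorem runs (g : ℕ → ℝ) (hg0 : ∀ᶠ N in atTop, 0 < g N)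
    (hg : ∀ ε : ℝ, 0 < ε → ∀ᶠ N : ℕ in atTop, g N ≤ (N : ℝ) ^ ε) (A : Set ℕ)
    (hA : ∃ C : ℝ, 0 < C ∧ ∀ᶠ N : ℕ in atTop,
      Real.sqrt (N : ℝ) / g N ≤ C * ((A ∩ Set.Icc 1 N).ncard : ℝ))
    (D : ℕ) (G : ℝ) (h : ∀ ε : ℝ, 0 < ε → ∃ᶠ x : ℕ in atTop, ∃ (P : ℝ[X]) (ℓ : ℕ) (s : ℕ → ℕ),
      P.natDegree ≤ D ∧ ((A ∩ Set.Icc 1 x).ncard : ℝ) ^ (1 - ε) ≤ ℓ ∧ Set.InjOn s (Set.Iio ℓ) ∧
      ∀ t < ℓ, s t ∈ A ∧ s t ≤ x ∧ (∃ z : ℤ, P.eval (t : ℝ) = z) ∧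
        |(s t : ℝ) - P.eval (t : ℝ)| ≤ G) (K : ℕ) :
    ∃ n : ℕ, K < rep A n := by
  refine Pool.Agent.Run7.h129.Arc.runs_unbounded A D G (fun ε hε => ?_) K
  set e : ℝ := min (ε / 2) (1 / 4) with he
  have he0 : 0 < e := lt_min (by positivity) (by norm_num)
  have he1 : e ≤ ε / 2 := min_le_left _ _
  have he2 : e ≤ 1 / 4 := min_le_right _ _
  refine ((h e he0).and_eventually ((dens g hg0 hg A hA e he0).and
    (eventually_ge_atTop 1))).mono ?_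
  rintro x ⟨⟨P, ℓ, s, hP, hℓ, hinj, hs⟩, hx1, hx2⟩
  refine ⟨P, ℓ, s, hP, ?_, hinj, hs⟩
  have hx3 : (1 : ℝ) ≤ x := by exact_mod_cast hx2
  calc (x : ℝ) ^ (1 / 2 - ε) ≤ (x : ℝ) ^ ((1 / 2 - e) * (1 - e)) :=
        Real.rpow_le_rpow_of_exponent_le hx3 (by nlinarith)
    _ = ((x : ℝ) ^ (1 / 2 - e)) ^ (1 - e) := Real.rpow_mul (by linarith) _ _
    _ ≤ ((A ∩ Set.Icc 1 x).ncard : ℝ) ^ (1 - e) :=
        Real.rpow_le_rpow (by positivity) hx1 (by linarith)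
    _ ≤ ℓ := hℓ

lemma ncard_le (a : ℕ → ℕ) (ha : StrictMono a) (n : ℕ) :
    (Set.range a ∩ Set.Icc 1 (a n)).ncard ≤ n + 1 := by
  have h1 : Set.range a ∩ Set.Icc 1 (a n) ⊆ ((range (n + 1)).image a : Finset ℕ) := by
    rintro x ⟨⟨i, rfl⟩, hi⟩
    rw [Finset.mem_coe, Finset.mem_image]
    refine ⟨i, ?_, rfl⟩
    rw [Finset.mem_range, Nat.lt_succ_iff]
    exact ha.le_iff_le.mp hi.2
  refine (Set.ncard_le_ncard h1 (Finset.finite_toSet _)).trans ?_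
  rw [Set.ncard_coe_finset]
  exact Finset.card_image_le.trans (by rw [Finset.card_range])

/-- Splines have long runs. -/
lemma spline_runs (a : ℕ → ℕ) (ha : StrictMono a) (D : ℕ) (G : ℝ)
    (h : ∀ ε : ℝ, 0 < ε → ∃ᶠ n : ℕ in atTop, Spline a D n ((n : ℝ) ^ ε) G) (ε : ℝ) (hε : 0 < ε) :
    ∃ᶠ x : ℕ in atTop, ∃ (P : ℝ[X]) (ℓ : ℕ) (s : ℕ → ℕ),
      P.natDegree ≤ D ∧ ((Set.range a ∩ Set.Icc 1 x).ncard : ℝ) ^ (1 - ε) ≤ ℓ ∧
      Set.InjOn s (Set.Iio ℓ) ∧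
      ∀ t < ℓ, s t ∈ Set.range a ∧ s t ≤ x ∧ (∃ z : ℤ, P.eval (t : ℝ) = z) ∧
        |(s t : ℝ) - P.eval (t : ℝ)| ≤ G := by
  wlog hε1 : ε ≤ 1 generalizing ε
  · refine (this 1 one_pos le_rfl).mono ?_
    rintro x ⟨P, ℓ, s, h1, h2, h3, h4⟩
    refine ⟨P, ℓ, s, h1, ?_, h3, h4⟩
    rcases Nat.eq_zero_or_pos (Set.range a ∩ Set.Icc 1 x).ncard with h0 | h0
    · rw [h0]
      push Not at hε1
      rw [Nat.cast_zero, Real.zero_rpow (by linarith)]
      exact Nat.cast_nonneg _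
    · refine le_trans (Real.rpow_le_rpow_of_exponent_le (by exact_mod_cast h0) ?_) h2
      push Not at hε1
      linarith
  rw [frequently_atTop]
  intro M
  obtain ⟨n, hsp, hn⟩ := ((h ε hε).and_eventually (eventually_ge_atTop (M + 1))).exists
  have hn1 : 1 ≤ n := by omega
  obtain ⟨q, c, P, hq, hmono, hc0, hcq, hP⟩ := hsp
  obtain ⟨i, hi, hin⟩ := longest hmono hc0 hcq hn1
  set ℓ : ℕ := c (i + 1) - c i with hℓ
  have hci : c i ≤ c (i + 1) := hmono (Nat.le_succ i)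
  have hcle : c (i + 1) ≤ n := by rw [← hcq]; exact hmono hi
  refine ⟨a (n - 1), ?_, (P i).comp (X + C ((c i : ℕ) : ℝ)), ℓ, fun t => a (c i + t), ?_, ?_, ?_, ?_⟩
  · have := ha.le_apply (x := n - 1)
    omega
  · rw [natDegree_comp, natDegree_X_add_C, mul_one]
    exact (hP i hi).1
  · have h1 := ncard_le a ha (n - 1)
    rw [Nat.sub_add_cancel hn1] at h1
    have h2 : (n : ℝ) ≤ (n : ℝ) ^ ε * ℓ := by
      calc (n : ℝ) ≤ q * ℓ := by exact_mod_cast hin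
        _ ≤ (n : ℝ) ^ ε * ℓ := mul_le_mul_of_nonneg_right hq (Nat.cast_nonneg _)
    have hn0 : (0 : ℝ) < n := by exact_mod_cast hn1
    have h3 : (n : ℝ) ^ (1 - ε) ≤ ℓ := by
      have h4 : (n : ℝ) ^ ε * (n : ℝ) ^ (1 - ε) ≤ (n : ℝ) ^ ε * ℓ := by
        rw [← Real.rpow_add hn0]
        refine le_trans (le_of_eq ?_) h2
        rw [show ε + (1 - ε) = 1 by ring, Real.rpow_one]
      exact le_of_mul_le_mul_left h4 (Real.rpow_pos_of_pos hn0 _)
    refine le_trans ?_ h3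
    exact Real.rpow_le_rpow (Nat.cast_nonneg _) (by exact_mod_cast h1) (by linarith)
  · intro x _ y _ hxy
    have := ha.injective hxy
    omega
  · intro t ht
    have h8 := (hP i hi).2 (c i + t) (by omega) (by omega)
    refine ⟨⟨_, rfl⟩, ha.monotone (by omega), ?_, ?_⟩
    · rw [eval_comp]
      simp only [eval_add, eval_X, eval_C]
      rw [show ((t : ℝ) + (c i : ℝ)) = ((c i + t : ℕ) : ℝ) by push_cast; ring]
      exact h8.1
    · rw [eval_comp]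
      simp only [eval_add, eval_X, eval_C]
      rw [show ((t : ℝ) + (c i : ℝ)) = ((c i + t : ℕ) : ℝ) by push_cast; ring]
      exact h8.2

open Classical in
lemma diff_spline (a : ℕ → ℕ) (d : ℕ) (hd : 1 ≤ d)
    (h : ∀ ε : ℝ, 0 < ε → ∃ᶠ n : ℕ in atTop,
      (((range n).filter (fun k => diff d a k ≠ 0)).card : ℝ) ≤ (n : ℝ) ^ ε) (ε : ℝ) (hε : 0 < ε) :
    ∃ᶠ n : ℕ in atTop, Spline a d n ((n : ℝ) ^ ε) 0 := by
  have htend : Tendsto (fun n : ℕ => (n : ℝ) ^ (ε / 2)) atTop atTop :=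
    (tendsto_rpow_atTop (by positivity)).comp tendsto_natCast_atTop_atTop
  refine ((h (ε / 2) (by positivity)).and_eventually
    ((htend.eventually (eventually_ge_atTop 2)).and (eventually_ge_atTop 1))).mono ?_
  rintro n ⟨h1, h2, h3⟩
  refine spline_of_diff a hd n _ 0 le_rfl ?_
  have h4 : (n : ℝ) ^ ε = (n : ℝ) ^ (ε / 2) * (n : ℝ) ^ (ε / 2) := by
    rw [← Real.rpow_add (by positivity)]
    congr 1
    ring
  rw [h4]
  nlinarith

/-- the terms of a dense sequence -/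
lemma growth (g : ℕ → ℝ) (hg0 : ∀ᶠ N in atTop, 0 < g N)
    (hg : ∀ᶠ N : ℕ in atTop, g N ≤ Real.exp (√(Real.log N) / 40)) (a : ℕ → ℕ) (ha : StrictMono a)
    (hA : ∃ C : ℝ, 0 < C ∧ ∀ᶠ N : ℕ in atTop,
      Real.sqrt (N : ℝ) / g N ≤ C * ((Set.range a ∩ Set.Icc 1 N).ncard : ℝ)) :
    ∀ᶠ n : ℕ in atTop, (a n : ℝ) ≤ n ^ 2 * Pool.Agent.Run7.h129.Arc.F n := by
  have hlogt : Tendsto (fun n : ℕ => √(Real.log n)) atTop atTop :=
    Real.tendsto_sqrt_atTop.comp (Real.tendsto_log_atTop.comp tendsto_natCast_atTop_atTop)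
  -- `g` is smaller than every power
  have hgp : ∀ ε : ℝ, 0 < ε → ∀ᶠ N : ℕ in atTop, g N ≤ (N : ℝ) ^ ε := by
    intro ε hε
    filter_upwards [hg, hlogt.eventually (eventually_ge_atTop (1 / (40 * ε))),
      eventually_ge_atTop 1] with N h1 h2 h3
    have hN : (0 : ℝ) < N := by exact_mod_cast h3
    refine h1.trans ?_
    rw [Real.rpow_def_of_pos hN]
    refine Real.exp_le_exp.mpr ?_
    have h4 : √(Real.log N) * √(Real.log N) = Real.log N :=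
      Real.mul_self_sqrt (Real.log_natCast_nonneg N)
    rw [div_le_iff₀ (by positivity)] at h2
    have h5 : 0 ≤ √(Real.log N) := Real.sqrt_nonneg _
    nlinarith
  have hd := dens g hg0 hgp (Set.range a) hA (1 / 20) (by norm_num)
  obtain ⟨C, hC, hA⟩ := hA
  have hat : Tendsto a atTop atTop := ha.tendsto_atTop
  have h40 : Tendsto (fun n : ℕ => Real.exp (√(Real.log n) / 40)) atTop atTop :=
    Real.tendsto_exp_atTop.comp (hlogt.atTop_div_const (by norm_num))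
  filter_upwards [hat.eventually hg0, hat.eventually hg, hat.eventually hA, hat.eventually hd,
    h40.eventually (eventually_ge_atTop (4 * C ^ 2 * Real.exp (3 / 40))),
    eventually_ge_atTop 1] with n h0 h1 h2 h3 h4 h5
  have hn : (1 : ℝ) ≤ n := by exact_mod_cast h5
  have han : (1 : ℝ) ≤ a n := by
    have := ha.le_apply (x := n)
    exact_mod_cast h5.trans this
  have hc1 : ((Set.range a ∩ Set.Icc 1 (a n)).ncard : ℝ) ≤ n + 1 := by
    exact_mod_cast ncard_le a ha n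
  -- logarithms
  have hlog : Real.log (a n) ≤ 20 / 9 * Real.log (n + 1) := by
    have h6 : (a n : ℝ) ^ (1 / 2 - 1 / 20 : ℝ) ≤ n + 1 := h3.trans hc1
    have h7 := Real.log_le_log (Real.rpow_pos_of_pos (by linarith) _) h6
    rw [Real.log_rpow (by linarith)] at h7
    linarith
  have hlog1 : Real.log (n + 1) ≤ Real.log n + 1 := by
    have h6 : (n : ℝ) + 1 ≤ n * Real.exp 1 := by
      have := Real.exp_one_gt_d9
      nlinarith
    have h7 := Real.log_le_log (by positivity) h6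
    rw [Real.log_mul (by positivity) (Real.exp_pos _).ne', Real.log_exp] at h7
    exact h7
  set L : ℝ := √(Real.log n) with hL
  have hL0 : 0 ≤ L := Real.sqrt_nonneg _
  have hLL : L ^ 2 = Real.log n := Real.sq_sqrt (Real.log_natCast_nonneg n)
  have hsq : √(Real.log (a n)) ≤ 3 / 2 * (L + 1) := by
    refine Real.sqrt_le_iff.mpr ⟨by positivity, ?_⟩
    nlinarith
  -- the bound for `a n`
  have h6 : Real.sqrt (a n) ≤ C * (n + 1) * Real.exp (√(Real.log (a n)) / 40) := by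
    rw [div_le_iff₀ h0] at h2
    calc Real.sqrt (a n) ≤ C * ((Set.range a ∩ Set.Icc 1 (a n)).ncard : ℝ) * g (a n) := h2
      _ ≤ C * (n + 1) * Real.exp (√(Real.log (a n)) / 40) :=
          mul_le_mul (mul_le_mul_of_nonneg_left hc1 hC.le) h1 h0.le (by positivity)
  have h7 : (a n : ℝ) ≤ (C * (n + 1) * Real.exp (√(Real.log (a n)) / 40)) ^ 2 := by
    have := pow_le_pow_left₀ (Real.sqrt_nonneg _) h6 2
    rwa [Real.sq_sqrt (by linarith)] at this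
  have h8 : Real.exp (√(Real.log (a n)) / 40) ^ 2 ≤ Real.exp (3 / 40) * Real.exp (3 / 40 * L) := by
    rw [← Real.exp_nat_mul, ← Real.exp_add]
    refine Real.exp_le_exp.mpr ?_
    push_cast
    linarith
  have h9 : ((n : ℝ) + 1) ^ 2 ≤ 4 * n ^ 2 := by nlinarith
  have h10 : Real.exp (3 / 40 * L) * Real.exp (L / 40) = Pool.Agent.Run7.h129.Arc.F n := by
    rw [← Real.exp_add]
    unfold Pool.Agent.Run7.h129.Arc.F
    rw [← hL]
    congr 1
    ring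
  calc (a n : ℝ) ≤ (C * (n + 1) * Real.exp (√(Real.log (a n)) / 40)) ^ 2 := h7
    _ = C ^ 2 * ((n : ℝ) + 1) ^ 2 * Real.exp (√(Real.log (a n)) / 40) ^ 2 := by ring
    _ ≤ C ^ 2 * (4 * n ^ 2) * (Real.exp (3 / 40) * Real.exp (3 / 40 * L)) :=
        mul_le_mul (mul_le_mul_of_nonneg_left h9 (by positivity)) h8 (by positivity) (by positivity)
    _ = n ^ 2 * (Real.exp (3 / 40 * L) * (4 * C ^ 2 * Real.exp (3 / 40))) := by ring
    _ ≤ n ^ 2 * (Real.exp (3 / 40 * L) * Real.exp (L / 40)) := by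
        refine mul_le_mul_of_nonneg_left ?_ (by positivity)
        exact mul_le_mul_of_nonneg_left h4 (Real.exp_pos _).le
    _ = n ^ 2 * Pool.Agent.Run7.h129.Arc.F n := by rw [h10]

end Pool.Agent.Run7.h175.ST
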