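import Pool.Agent.Run7.h175.Forest

/-!
# The Ramsey statement for forests
-/

set_option linter.unusedSectionVars false

namespace Run7.h175

variable {V : Type*} [DecidableEq V]

lemma HasFano.mono {β : Type*} [DecidableEq β] {red : Finset β → Prop} {S S' : Finset β}
    (h : HasFano red S) (hs : S ⊆ S') : HasFano red S' := by
  obtain ⟨g, h1, h2, h3⟩ := h
  exact ⟨g, h1, fun i => hs (h2 i), h3⟩

/-- every colouring of at least `N` points without a blue Fano plane has a red copy of `(W, E)` -/
def Arr (W : Finset V) (E : Finset (Finset V)) (N : ℕ) : Prop :=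
  ∀ (β : Type) [DecidableEq β] (red : Finset β → Prop) (S : Finset β), N ≤ S.card →
    ¬ HasFano red S → ∃ f : V → β, (∀ a ∈ W, ∀ b ∈ W, f a = f b → a = b) ∧
      (∀ w ∈ W, f w ∈ S) ∧ ∀ e ∈ E, red (e.image f)

lemma Arr.mono {W : Finset V} {E : Finset (Finset V)} {N M : ℕ} (h : Arr W E N) (hNM : N ≤ M) :
    Arr W E M := fun β _ red S hS hF => h β red S (hNM.trans hS) hF

lemma Arr.split {W1 W2 : Finset V} {E1 E2 : Finset (Finset V)} {N1 N2 : ℕ} (h1 : Arr W1 E1 N1)
    (h2 : Arr W2 E2 N2) (hs1 : ∀ e ∈ E1, e ⊆ W1) (hs2 : ∀ e ∈ E2, e ⊆ W2)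
    (hd : Disjoint W1 W2) : Arr (W1 ∪ W2) (E1 ∪ E2) (max N1 (W1.card + N2)) := by
  classical
  intro β _ red S hS hF
  obtain ⟨f, fi, fm, fr⟩ := h1 β red S ((le_max_left _ _).trans hS) hF
  have hX : (W1.image f) ⊆ S := by
    intro x hx
    obtain ⟨w, hw, rfl⟩ := Finset.mem_image.1 hx
    exact fm w hw
  have hXc : (W1.image f).card = W1.card :=
    Finset.card_image_of_injOn (fun a ha b hb hab => fi a ha b hb hab)
  have hS2 : N2 ≤ (S \ W1.image f).card := by
    rw [Finset.card_sdiff_of_subset hX, hXc]
    have := (le_max_right N1 (W1.card + N2)).trans hS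
    omega
  obtain ⟨g, gi, gm, gr⟩ := h2 β red (S \ W1.image f) hS2
    (fun h => hF (h.mono Finset.sdiff_subset))
  rw [Finset.disjoint_left] at hd
  let k : V → β := fun v => if v ∈ W1 then f v else g v
  have k1 : ∀ v ∈ W1, k v = f v := fun v hv => by simp only [k, if_pos hv]
  have k2 : ∀ v ∈ W2, k v = g v := fun v hv => by
    have : v ∉ W1 := fun h => hd h hv
    simp only [k, if_neg this]
  refine ⟨k, ?_, ?_, ?_⟩
  · intro a ha b hb hab
    rcases Finset.mem_union.1 ha with ha | ha <;> rcases Finset.mem_union.1 hb with hb | hb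
    · rw [k1 a ha, k1 b hb] at hab; exact fi a ha b hb hab
    · rw [k1 a ha, k2 b hb] at hab
      have := gm b hb
      rw [← hab, Finset.mem_sdiff] at this
      exact absurd (Finset.mem_image_of_mem f ha) this.2
    · rw [k2 a ha, k1 b hb] at hab
      have := gm a ha
      rw [hab, Finset.mem_sdiff] at this
      exact absurd (Finset.mem_image_of_mem f hb) this.2
    · rw [k2 a ha, k2 b hb] at hab; exact gi a ha b hb hab
  · intro w hw
    rcases Finset.mem_union.1 hw with hw | hw
    · rw [k1 w hw]; exact fm w hw
    · rw [k2 w hw]; exact (Finset.mem_sdiff.1 (gm w hw)).1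
  · intro e he
    rcases Finset.mem_union.1 he with he | he
    · have : e.image k = e.image f := Finset.image_congr (fun v hv => k1 v (hs1 e he hv))
      rw [this]; exact fr e he
    · have : e.image k = e.image g := Finset.image_congr (fun v hv => k2 v (hs2 e he hv))
      rw [this]; exact gr e he

lemma fano_three : ∀ l ∈ fano, l.card = 3 := by
  intro l hl
  simp only [fano, Finset.mem_insert, Finset.mem_singleton] at hl
  rcases hl with rfl | rfl | rfl | rfl | rfl | rfl | rfl <;> rfl

lemma LT.card3 {W : Finset V} {E : Finset (Finset V)} (h : LT W E) : ∀ e ∈ E, e.card = 3 := by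
  induction h with
  | single v => intro e he; simp at he
  | @add W E c u w h hc hu hw huw ih =>
    intro e he
    rcases Finset.mem_insert.1 he with rfl | he
    · exact Finset.card_eq_three.2 ⟨c, u, w, fun e => hu (e ▸ hc), fun e => hw (e ▸ hc), huw, rfl⟩
    · exact ih e he

lemma arr_vertex (v : V) : Arr {v} ∅ 1 := by
  intro β _ red S hS _
  obtain ⟨x, hx⟩ := Finset.card_pos.1 (by omega : 0 < S.card)
  refine ⟨fun _ => x, ?_, ?_, ?_⟩
  · intro a ha b hb _
    rw [Finset.mem_singleton] at ha hb
    rw [ha, hb]
  · intro w _; exact hx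
  · intro e he; simp at he

lemma arr_edge {a b c : V} (hab : a ≠ b) (hac : a ≠ c) (hbc : b ≠ c) :
    Arr {a, b, c} {{a, b, c}} 7 := by
  classical
  intro β _ red S hS hF
  by_cases hred : ∃ x ∈ S, ∃ y ∈ S, ∃ z ∈ S, Rd red x y z
  · obtain ⟨x, hx, y, hy, z, hz, h1, h2, h3, h4⟩ := hred
    have ga : (fun v => if v = a then x else if v = b then y else z) a = x := by simp
    have gb : (fun v => if v = a then x else if v = b then y else z) b = y := by
      simp [hab.symm]
    have gc : (fun v => if v = a then x else if v = b then y else z) c = z := by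
      simp [hac.symm, hbc.symm]
    refine ⟨fun v => if v = a then x else if v = b then y else z, ?_, ?_, ?_⟩
    · intro u hu v hv huv
      simp only [Finset.mem_insert, Finset.mem_singleton] at hu hv
      rcases hu with rfl | rfl | rfl <;> rcases hv with rfl | rfl | rfl
      · rfl
      · rw [ga, gb] at huv; exact absurd huv h1
      · rw [ga, gc] at huv; exact absurd huv h2
      · rw [ga, gb] at huv; exact absurd huv.symm h1
      · rfl
      · rw [gb, gc] at huv; exact absurd huv h3
      · rw [ga, gc] at huv; exact absurd huv.symm h2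
      · rw [gb, gc] at huv; exact absurd huv.symm h3
      · rfl
    · intro w hw
      simp only [Finset.mem_insert, Finset.mem_singleton] at hw
      rcases hw with rfl | rfl | rfl
      · rw [ga]; exact hx
      · rw [gb]; exact hy
      · rw [gc]; exact hz
    · intro e he
      rw [Finset.mem_singleton] at he
      subst he
      rw [Finset.image_insert, Finset.image_insert, Finset.image_singleton]
      have e1 : (if a = a then x else if a = b then y else z) = x := ga
      have e2 : (if b = a then x else if b = b then y else z) = y := gb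
      have e3 : (if c = a then x else if c = b then y else z) = z := gc
      rw [e1, e2, e3]
      exact h4
  · exfalso
    apply hF
    obtain ⟨T, hT, hTc⟩ := Finset.exists_subset_card_eq hS
    have e := T.equivFin
    rw [hTc] at e
    refine ⟨fun i => (e.symm i).1, ?_, ?_, ?_⟩
    · intro i j hij
      exact e.symm.injective (Subtype.ext hij)
    · intro i; exact hT (e.symm i).2
    · intro l hl hr
      have hl3 : l.card = 3 := fano_three l hl
      obtain ⟨i, j, k, hij, hik, hjk, rfl⟩ := Finset.card_eq_three.1 hl3
      apply hred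
      refine ⟨_, hT (e.symm i).2, _, hT (e.symm j).2, _, hT (e.symm k).2, ?_, ?_, ?_, ?_⟩
      · intro h; exact hij (e.symm.injective (Subtype.ext h))
      · intro h; exact hik (e.symm.injective (Subtype.ext h))
      · intro h; exact hjk (e.symm.injective (Subtype.ext h))
      · simpa [Finset.image_insert, Finset.image_singleton] using hr

/-- the Ramsey statement for connected forests -/
lemma LT.arr {W : Finset V} {E : Finset (Finset V)} (h : LT W E) :
    Arr W E (if E.card = 1 then 7 else 2 * W.card - 1) := by
  classical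
  have hc := h.card
  by_cases hE : 2 ≤ E.card
  · intro β _ red S hS hF
    rw [if_neg (by omega)] at hS
    obtain ⟨S', hS', hS'c⟩ := Finset.exists_subset_card_eq (by omega : 4 * E.card + 1 ≤ S.card)
    obtain ⟨f, h1, h2, h3⟩ := h.arrow hE hS'c (fun hh => hF (hh.mono hS'))
    exact ⟨f, h1, fun w hw => hS' (h2 w hw), h3⟩
  · by_cases hE1 : E.card = 1
    · rw [if_pos hE1]
      obtain ⟨e, rfl⟩ := Finset.card_eq_one.1 hE1
      have hes := h.sub e (by simp)
      have he3 := h.card3 e (by simp)
      have hW3 : W.card = 3 := by rw [hc]; simp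
      have hWe : e = W := Finset.eq_of_subset_of_card_le hes (by rw [hW3, he3])
      subst hWe
      obtain ⟨a, b, c, hab, hac, hbc, rfl⟩ := Finset.card_eq_three.1 he3
      exact arr_edge hab hac hbc
    · have hE0 : E = ∅ := by rw [← Finset.card_eq_zero]; omega
      subst hE0
      have : W.card = 1 := by simpa using hc
      obtain ⟨v, rfl⟩ := Finset.card_eq_one.1 this
      simpa using arr_vertex v


/-- splitting a non-connected hypergraph -/
lemma exists_split {W : Finset V} {E : Finset (Finset V)} (hsub : ∀ e ∈ E, e ⊆ W)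
    (hc : ¬ Conn W E) : ∃ W1 W2 : Finset V, ∃ E1 E2 : Finset (Finset V), W = W1 ∪ W2 ∧
      E = E1 ∪ E2 ∧ Disjoint W1 W2 ∧ (∀ e ∈ E1, e ⊆ W1) ∧ (∀ e ∈ E2, e ⊆ W2) ∧ W1.Nonempty ∧
      W2.Nonempty ∧ W2.card ≤ W1.card := by
  classical
  unfold Conn at hc
  push Not at hc
  obtain ⟨A, hAW, hA, hcl, hne⟩ := hc
  have hB : (W \ A).Nonempty := by
    rw [Finset.sdiff_nonempty]
    intro h
    exact hne (Finset.Subset.antisymm hAW h)
  have hU : W = A ∪ (W \ A) := (Finset.union_sdiff_of_subset hAW).symm
  have hE : E = E.filter (fun e => e ⊆ A) ∪ E.filter (fun e => ¬ e ⊆ A) :=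
    (Finset.filter_union_filter_not_eq _ _).symm
  have h1 : ∀ e ∈ E.filter (fun e => e ⊆ A), e ⊆ A := fun e he => (Finset.mem_filter.1 he).2
  have h2 : ∀ e ∈ E.filter (fun e => ¬ e ⊆ A), e ⊆ W \ A := by
    intro e he
    obtain ⟨he, hn⟩ := Finset.mem_filter.1 he
    rcases hcl e he with h | h
    · exact absurd h hn
    · intro v hv
      exact Finset.mem_sdiff.2 ⟨hsub e he hv, Finset.disjoint_left.1 h hv⟩
  rcases le_total (W \ A).card A.card with hle | hle
  · exact ⟨A, W \ A, _, _, hU, hE, Finset.disjoint_sdiff, h1, h2, hA, hB, hle⟩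
  · exact ⟨W \ A, A, _, _, by rw [Finset.union_comm]; exact hU, by rw [Finset.union_comm]; exact hE,
      Finset.sdiff_disjoint, h2, h1, hB, hA, hle⟩

/-- **The Ramsey statement for forests.** -/
theorem forest_arr : ∀ (n : ℕ) {W : Finset V} {E : Finset (Finset V)}, W.card = n → W.Nonempty →
    (∀ e ∈ E, e.card = 3) → (∀ e ∈ E, e ⊆ W) → NC E →
    Arr W E (if W.card = 3 ∧ E.card = 1 then 7 else 2 * W.card - 1) ∧
    (¬ Conn W E → ¬ (W.card = 4 ∧ E.card = 1) → Arr W E (2 * W.card - 2)) := by
  intro n
  induction n using Nat.strong_induction_on with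
  | _ n ih =>
    intro W E hn hW h3 hsub hnc
    by_cases hc : Conn W E
    · refine ⟨?_, fun h => absurd hc h⟩
      have hLT := LT_of E.card rfl hW h3 hsub hnc hc
      have h1 := hLT.arr
      have h2 := hLT.card
      by_cases hE1 : E.card = 1
      · rw [if_pos hE1] at h1
        rwa [if_pos ⟨by omega, hE1⟩]
      · rw [if_neg hE1] at h1
        rwa [if_neg (fun h => hE1 h.2)]
    · obtain ⟨W1, W2, E1, E2, rfl, rfl, hd, hs1, hs2, hn1, hn2, hle⟩ := exists_split hsub hc
      have hWc : (W1 ∪ W2).card = W1.card + W2.card := Finset.card_union_of_disjoint hd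
      have hp1 := hn1.card_pos
      have hp2 := hn2.card_pos
      have a1 := (ih W1.card (by omega) rfl hn1 (fun e he => h3 e (Finset.mem_union_left _ he)) hs1
        (hnc.mono Finset.subset_union_left)).1
      have a2 := (ih W2.card (by omega) rfl hn2 (fun e he => h3 e (Finset.mem_union_right _ he)) hs2
        (hnc.mono Finset.subset_union_right)).1
      have hEc : (E1 ∪ E2).card = E1.card + E2.card := by
        apply Finset.card_union_of_disjoint
        rw [Finset.disjoint_left]
        intro e he1 he2
        obtain ⟨v, hv⟩ : e.Nonempty := by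
          rw [← Finset.card_pos, h3 e (Finset.mem_union_left _ he1)]; norm_num
        exact Finset.disjoint_left.1 hd (hs1 e he1 hv) (hs2 e he2 hv)
      have hE2 : W2.card < 3 → E2.card = 0 := by
        intro h
        rw [Finset.card_eq_zero, Finset.eq_empty_iff_forall_notMem]
        intro e he
        have h4 := Finset.card_le_card (hs2 e he)
        rw [h3 e (Finset.mem_union_right _ he)] at h4
        omega
      have hsp := a1.split a2 hs1 hs2 hd
      by_cases hexc : (W1 ∪ W2).card = 4 ∧ (E1 ∪ E2).card = 1
      · refine ⟨?_, fun _ h => absurd hexc h⟩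
        refine hsp.mono ?_
        rw [if_neg (by omega : ¬ ((W1 ∪ W2).card = 3 ∧ (E1 ∪ E2).card = 1))]
        apply max_le
        · split_ifs <;> omega
        · split_ifs <;> omega
      · have hmain : Arr (W1 ∪ W2) (E1 ∪ E2) (2 * (W1 ∪ W2).card - 2) := by
          refine hsp.mono ?_
          apply max_le
          · split_ifs with h
            · rcases Nat.lt_or_ge W2.card 2 with h2 | h2
              · exfalso
                apply hexc
                have := hE2 (by omega)
                omega
              · omega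
            · omega
          · split_ifs <;> omega
        refine ⟨?_, fun _ _ => hmain⟩
        refine hmain.mono ?_
        split_ifs <;> omega

end Run7.h175
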