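import Mathlib

/-!
# Red and blue triples, the Fano plane, matchings
-/

namespace Run7.h175

variable {α : Type*} [DecidableEq α]

/-- The seven lines of the Fano plane on the points `0, ..., 6`. -/
def fano : Finset (Finset (Fin 7)) :=
  {{0, 1, 3}, {1, 2, 4}, {2, 3, 5}, {3, 4, 6}, {4, 5, 0}, {5, 6, 1}, {6, 0, 2}}

/-- `x, y, z` are distinct and form a red triple. -/
def Rd (red : Finset α → Prop) (x y z : α) : Prop := x ≠ y ∧ x ≠ z ∧ y ≠ z ∧ red {x, y, z}

/-- `x, y, z` are distinct and form a blue triple. -/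
def Bl (red : Finset α → Prop) (x y z : α) : Prop := x ≠ y ∧ x ≠ z ∧ y ≠ z ∧ ¬ red {x, y, z}

section
variable {red : Finset α → Prop} {x y z : α}

lemma tri12 (x y z : α) : ({x, y, z} : Finset α) = {y, x, z} := by
  ext a; simp only [Finset.mem_insert, Finset.mem_singleton]; tauto

lemma tri23 (x y z : α) : ({x, y, z} : Finset α) = {x, z, y} := by
  ext a; simp only [Finset.mem_insert, Finset.mem_singleton]; tauto

lemma Rd.s12 (h : Rd red x y z) : Rd red y x z := by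
  obtain ⟨h1, h2, h3, h4⟩ := h
  exact ⟨h1.symm, h3, h2, by rwa [tri12]⟩

lemma Rd.s23 (h : Rd red x y z) : Rd red x z y := by
  obtain ⟨h1, h2, h3, h4⟩ := h
  exact ⟨h2, h1, h3.symm, by rwa [tri23]⟩

lemma Bl.s12 (h : Bl red x y z) : Bl red y x z := by
  obtain ⟨h1, h2, h3, h4⟩ := h
  exact ⟨h1.symm, h3, h2, by rwa [tri12]⟩

lemma Bl.s23 (h : Bl red x y z) : Bl red x z y := by
  obtain ⟨h1, h2, h3, h4⟩ := h
  exact ⟨h2, h1, h3.symm, by rwa [tri23]⟩

lemma Bl.s13 (h : Bl red x y z) : Bl red z y x := h.s12.s23.s12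

lemma Rd.s13 (h : Rd red x y z) : Rd red z y x := h.s12.s23.s12

lemma rd_or_bl (h1 : x ≠ y) (h2 : x ≠ z) (h3 : y ≠ z) : Rd red x y z ∨ Bl red x y z := by
  by_cases h : red {x, y, z}
  · exact Or.inl ⟨h1, h2, h3, h⟩
  · exact Or.inr ⟨h1, h2, h3, h⟩

lemma bl_of_not_rd (h1 : x ≠ y) (h2 : x ≠ z) (h3 : y ≠ z) (h : ¬ Rd red x y z) :
    Bl red x y z := (rd_or_bl h1 h2 h3).resolve_left h

lemma rd_of_not_bl (h1 : x ≠ y) (h2 : x ≠ z) (h3 : y ≠ z) (h : ¬ Bl red x y z) :
    Rd red x y z := (rd_or_bl h1 h2 h3).resolve_right h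

end

/-- there is a blue Fano plane inside `S` -/
def HasFano (red : Finset α → Prop) (S : Finset α) : Prop :=
  ∃ g : Fin 7 → α, Function.Injective g ∧ (∀ i, g i ∈ S) ∧ ∀ l ∈ fano, ¬ red (l.image g)

/-- no blue Pasch configuration inside `Z` -/
def PF (red : Finset α → Prop) (Z : Finset α) : Prop :=
  ∀ a ∈ Z, ∀ b ∈ Z, ∀ p ∈ Z, ∀ q ∈ Z, ∀ r ∈ Z, ∀ t ∈ Z, a ≠ b → p ≠ r → q ≠ t →
    Bl red a p q → Bl red b q r → Bl red a r t → Bl red b t p → False

lemma PF.mono {red : Finset α → Prop} {Z Z' : Finset α} (h : PF red Z) (hs : Z' ⊆ Z) :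
    PF red Z' := by
  intro a ha b hb p hp q hq r hr t ht
  exact h a (hs ha) b (hs hb) p (hs hp) q (hs hq) r (hs hr) t (hs ht)

lemma hasFano_of {red : Finset α → Prop} {S : Finset α} {a0 a1 a2 a3 a4 a5 a6 : α}
    (m0 : a0 ∈ S) (m1 : a1 ∈ S) (m2 : a2 ∈ S) (m3 : a3 ∈ S) (m4 : a4 ∈ S) (m5 : a5 ∈ S)
    (m6 : a6 ∈ S)
    (l1 : Bl red a0 a1 a3) (l2 : Bl red a1 a2 a4) (l3 : Bl red a2 a3 a5) (l4 : Bl red a3 a4 a6)
    (l5 : Bl red a4 a5 a0) (l6 : Bl red a5 a6 a1) (l7 : Bl red a6 a0 a2) :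
    HasFano red S := by
  refine ⟨![a0, a1, a2, a3, a4, a5, a6], ?_, ?_, ?_⟩
  · have e01 := l1.1; have e03 := l1.2.1; have e13 := l1.2.2.1
    have e12 := l2.1; have e14 := l2.2.1; have e24 := l2.2.2.1
    have e23 := l3.1; have e25 := l3.2.1; have e35 := l3.2.2.1
    have e34 := l4.1; have e36 := l4.2.1; have e46 := l4.2.2.1
    have e45 := l5.1; have e40 := l5.2.1; have e50 := l5.2.2.1
    have e56 := l6.1; have e51 := l6.2.1; have e61 := l6.2.2.1
    have e60 := l7.1; have e62 := l7.2.1; have e02 := l7.2.2.1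
    intro i j h
    fin_cases i <;> fin_cases j <;> first | rfl | (exfalso; revert h; simp_all [Ne.symm, eq_comm])
  · intro i
    fin_cases i <;> simp_all
  · intro l hl
    simp only [fano, Finset.mem_insert, Finset.mem_singleton] at hl
    rcases hl with rfl | rfl | rfl | rfl | rfl | rfl | rfl
    · simpa [Finset.image_insert, Finset.image_singleton] using l1.2.2.2
    · simpa [Finset.image_insert, Finset.image_singleton] using l2.2.2.2
    · simpa [Finset.image_insert, Finset.image_singleton] using l3.2.2.2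
    · simpa [Finset.image_insert, Finset.image_singleton] using l4.2.2.2
    · simpa [Finset.image_insert, Finset.image_singleton] using l5.2.2.2
    · simpa [Finset.image_insert, Finset.image_singleton] using l6.2.2.2
    · simpa [Finset.image_insert, Finset.image_singleton] using l7.2.2.2

/-- a set all of whose pairs are blue with an outside vertex has no blue Pasch configuration -/
lemma PF_of_link {red : Finset α → Prop} {S Z : Finset α} {u : α} (hF : ¬ HasFano red S)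
    (hu : u ∈ S) (hZ : Z ⊆ S) (hl : ∀ p ∈ Z, ∀ q ∈ Z, p ≠ q → Bl red u p q) : PF red Z := by
  intro a ha b hb p hp q hq r hr t ht hab hpr hqt h1 h2 h3 h4
  apply hF
  -- labels: 0 = u, 1 = a, 2 = p, 3 = b, 4 = q, 5 = t, 6 = r
  exact hasFano_of hu (hZ ha) (hZ hp) (hZ hb) (hZ hq) (hZ ht) (hZ hr)
    (hl a ha b hb hab) h1 (h4.s12.s23.s12.s23) (h2.s23.s23) (hl q hq t ht hqt).s12.s23
    (h3.s12.s23.s12.s23.s12.s23.s13) (hl r hr p hp hpr.symm).s12

end Run7.h175
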