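import Pool.Agent.Run7.h175.Main

/-!
# Loose trees as hypergraphs
-/

set_option linter.unusedSectionVars false

namespace Run7.h175

variable {V : Type*} [DecidableEq V]

/-- `(W, E)` is built from a single vertex by attaching edges with two new vertices each -/
inductive LT : Finset V → Finset (Finset V) → Prop
  | single (v : V) : LT {v} ∅
  | add {W : Finset V} {E : Finset (Finset V)} {c u w : V} (h : LT W E) (hc : c ∈ W) (hu : u ∉ W)
      (hw : w ∉ W) (huw : u ≠ w) : LT (insert u (insert w W)) (insert {c, u, w} E)

lemma LT.sub {W : Finset V} {E : Finset (Finset V)} (h : LT W E) : ∀ e ∈ E, e ⊆ W := by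
  induction h with
  | single v => intro e he; simp at he
  | @add W E c u w h hc hu hw huw ih =>
    intro e he
    rcases Finset.mem_insert.1 he with rfl | he
    · intro v hv
      simp only [Finset.mem_insert, Finset.mem_singleton] at hv ⊢
      rcases hv with rfl | rfl | rfl
      · exact Or.inr (Or.inr hc)
      · exact Or.inl rfl
      · exact Or.inr (Or.inl rfl)
    · intro v hv
      have := ih e he hv
      simp [this]

lemma LT.card {W : Finset V} {E : Finset (Finset V)} (h : LT W E) :
    W.card = 2 * E.card + 1 := by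
  induction h with
  | single v => simp
  | @add W E c u w h hc hu hw huw ih =>
    have hn : ({c, u, w} : Finset V) ∉ E := fun he => hu (h.sub _ he (by simp))
    rw [card_ins2 hu hw huw, ih, Finset.card_insert_of_notMem hn]
    ring

lemma LT.linear {W : Finset V} {E : Finset (Finset V)} (h : LT W E) :
    ∀ e ∈ E, ∀ f ∈ E, e ≠ f → ∀ a ∈ e, ∀ b ∈ e, a ∈ f → b ∈ f → a = b := by
  induction h with
  | single v => intro e he; simp at he
  | @add W E c u w h hc hu hw huw ih =>
    have key : ∀ f ∈ E, ∀ a ∈ ({c, u, w} : Finset V), a ∈ f → a = c := by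
      intro f hf a ha haf
      simp only [Finset.mem_insert, Finset.mem_singleton] at ha
      rcases ha with rfl | rfl | rfl
      · rfl
      · exact absurd (h.sub f hf haf) hu
      · exact absurd (h.sub f hf haf) hw
    intro e he f hf hne a ha b hb haf hbf
    rcases Finset.mem_insert.1 he with rfl | he <;> rcases Finset.mem_insert.1 hf with rfl | hf
    · exact absurd rfl hne
    · rw [key f hf a ha haf, key f hf b hb hbf]
    · rw [key e he a haf ha, key e he b hbf hb]
    · exact ih e he f hf hne a ha b hb haf hbf

lemma LT.three {W : Finset V} {E : Finset (Finset V)} (h : LT W E) :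
    ∀ e ∈ E, ∀ c ∈ e, ∃ x y, e = {c, x, y} ∧ c ≠ x ∧ c ≠ y ∧ x ≠ y := by
  induction h with
  | single v => intro e he; simp at he
  | @add W E c u w h hc hu hw huw ih =>
    intro e he d hd
    rcases Finset.mem_insert.1 he with rfl | he
    · have hcu : c ≠ u := fun e => hu (e ▸ hc)
      have hcw : c ≠ w := fun e => hw (e ▸ hc)
      simp only [Finset.mem_insert, Finset.mem_singleton] at hd
      rcases hd with rfl | rfl | rfl
      · exact ⟨u, w, rfl, hcu, hcw, huw⟩
      · exact ⟨c, w, tri12 _ _ _, hcu.symm, huw, hcw⟩
      · exact ⟨c, u, by rw [tri12 d c u, tri23 c d u], hcw.symm, huw.symm, hcu⟩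
    · exact ih e he d hd

lemma LT.isolated {W : Finset V} {E : Finset (Finset V)} (h : LT W E) :
    ∀ c ∈ W, (∀ f ∈ E, c ∉ f) → W = {c} ∧ E = ∅ := by
  induction h with
  | single v =>
    intro c hc _
    rw [Finset.mem_singleton] at hc
    subst hc
    exact ⟨rfl, rfl⟩
  | @add W E d u w h hd hu hw huw ih =>
    intro c hc hf
    exfalso
    rcases Finset.mem_insert.1 hc with rfl | hc
    · exact hf {d, c, w} (Finset.mem_insert_self _ _) (by simp)
    rcases Finset.mem_insert.1 hc with rfl | hc
    · exact hf {d, u, c} (Finset.mem_insert_self _ _) (by simp)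
    · obtain ⟨h1, h2⟩ := ih c hc (fun f hfE => hf f (Finset.mem_insert_of_mem hfE))
      subst h1
      rw [Finset.mem_singleton] at hd
      subst hd
      exact hf {d, u, w} (Finset.mem_insert_self _ _) (by simp)

lemma LT.remove {W : Finset V} {E : Finset (Finset V)} (h : LT W E) :
    ∀ e ∈ E, ∀ x ∈ e, ∀ y ∈ e, x ≠ y → (∀ f ∈ E, x ∈ f → f = e) → (∀ f ∈ E, y ∈ f → f = e) →
      LT ((W.erase x).erase y) (E.erase e) := by
  induction h with
  | single v => intro e he; simp at he
  | @add W E c u w h hc hu hw huw ih =>
    intro e he x hx y hy hxy hfx hfy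
    have hcu : c ≠ u := fun e => hu (e ▸ hc)
    have hcw : c ≠ w := fun e => hw (e ▸ hc)
    have hn : ({c, u, w} : Finset V) ∉ E := fun he => hu (h.sub _ he (by simp))
    rcases Finset.mem_insert.1 he with rfl | he
    · rw [Finset.erase_insert hn]
      -- if `c` is one of the removed vertices, then `W = {c}`
      have hcase : (x = c ∨ y = c) → W = {c} ∧ E = ∅ := by
        intro hxc
        apply h.isolated c hc
        intro f hf hcf
        rcases hxc with rfl | rfl
        · have := hfx f (Finset.mem_insert_of_mem hf) hcf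
          exact hn (this ▸ hf)
        · have := hfy f (Finset.mem_insert_of_mem hf) hcf
          exact hn (this ▸ hf)
      simp only [Finset.mem_insert, Finset.mem_singleton] at hx hy
      rcases hx with rfl | rfl | rfl
      · obtain ⟨hW, hE⟩ := hcase (Or.inl rfl)
        subst hW hE
        rcases hy with rfl | rfl | rfl
        · exact absurd rfl hxy
        · have : (((insert y (insert w {x})) : Finset V).erase x).erase y = {w} := by
            ext v; simp only [Finset.mem_erase, Finset.mem_insert, Finset.mem_singleton]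
            constructor
            · rintro ⟨h1, h2, h3⟩; tauto
            · rintro rfl; exact ⟨huw.symm, hcw.symm, by simp⟩
          rw [this]
          exact LT.single w
        · have : (((insert u (insert y {x})) : Finset V).erase x).erase y = {u} := by
            ext v; simp only [Finset.mem_erase, Finset.mem_insert, Finset.mem_singleton]
            constructor
            · rintro ⟨h1, h2, h3⟩; tauto
            · rintro rfl; exact ⟨huw, hcu.symm, by simp⟩
          rw [this]
          exact LT.single u
      · rcases hy with rfl | rfl | rfl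
        · obtain ⟨hW, hE⟩ := hcase (Or.inr rfl)
          subst hW hE
          have : (((insert x (insert w {y})) : Finset V).erase x).erase y = {w} := by
            ext v; simp only [Finset.mem_erase, Finset.mem_insert, Finset.mem_singleton]
            constructor
            · rintro ⟨h1, h2, h3⟩; tauto
            · rintro rfl; exact ⟨hcw.symm, huw.symm, by simp⟩
          rw [this]
          exact LT.single w
        · exact absurd rfl hxy
        · have : (((insert x (insert y W)) : Finset V).erase x).erase y = W := by
            ext v; simp only [Finset.mem_erase, Finset.mem_insert]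
            constructor
            · rintro ⟨h1, h2, h3⟩; tauto
            · intro hv; exact ⟨fun e => hw (e ▸ hv), fun e => hu (e ▸ hv), by simp [hv]⟩
          rw [this]
          exact h
      · rcases hy with rfl | rfl | rfl
        · obtain ⟨hW, hE⟩ := hcase (Or.inr rfl)
          subst hW hE
          have : (((insert u (insert x {y})) : Finset V).erase x).erase y = {u} := by
            ext v; simp only [Finset.mem_erase, Finset.mem_insert, Finset.mem_singleton]
            constructor
            · rintro ⟨h1, h2, h3⟩; tauto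
            · rintro rfl; exact ⟨hcu.symm, huw, by simp⟩
          rw [this]
          exact LT.single u
        · have : (((insert y (insert x W)) : Finset V).erase x).erase y = W := by
            ext v; simp only [Finset.mem_erase, Finset.mem_insert]
            constructor
            · rintro ⟨h1, h2, h3⟩; tauto
            · intro hv; exact ⟨fun e => hu (e ▸ hv), fun e => hw (e ▸ hv), by simp [hv]⟩
          rw [this]
          exact h
        · exact absurd rfl hxy
    · have hxW := h.sub e he hx
      have hyW := h.sub e he hy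
      have hne : ({c, u, w} : Finset V) ≠ e := fun h' => hn (h' ▸ he)
      have hcx : c ≠ x := by
        rintro rfl
        exact hne (hfx _ (Finset.mem_insert_self _ _) (by simp))
      have hcy : c ≠ y := by
        rintro rfl
        exact hne (hfy _ (Finset.mem_insert_self _ _) (by simp))
      have ih' := ih e he x hx y hy hxy (fun f hf => hfx f (Finset.mem_insert_of_mem hf))
        (fun f hf => hfy f (Finset.mem_insert_of_mem hf))
      have hxu : x ≠ u := fun e => hu (e ▸ hxW)
      have hxw : x ≠ w := fun e => hw (e ▸ hxW)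
      have hyu : y ≠ u := fun e => hu (e ▸ hyW)
      have hyw : y ≠ w := fun e => hw (e ▸ hyW)
      have e1 : ((insert u (insert w W)).erase x).erase y =
          insert u (insert w ((W.erase x).erase y)) := by
        ext v; simp only [Finset.mem_erase, Finset.mem_insert]
        constructor
        · rintro ⟨h1, h2, h3⟩; tauto
        · rintro (rfl | rfl | h3)
          · exact ⟨hyu.symm, hxu.symm, Or.inl rfl⟩
          · exact ⟨hyw.symm, hxw.symm, Or.inr (Or.inl rfl)⟩
          · exact ⟨h3.1, h3.2.1, Or.inr (Or.inr h3.2.2)⟩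
      have e2 : (insert {c, u, w} E).erase e = insert {c, u, w} (E.erase e) := by
        ext f; simp only [Finset.mem_erase, Finset.mem_insert]
        constructor
        · rintro ⟨h1, h2⟩; tauto
        · rintro (rfl | h3)
          · exact ⟨hne, Or.inl rfl⟩
          · exact ⟨h3.1, Or.inr h3.2⟩
      rw [e1, e2]
      refine LT.add ih' ?_ ?_ ?_ huw
      · simp [hc, hcx, hcy]
      · simp [hu]
      · simp [hw]

/-- `e = {c, x, y}` is a leaf edge of `E` attached at `c` -/
def Leaf (E : Finset (Finset V)) (e : Finset V) (c : V) : Prop :=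
  e ∈ E ∧ ∃ x y, e = {c, x, y} ∧ c ≠ x ∧ c ≠ y ∧ x ≠ y ∧ (∀ f ∈ E, x ∈ f → f = e) ∧
    (∀ f ∈ E, y ∈ f → f = e)

/-- a loose tree is a sunflower or has two leaf edges attached at different vertices -/
lemma LT.two_leaves {W : Finset V} {E : Finset (Finset V)} (h : LT W E) :
    (∃ c ∈ W, ∀ e ∈ E, c ∈ e) ∨ ∃ e1 c1 e2 c2, Leaf E e1 c1 ∧ Leaf E e2 c2 ∧ e1 ≠ e2 ∧ c1 ≠ c2 := by
  induction h with
  | single v => left; exact ⟨v, by simp, by simp⟩
  | @add W E c u w h hc hu hw huw ih =>
    have hcu : c ≠ u := fun e => hu (e ▸ hc)
    have hcw : c ≠ w := fun e => hw (e ▸ hc)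
    have hn : ({c, u, w} : Finset V) ∉ E := fun he => hu (h.sub _ he (by simp))
    have hleaf : Leaf (insert {c, u, w} E) {c, u, w} c := by
      refine ⟨Finset.mem_insert_self _ _, u, w, rfl, hcu, hcw, huw, ?_, ?_⟩
      · intro f hf huf
        rcases Finset.mem_insert.1 hf with rfl | hf
        · rfl
        · exact absurd (h.sub f hf huf) hu
      · intro f hf hwf
        rcases Finset.mem_insert.1 hf with rfl | hf
        · rfl
        · exact absurd (h.sub f hf hwf) hw
    -- a leaf edge of `E` not containing `c` stays a leaf edge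
    have hkeep : ∀ e d, Leaf E e d → c ∉ e → Leaf (insert {c, u, w} E) e d := by
      intro e d hl hce
      obtain ⟨he, x, y, hexy, h1, h2, h3, h4, h5⟩ := hl
      have hxe : x ∈ e := by rw [hexy]; simp
      have hye : y ∈ e := by rw [hexy]; simp
      have hout : ∀ v ∈ e, v ∉ ({c, u, w} : Finset V) := by
        intro v hv hv'
        simp only [Finset.mem_insert, Finset.mem_singleton] at hv'
        rcases hv' with rfl | rfl | rfl
        · exact hce hv
        · exact hu (h.sub e he hv)
        · exact hw (h.sub e he hv)
      refine ⟨Finset.mem_insert_of_mem he, x, y, hexy, h1, h2, h3, ?_, ?_⟩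
      · intro f hf hxf
        rcases Finset.mem_insert.1 hf with rfl | hf
        · exact absurd hxf (hout x hxe)
        · exact h4 f hf hxf
      · intro f hf hyf
        rcases Finset.mem_insert.1 hf with rfl | hf
        · exact absurd hyf (hout y hye)
        · exact h5 f hf hyf
    rcases ih with ⟨c', hc', hsun⟩ | ⟨e1, c1, e2, c2, hl1, hl2, hne, hcc⟩
    · by_cases hall : ∀ f ∈ E, c ∈ f
      · left
        refine ⟨c, by simp [hc], ?_⟩
        intro e he
        rcases Finset.mem_insert.1 he with rfl | he
        · simp
        · exact hall e he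
      · push Not at hall
        obtain ⟨f, hf, hcf⟩ := hall
        right
        have hc'f := hsun f hf
        have hcc' : c ≠ c' := fun e => hcf (e ▸ hc'f)
        obtain ⟨x, y, hfxy, h1, h2, h3⟩ := h.three f hf c' hc'f
        have hxf : x ∈ f := by rw [hfxy]; simp
        have hyf : y ∈ f := by rw [hfxy]; simp
        have hl : Leaf E f c' := by
          refine ⟨hf, x, y, hfxy, h1, h2, h3, ?_, ?_⟩
          · intro g hg hxg
            by_contra hgf
            exact h1 (h.linear g hg f hf hgf c' (hsun g hg) x hxg hc'f hxf)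
          · intro g hg hyg
            by_contra hgf
            exact h2 (h.linear g hg f hf hgf c' (hsun g hg) y hyg hc'f hyf)
        exact ⟨{c, u, w}, c, f, c', hleaf, hkeep f c' hl hcf, fun e => hn (e ▸ hf), hcc'⟩
    · right
      -- `c` cannot lie in both leaf edges
      by_cases hc1 : c ∈ e1
      · by_cases hc2 : c ∈ e2
        · exfalso
          obtain ⟨he1, x1, y1, hexy1, _, _, _, h4, h5⟩ := hl1
          obtain ⟨he2, x2, y2, hexy2, _, _, _, h4', h5'⟩ := hl2
          have q1 := hc1
          have q2 := hc2
          rw [hexy1] at q1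
          rw [hexy2] at q2
          simp only [Finset.mem_insert, Finset.mem_singleton] at q1 q2
          rcases q1 with e | e | e
          · rcases q2 with e' | e' | e'
            · exact hcc (by rw [← e, ← e'])
            · exact hne (h4' e1 he1 (e' ▸ hc1))
            · exact hne (h5' e1 he1 (e' ▸ hc1))
          · exact hne (h4 e2 he2 (e ▸ hc2)).symm
          · exact hne (h5 e2 he2 (e ▸ hc2)).symm
        · refine ⟨{c, u, w}, c, e2, c2, hleaf, hkeep e2 c2 hl2 hc2, ?_, ?_⟩
          · rintro rfl
            exact hc2 (by simp)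
          · rintro rfl
            obtain ⟨he2, x2, y2, hexy2, _⟩ := hl2
            exact hc2 (by rw [hexy2]; simp)
      · refine ⟨{c, u, w}, c, e1, c1, hleaf, hkeep e1 c1 hl1 hc1, ?_, ?_⟩
        · rintro rfl
          exact hc1 (by simp)
        · rintro rfl
          obtain ⟨he1, x1, y1, hexy1, _⟩ := hl1
          exact hc1 (by rw [hexy1]; simp)

/-- `T` represents `(W, E)` with root `ρ` -/
inductive Rep : RT → V → Finset V → Finset (Finset V) → Prop
  | nil (ρ : V) : Rep RT.nil ρ {ρ} ∅
  | cons {A B C : RT} {ρ a b : V} {WA WB WC : Finset V} {EA EB EC : Finset (Finset V)}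
      (hA : Rep A a WA EA) (hB : Rep B b WB EB) (hC : Rep C ρ WC EC) (hAB : Disjoint WA WB)
      (hAC : Disjoint WA WC) (hBC : Disjoint WB WC) :
      Rep (RT.cons A B C) ρ (WA ∪ WB ∪ WC) (insert {ρ, a, b} (EA ∪ EB ∪ EC))

lemma Rep.root {T : RT} {ρ : V} {W : Finset V} {E : Finset (Finset V)} (h : Rep T ρ W E) :
    ρ ∈ W := by
  induction h with
  | nil ρ => simp
  | cons hA hB hC hAB hAC hBC ihA ihB ihC => exact Finset.mem_union_right _ ihC

lemma Rep.sub {T : RT} {ρ : V} {W : Finset V} {E : Finset (Finset V)} (h : Rep T ρ W E) :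
    ∀ e ∈ E, e ⊆ W := by
  induction h with
  | nil ρ => intro e he; simp at he
  | cons hA hB hC hAB hAC hBC ihA ihB ihC =>
    intro e he v hv
    simp only [Finset.mem_insert, Finset.mem_union] at he ⊢
    rcases he with rfl | (he | he) | he
    · simp only [Finset.mem_insert, Finset.mem_singleton] at hv
      rcases hv with rfl | rfl | rfl
      · exact Or.inr hC.root
      · exact Or.inl (Or.inl hA.root)
      · exact Or.inl (Or.inr hB.root)
    · exact Or.inl (Or.inl (ihA e he hv))
    · exact Or.inl (Or.inr (ihB e he hv))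
    · exact Or.inr (ihC e he hv)

lemma Rep.deg {T : RT} {ρ : V} {W : Finset V} {E : Finset (Finset V)} (h : Rep T ρ W E) :
    T.deg = (E.filter (fun e => ρ ∈ e)).card := by
  induction h with
  | nil ρ => simp [RT.deg]
  | @cons A B C ρ a b WA WB WC EA EB EC hA hB hC hAB hAC hBC ihA ihB ihC =>
    have hρA : ρ ∉ WA := fun h => Finset.disjoint_left.1 hAC h hC.root
    have hρB : ρ ∉ WB := fun h => Finset.disjoint_left.1 hBC h hC.root
    have h1 : (insert ({ρ, a, b} : Finset V) (EA ∪ EB ∪ EC)).filter (fun e => ρ ∈ e) =
        insert {ρ, a, b} (EC.filter (fun e => ρ ∈ e)) := by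
      ext e
      simp only [Finset.mem_filter, Finset.mem_insert, Finset.mem_union]
      constructor
      · rintro ⟨rfl | (he | he) | he, h2⟩
        · exact Or.inl rfl
        · exact absurd (hA.sub e he h2) hρA
        · exact absurd (hB.sub e he h2) hρB
        · exact Or.inr ⟨he, h2⟩
      · rintro (rfl | ⟨he, h2⟩)
        · exact ⟨Or.inl rfl, by simp⟩
        · exact ⟨Or.inr (Or.inr he), h2⟩
    have h2 : ({ρ, a, b} : Finset V) ∉ EC.filter (fun e => ρ ∈ e) := by
      intro h
      rw [Finset.mem_filter] at h
      have : a ∈ WC := hC.sub _ h.1 (by simp)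
      exact Finset.disjoint_left.1 hAC hA.root this
    rw [h1, Finset.card_insert_of_notMem h2, ← ihC]
    rfl

lemma Rep.embed {β : Type*} [DecidableEq β] {red : Finset β → Prop} {T : RT} {ρ : V}
    {W : Finset V} {E : Finset (Finset V)} (h : Rep T ρ W E) :
    ∀ (x : β) (X : Finset β), Emb red T x X → ∃ f : V → β, f ρ = x ∧
      (∀ a ∈ W, ∀ b ∈ W, f a = f b → a = b) ∧ (∀ w ∈ W, f w ∈ X) ∧ ∀ e ∈ E, red (e.image f) := by
  induction h with
  | nil ρ =>
    intro x X hX
    cases hX with
    | nil =>
      refine ⟨fun _ => x, rfl, ?_, ?_, ?_⟩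
      · intro a ha b hb _
        rw [Finset.mem_singleton] at ha hb
        rw [ha, hb]
      · intro w _; simp
      · intro e he; simp at he
  | @cons A B C ρ a b WA WB WC EA EB EC hA hB hC hAB hAC hBC ihA ihB ihC =>
    intro x X hX
    cases hX with
    | @cons _ _ _ _ y z XA XB XC hR eA eB eC dAB dAC dBC =>
      obtain ⟨fA, rA, iA, mA, gA⟩ := ihA y XA eA
      obtain ⟨fB, rB, iB, mB, gB⟩ := ihB z XB eB
      obtain ⟨fC, rC, iC, mC, gC⟩ := ihC x XC eC
      rw [Finset.disjoint_left] at hAB hAC hBC dAB dAC dBC
      let f : V → β := fun v => if v ∈ WA then fA v else if v ∈ WB then fB v else fC v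
      have fA' : ∀ v ∈ WA, f v = fA v := fun v hv => by simp only [f, if_pos hv]
      have fB' : ∀ v ∈ WB, f v = fB v := fun v hv => by
        have : v ∉ WA := fun h => hAB h hv
        simp only [f, if_neg this, if_pos hv]
      have fC' : ∀ v ∈ WC, f v = fC v := fun v hv => by
        have h1 : v ∉ WA := fun h => hAC h hv
        have h2 : v ∉ WB := fun h => hBC h hv
        simp only [f, if_neg h1, if_neg h2]
      refine ⟨f, ?_, ?_, ?_, ?_⟩
      · rw [fC' ρ hC.root, rC]
      · intro u hu v hv huv
        simp only [Finset.mem_union] at hu hv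
        rcases hu with (hu | hu) | hu <;> rcases hv with (hv | hv) | hv
        · rw [fA' u hu, fA' v hv] at huv; exact iA u hu v hv huv
        · rw [fA' u hu, fB' v hv] at huv
          exact absurd (mB v hv) (huv ▸ dAB (mA u hu))
        · rw [fA' u hu, fC' v hv] at huv
          exact absurd (mC v hv) (huv ▸ dAC (mA u hu))
        · rw [fB' u hu, fA' v hv] at huv
          exact absurd (mB u hu) (huv ▸ dAB (mA v hv))
        · rw [fB' u hu, fB' v hv] at huv; exact iB u hu v hv huv
        · rw [fB' u hu, fC' v hv] at huv
          exact absurd (mC v hv) (huv ▸ dBC (mB u hu))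
        · rw [fC' u hu, fA' v hv] at huv
          exact absurd (mC u hu) (huv ▸ dAC (mA v hv))
        · rw [fC' u hu, fB' v hv] at huv
          exact absurd (mC u hu) (huv ▸ dBC (mB v hv))
        · rw [fC' u hu, fC' v hv] at huv; exact iC u hu v hv huv
      · intro w hw
        simp only [Finset.mem_union] at hw ⊢
        rcases hw with (hw | hw) | hw
        · rw [fA' w hw]; exact Or.inl (Or.inl (mA w hw))
        · rw [fB' w hw]; exact Or.inl (Or.inr (mB w hw))
        · rw [fC' w hw]; exact Or.inr (mC w hw)
      · intro e he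
        simp only [Finset.mem_insert, Finset.mem_union] at he
        rcases he with rfl | (he | he) | he
        · have : ({ρ, a, b} : Finset V).image f = {x, y, z} := by
            simp only [Finset.image_insert, Finset.image_singleton]
            rw [fC' ρ hC.root, rC, fA' a hA.root, rA, fB' b hB.root, rB]
          rw [this]
          exact hR.2.2.2
        · have : e.image f = e.image fA := Finset.image_congr (fun v hv => fA' v (hA.sub e he hv))
          rw [this]; exact gA e he
        · have : e.image f = e.image fB := Finset.image_congr (fun v hv => fB' v (hB.sub e he hv))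
          rw [this]; exact gB e he
        · have : e.image f = e.image fC := Finset.image_congr (fun v hv => fC' v (hC.sub e he hv))
          rw [this]; exact gC e he

lemma Rep.addLeaf {T : RT} {ρ : V} {W : Finset V} {E : Finset (Finset V)} (h : Rep T ρ W E) :
    ∀ c ∈ W, ∀ u w, u ∉ W → w ∉ W → u ≠ w →
      ∃ T', Rep T' ρ (insert u (insert w W)) (insert {c, u, w} E) ∧ T'.e = T.e + 1 := by
  induction h with
  | nil ρ =>
    intro c hc u w hu hw huw
    rw [Finset.mem_singleton] at hc
    subst hc
    rw [Finset.mem_singleton] at hu hw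
    refine ⟨RT.cons RT.nil RT.nil RT.nil, ?_, rfl⟩
    have h1 : (insert u (insert w {c}) : Finset V) = {u} ∪ {w} ∪ {c} := by
      ext v; simp only [Finset.mem_insert, Finset.mem_union, Finset.mem_singleton]; tauto
    have h2 : (insert {c, u, w} ∅ : Finset (Finset V)) = insert {c, u, w} (∅ ∪ ∅ ∪ ∅) := by
      simp
    rw [h1, h2]
    exact Rep.cons (Rep.nil u) (Rep.nil w) (Rep.nil c) (by simpa using huw) (by simpa using hu)
      (by simpa using hw)
  | @cons A B C ρ a b WA WB WC EA EB EC hA hB hC hAB hAC hBC ihA ihB ihC =>
    intro c hc u w hu hw huw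
    simp only [Finset.mem_union, not_or] at hc hu hw
    obtain ⟨⟨uA, uB⟩, uC⟩ := hu
    obtain ⟨⟨wA, wB⟩, wC⟩ := hw
    have hins : ∀ {X Y : Finset V}, Disjoint X Y → u ∉ Y → w ∉ Y →
        Disjoint (insert u (insert w X)) Y := by
      intro X Y hd h1 h2
      rw [Finset.disjoint_insert_left, Finset.disjoint_insert_left]
      exact ⟨h1, h2, hd⟩
    rcases hc with (hc | hc) | hc
    · obtain ⟨A', hA', he⟩ := ihA c hc u w uA wA huw
      refine ⟨RT.cons A' B C, ?_, by simp only [RT.e, he]; ring⟩
      have h1 : insert u (insert w (WA ∪ WB ∪ WC)) = insert u (insert w WA) ∪ WB ∪ WC := by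
        simp only [Finset.insert_union]
      have h2 : insert {c, u, w} (insert {ρ, a, b} (EA ∪ EB ∪ EC)) =
          insert {ρ, a, b} (insert {c, u, w} EA ∪ EB ∪ EC) := by
        simp only [Finset.insert_union]
        rw [Finset.insert_comm]
      rw [h1, h2]
      exact Rep.cons hA' hB hC (hins hAB uB wB) (hins hAC uC wC) hBC
    · obtain ⟨B', hB', he⟩ := ihB c hc u w uB wB huw
      refine ⟨RT.cons A B' C, ?_, by simp only [RT.e, he]; ring⟩
      have h1 : insert u (insert w (WA ∪ WB ∪ WC)) = WA ∪ insert u (insert w WB) ∪ WC := by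
        simp only [Finset.insert_union, Finset.union_insert]
      have h2 : insert {c, u, w} (insert {ρ, a, b} (EA ∪ EB ∪ EC)) =
          insert {ρ, a, b} (EA ∪ insert {c, u, w} EB ∪ EC) := by
        simp only [Finset.insert_union, Finset.union_insert]
        rw [Finset.insert_comm]
      rw [h1, h2]
      exact Rep.cons hA hB' hC (hins hAB.symm uA wA).symm hAC (hins hBC uC wC)
    · obtain ⟨C', hC', he⟩ := ihC c hc u w uC wC huw
      refine ⟨RT.cons A B C', ?_, by simp only [RT.e, he]; ring⟩
      have h1 : insert u (insert w (WA ∪ WB ∪ WC)) = WA ∪ WB ∪ insert u (insert w WC) := by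
        simp only [Finset.union_insert]
      have h2 : insert {c, u, w} (insert {ρ, a, b} (EA ∪ EB ∪ EC)) =
          insert {ρ, a, b} (EA ∪ EB ∪ insert {c, u, w} EC) := by
        simp only [Finset.union_insert]
        rw [Finset.insert_comm]
      rw [h1, h2]
      exact Rep.cons hA hB hC' hAB (hins hAC.symm uA wA).symm (hins hBC.symm uB wB).symm

lemma LT.rep {W : Finset V} {E : Finset (Finset V)} (h : LT W E) :
    ∀ ρ ∈ W, ∃ T, Rep T ρ W E ∧ T.e = E.card := by
  induction h with
  | single v =>
    intro ρ hρ
    rw [Finset.mem_singleton] at hρ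
    subst hρ
    exact ⟨RT.nil, Rep.nil ρ, rfl⟩
  | @add W E c u w h hc hu hw huw ih =>
    have hn : ({c, u, w} : Finset V) ∉ E := fun he => hu (h.sub _ he (by simp))
    intro ρ hρ
    obtain ⟨T, hT, hTe⟩ := ih c hc
    rcases Finset.mem_insert.1 hρ with rfl | hρ
    · refine ⟨RT.cons T RT.nil RT.nil, ?_, ?_⟩
      · have h1 : (insert ρ (insert w W) : Finset V) = W ∪ {w} ∪ {ρ} := by
          ext v; simp only [Finset.mem_insert, Finset.mem_union, Finset.mem_singleton]; tauto
        have h2 : (insert {c, ρ, w} E : Finset (Finset V)) = insert {ρ, c, w} (E ∪ ∅ ∪ ∅) := by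
          rw [tri12]; simp
        rw [h1, h2]
        exact Rep.cons hT (Rep.nil w) (Rep.nil ρ) (by simpa using hw) (by simpa using hu)
          (by simpa using huw.symm)
      · rw [Finset.card_insert_of_notMem hn, ← hTe]
        simp only [RT.e]
    rcases Finset.mem_insert.1 hρ with rfl | hρ
    · refine ⟨RT.cons T RT.nil RT.nil, ?_, ?_⟩
      · have h1 : (insert u (insert ρ W) : Finset V) = W ∪ {u} ∪ {ρ} := by
          ext v; simp only [Finset.mem_insert, Finset.mem_union, Finset.mem_singleton]; tauto
        have h2 : (insert {c, u, ρ} E : Finset (Finset V)) = insert {ρ, c, u} (E ∪ ∅ ∪ ∅) := by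
          rw [tri23, tri12]; simp
        rw [h1, h2]
        exact Rep.cons hT (Rep.nil u) (Rep.nil ρ) (by simpa using hu) (by simpa using hw)
          (by simpa using huw)
      · rw [Finset.card_insert_of_notMem hn, ← hTe]
        simp only [RT.e]
    · obtain ⟨T', hT', hTe'⟩ := ih ρ hρ
      obtain ⟨T'', hT'', he⟩ := hT'.addLeaf c hc u w hu hw huw
      exact ⟨T'', hT'', by rw [he, hTe', Finset.card_insert_of_notMem hn]⟩

lemma RT.eq_nil_of_e : ∀ {T : RT}, T.e = 0 → T = RT.nil
  | RT.nil, _ => rfl
  | RT.cons A B C, h => by simp [RT.e] at h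

lemma eq_star_of_deg : ∀ T : RT, T.deg = T.e → T = star T.e
  | RT.nil, _ => rfl
  | RT.cons A B C, h => by
    have hC := C.deg_le
    simp only [RT.deg, RT.e] at h
    have hA : A = RT.nil := RT.eq_nil_of_e (by omega)
    have hB : B = RT.nil := RT.eq_nil_of_e (by omega)
    have ih := eq_star_of_deg C (by omega)
    subst hA hB
    simp only [RT.e, Nat.zero_add]
    rw [star]
    congr 1

/-- **Main embedding theorem.** -/
theorem LT.arrow {W : Finset V} {E : Finset (Finset V)} (h : LT W E) (hE : 2 ≤ E.card)
    {β : Type*} [DecidableEq β] {red : Finset β → Prop} {S : Finset β}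
    (hS : S.card = 4 * E.card + 1) (hF : ¬ HasFano red S) :
    ∃ f : V → β, (∀ a ∈ W, ∀ b ∈ W, f a = f b → a = b) ∧ (∀ w ∈ W, f w ∈ S) ∧
      ∀ e ∈ E, red (e.image f) := by
  classical
  have hconv : ∀ (T : RT) (ρ : V), Rep T ρ W E → (∃ x ∈ S, ∃ X ⊆ S, Emb red T x X) →
      ∃ f : V → β, (∀ a ∈ W, ∀ b ∈ W, f a = f b → a = b) ∧ (∀ w ∈ W, f w ∈ S) ∧
      ∀ e ∈ E, red (e.image f) := by
    rintro T ρ hT ⟨x, hx, X, hX, hE⟩
    obtain ⟨f, h1, h2, h3, h4⟩ := hT.embed x X hE
    exact ⟨f, h2, fun w hw => hX (h3 w hw), h4⟩
  rcases h.two_leaves with ⟨c, hc, hsun⟩ | ⟨e1, c1, e2, c2, hl1, hl2, hne, hcc⟩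
  · obtain ⟨T, hT, hTe⟩ := h.rep c hc
    have hdeg : T.deg = T.e := by
      rw [hT.deg, hTe, Finset.filter_true_of_mem hsun]
    have hst := eq_star_of_deg T hdeg
    apply hconv T c hT
    rw [hst, hTe]
    exact main_star hE hS hF
  · -- choose the leaf edge at the vertex of smaller degree
    have hm : 3 ≤ E.card := by
      by_contra hlt
      have hE2 : E = {e1, e2} := by
        symm
        apply Finset.eq_of_subset_of_card_le
        · intro e he
          simp only [Finset.mem_insert, Finset.mem_singleton] at he
          rcases he with rfl | rfl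
          · exact hl1.1
          · exact hl2.1
        · rw [Finset.card_pair hne]; omega
      obtain ⟨he1, x1, y1, hexy1, _, _, _, h4, h5⟩ := hl1
      obtain ⟨he2, x2, y2, hexy2, _, _, _, h4', h5'⟩ := hl2
      -- the two edges would be disjoint, contradicting connectedness
      have hdis : ∀ v ∈ e1, v ∈ e2 → False := by
        intro v hv hv'
        have q1 := hv
        have q2 := hv'
        rw [hexy1] at q1
        rw [hexy2] at q2
        simp only [Finset.mem_insert, Finset.mem_singleton] at q1 q2
        rcases q1 with e | e | e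
        · rcases q2 with e' | e' | e'
          · exact hcc (by rw [← e, ← e'])
          · exact hne (h4' e1 he1 (e' ▸ hv))
          · exact hne (h5' e1 he1 (e' ▸ hv))
        · exact hne (h4 e2 he2 (e ▸ hv')).symm
        · exact hne (h5 e2 he2 (e ▸ hv')).symm
      have hc1 := h.card
      have h6 : (e1 ∪ e2).card ≤ W.card := Finset.card_le_card
        (Finset.union_subset (h.sub e1 he1) (h.sub e2 he2))
      have h7 : (e1 ∪ e2).card = e1.card + e2.card :=
        Finset.card_union_of_disjoint (Finset.disjoint_left.2 hdis)
      have h8 : ∀ e ∈ E, e.card = 3 := by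
        intro e he
        obtain ⟨v, hv⟩ : e.Nonempty := by
          rw [hE2] at he
          simp only [Finset.mem_insert, Finset.mem_singleton] at he
          rcases he with rfl | rfl
          · exact ⟨c1, by rw [hexy1]; simp⟩
          · exact ⟨c2, by rw [hexy2]; simp⟩
        obtain ⟨x, y, hxy, a1, a2, a3⟩ := h.three e he v hv
        rw [hxy]
        exact Finset.card_eq_three.2 ⟨v, x, y, a1, a2, a3, rfl⟩
      rw [h7, h8 e1 he1, h8 e2 he2] at h6
      omega
    have hdsum : (E.filter (fun e => c1 ∈ e)).card + (E.filter (fun e => c2 ∈ e)).card ≤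
        E.card + 1 := by
      rw [← Finset.card_union_add_card_inter]
      have h1 : ((E.filter (fun e => c1 ∈ e)) ∪ (E.filter (fun e => c2 ∈ e))).card ≤ E.card :=
        Finset.card_le_card (Finset.union_subset (Finset.filter_subset _ _)
          (Finset.filter_subset _ _))
      have h2 : ((E.filter (fun e => c1 ∈ e)) ∩ (E.filter (fun e => c2 ∈ e))).card ≤ 1 := by
        rw [Finset.card_le_one]
        intro e he f hf
        simp only [Finset.mem_inter, Finset.mem_filter] at he hf
        by_contra hef
        exact hcc (h.linear e he.1.1 f hf.1.1 hef c1 he.1.2 c2 he.2.2 hf.1.2 hf.2.2)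
      omega
    have hgo : ∀ e c, Leaf E e c → 2 * (E.filter (fun e => c ∈ e)).card ≤ E.card + 1 →
        ∃ f : V → β, (∀ a ∈ W, ∀ b ∈ W, f a = f b → a = b) ∧ (∀ w ∈ W, f w ∈ S) ∧
      ∀ e ∈ E, red (e.image f) := by
      intro e c hl hd
      obtain ⟨he, x, y, hexy, h1, h2, h3, h4, h5⟩ := hl
      have hxe : x ∈ e := by rw [hexy]; simp
      have hye : y ∈ e := by rw [hexy]; simp
      have hce : c ∈ e := by rw [hexy]; simp
      have hLT := h.remove e he x hxe y hye h3 h4 h5
      have hcW : c ∈ (W.erase x).erase y := by
        simp only [Finset.mem_erase]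
        exact ⟨h2, h1, h.sub e he hce⟩
      obtain ⟨T', hT', hTe'⟩ := hLT.rep c hcW
      have hec : (E.erase e).card + 1 = E.card := by
        rw [Finset.card_erase_of_mem he]; omega
      have hdeg : T'.deg + 1 = (E.filter (fun e => c ∈ e)).card := by
        rw [hT'.deg]
        have h6 : (E.erase e).filter (fun e => c ∈ e) = (E.filter (fun e => c ∈ e)).erase e := by
          ext f; simp only [Finset.mem_filter, Finset.mem_erase]; tauto
        rw [h6, Finset.card_erase_of_mem (Finset.mem_filter.2 ⟨he, hce⟩)]
        have : 0 < (E.filter (fun e => c ∈ e)).card :=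
          Finset.card_pos.2 ⟨e, Finset.mem_filter.2 ⟨he, hce⟩⟩
        omega
      have hrep : Rep (RT.cons RT.nil RT.nil T') c W E := by
        have hmain : Rep (RT.cons RT.nil RT.nil T') c ({x} ∪ {y} ∪ ((W.erase x).erase y))
            (insert {c, x, y} (∅ ∪ ∅ ∪ E.erase e)) :=
          Rep.cons (Rep.nil x) (Rep.nil y) hT' (by simpa using h3) (by simp) (by simp)
        have e1 : W = {x} ∪ {y} ∪ ((W.erase x).erase y) := by
          ext v
          simp only [Finset.mem_union, Finset.mem_singleton, Finset.mem_erase]
          constructor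
          · intro hv; tauto
          · rintro ((rfl | rfl) | hv)
            · exact h.sub e he hxe
            · exact h.sub e he hye
            · exact hv.2.2
        have e2 : E = insert {c, x, y} (∅ ∪ ∅ ∪ E.erase e) := by
          rw [← hexy]
          simp only [Finset.empty_union]
          rw [Finset.insert_erase he]
        rw [← e1, ← e2] at hmain
        exact hmain
      apply hconv _ c hrep
      exact main_ns hm hS hF T' (by rw [hTe', hec]) (by omega)
    rcases le_total (E.filter (fun e => c1 ∈ e)).card (E.filter (fun e => c2 ∈ e)).card with hle | hle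
    · exact hgo e1 c1 hl1 (by omega)
    · exact hgo e2 c2 hl2 (by omega)

end Run7.h175
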