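import Pool.Agent.Run7.h175.Splus

/-!
# The double-centre lemma
-/

set_option linter.unusedSectionVars false

namespace Run7.h175

variable {α : Type*} [DecidableEq α] {red : Finset α → Prop}

lemma exists4 {s : Finset α} (h : 4 ≤ s.card) :
    ∃ p ∈ s, ∃ q ∈ s, ∃ r ∈ s, ∃ t ∈ s, p ≠ q ∧ p ≠ r ∧ p ≠ t ∧ q ≠ r ∧ q ≠ t ∧ r ≠ t := by
  obtain ⟨p, hp⟩ := Finset.card_pos.1 (by omega : 0 < s.card)
  have h3 : 2 < (s.erase p).card := by rw [Finset.card_erase_of_mem hp]; omega
  obtain ⟨q, hq, r, hr, t, ht, hqr, hqt, hrt⟩ := Finset.two_lt_card.1 h3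
  rw [Finset.mem_erase] at hq hr ht
  exact ⟨p, hp, q, hq.2, r, hr.2, t, ht.2, hq.1.symm, hr.1.symm, ht.1.symm, hqr, hqt, hrt⟩

/-- two vertices whose blue links both contain the complete graph on a common 4-set -/
lemma no_common4 {U : Finset α} (hPF : PF red U) {y z : α} (hy : y ∈ U) (hz : z ∈ U)
    (hyz : y ≠ z) {Q : Finset α} (hQ : Q ⊆ U) (h4 : 4 ≤ Q.card)
    (h1 : ∀ p ∈ Q, ∀ q ∈ Q, p ≠ q → Bl red y p q) (h2 : ∀ p ∈ Q, ∀ q ∈ Q, p ≠ q → Bl red z p q) :
    False := by
  obtain ⟨p, hp, q, hq, r, hr, t, ht, hpq, hpr, hpt, hqr, hqt, hrt⟩ := exists4 h4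
  exact hPF y hy z hz p (hQ hp) q (hQ hq) r (hQ hr) t (hQ ht) hyz hpr hqt (h1 p hp q hq hpq)
    (h2 q hq r hr hqr) (h1 r hr t ht hrt) (h2 t ht p hp hpt.symm)

lemma rd_symm (y : α) : ∀ a b, Rd red y a b → Rd red y b a := fun _ _ h => h.s23

/-- transfer of one petal from `y` to `z` -/
lemma step {U : Finset α} (hPF : PF red U) {y z : α} (hy : y ∈ U) (hz : z ∈ U)
    (hyz : y ≠ z) {C F : Finset α} (hC : PM (Rd red y) C) (hCU : C ⊆ U) (hFU : F ⊆ U)
    (hCF : Disjoint C F) (hFc : F.card = 3) (hyC : y ∉ C) (hyF : y ∉ F) (hzC : z ∉ C)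
    (hzF : z ∉ F) {j : ℕ} (hj : C.card = 2 * (j + 1)) {g1 g2 : α} (hg1 : g1 ∈ C ∪ F)
    (hg2 : g2 ∈ C ∪ F) (hg : Rd red z g1 g2) :
    ∃ g1' g2' C', g1' ∈ C ∪ F ∧ g2' ∈ C ∪ F ∧ Rd red z g1' g2' ∧ C' ⊆ C ∪ F ∧ g1' ∉ C' ∧
      g2' ∉ C' ∧ C'.card = 2 * j ∧ PM (Rd red y) C' := by
  rw [Finset.disjoint_left] at hCF
  rw [Finset.mem_union] at hg1 hg2
  have card2 : ∀ v ∈ C, ∀ w ∈ C, w ≠ v → ((C.erase v).erase w).card = 2 * j := by
    intro v hv w hw hwv
    rw [Finset.card_erase_of_mem (Finset.mem_erase.2 ⟨hwv, hw⟩), Finset.card_erase_of_mem hv, hj]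
    omega
  have sub2 : ∀ v w, (C.erase v).erase w ⊆ C ∪ F := by
    intro v w u hu
    simp only [Finset.mem_erase] at hu
    exact Finset.mem_union_left _ hu.2.2
  by_cases h1C : g1 ∈ C
  · obtain ⟨a1, ha1, ha1g, hG1, hP1⟩ := hC.partner (rd_symm y) g1 h1C
    by_cases h2C : g2 ∈ (C.erase g1).erase a1
    · obtain ⟨a2, ha2, ha2g, hG2, hP2⟩ := hP1.partner (rd_symm y) g2 h2C
      set C1 := (C.erase g1).erase a1 with hC1
      set C2 := (C1.erase g2).erase a2 with hC2
      have hc1 : C1.card = 2 * j := card2 g1 h1C a1 ha1 ha1g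
      have hc2 : C2.card + 2 = 2 * j := by
        rw [hC2, Finset.card_erase_of_mem (Finset.mem_erase.2 ⟨ha2g, ha2⟩),
          Finset.card_erase_of_mem h2C, hc1]
        have h3 : 0 < C1.card := Finset.card_pos.2 ⟨g2, h2C⟩
        have h4 : 1 < C1.card := Finset.one_lt_card.2 ⟨g2, h2C, a2, ha2, ha2g.symm⟩
        omega
      have g1C1 : g1 ∉ C1 := by simp [hC1]
      have a1C1 : a1 ∉ C1 := by simp [hC1]
      have C1C : ∀ v ∈ C1, v ∈ C := by
        intro v hv
        simp only [hC1, Finset.mem_erase] at hv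
        exact hv.2.2
      have C2C1 : ∀ v ∈ C2, v ∈ C1 := by
        intro v hv
        simp only [hC2, Finset.mem_erase] at hv
        exact hv.2.2
      set Q := insert a1 F with hQ
      have a1F : a1 ∉ F := fun h => hCF ha1 h
      have hQc : Q.card = 4 := by rw [hQ, Finset.card_insert_of_notMem a1F, hFc]
      have hQU : Q ⊆ U := by
        intro v hv
        rcases Finset.mem_insert.1 hv with rfl | hv
        · exact hCU ha1
        · exact hFU hv
      have hQCF : ∀ v ∈ Q, v ∈ C ∪ F := by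
        intro v hv
        rcases Finset.mem_insert.1 hv with rfl | hv
        · exact Finset.mem_union_left _ ha1
        · exact Finset.mem_union_right _ hv
      have hQC1 : ∀ v ∈ Q, v ∉ C1 := by
        intro v hv hv1
        rcases Finset.mem_insert.1 hv with rfl | hv
        · exact a1C1 hv1
        · exact hCF (C1C v hv1) hv
      have hQg1 : ∀ v ∈ Q, v ≠ g1 := by
        rintro v hv rfl
        rcases Finset.mem_insert.1 hv with h | hv
        · exact ha1g h.symm
        · exact hCF h1C hv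
      have hQy : ∀ v ∈ Q, y ≠ v := by
        rintro v hv rfl
        rcases Finset.mem_insert.1 hv with h | hv
        · exact hyC (h ▸ ha1)
        · exact hyF hv
      have hQz : ∀ v ∈ Q, z ≠ v := by
        rintro v hv rfl
        rcases Finset.mem_insert.1 hv with h | hv
        · exact hzC (h ▸ ha1)
        · exact hzF hv
      by_cases hy1 : ∃ p ∈ Q, ∃ q ∈ Q, Rd red y p q
      · obtain ⟨p, hp, q, hq, hpq⟩ := hy1
        have hpC2 : p ∉ C2 := fun h => hQC1 p hp (C2C1 p h)
        have hqC2 : q ∉ C2 := fun h => hQC1 q hq (C2C1 q h)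
        refine ⟨g1, g2, insert p (insert q C2), Finset.mem_union_left _ h1C,
          Finset.mem_union_left _ (C1C _ h2C), hg, ?_, ?_, ?_, ?_,
          PM.cons hpC2 hqC2 hpq.2.2.1 hpq hP2⟩
        · intro v hv
          rcases Finset.mem_insert.1 hv with rfl | hv
          · exact hQCF _ hp
          rcases Finset.mem_insert.1 hv with rfl | hv
          · exact hQCF _ hq
          · exact Finset.mem_union_left _ (C1C _ (C2C1 _ hv))
        · intro hv
          rcases Finset.mem_insert.1 hv with h | hv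
          · exact hQg1 p hp h.symm
          rcases Finset.mem_insert.1 hv with h | hv
          · exact hQg1 q hq h.symm
          · exact g1C1 (C2C1 _ hv)
        · intro hv
          rcases Finset.mem_insert.1 hv with h | hv
          · exact hQC1 p hp (h ▸ h2C)
          rcases Finset.mem_insert.1 hv with h | hv
          · exact hQC1 q hq (h ▸ h2C)
          · simp [hC2] at hv
        · rw [card_ins2 hpC2 hqC2 hpq.2.2.1, hc2]
      · by_cases hz1 : ∃ p ∈ Q, ∃ q ∈ Q, Rd red z p q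
        · obtain ⟨p, hp, q, hq, hpq⟩ := hz1
          exact ⟨p, q, C1, hQCF p hp, hQCF q hq, hpq, sub2 _ _, hQC1 p hp, hQC1 q hq, hc1, hP1⟩
        · exfalso
          push Not at hy1 hz1
          refine no_common4 hPF hy hz hyz hQU (by omega) ?_ ?_
          · intro p hp q hq hpq
            exact bl_of_not_rd (hQy p hp) (hQy q hq) hpq (hy1 p hp q hq)
          · intro p hp q hq hpq
            exact bl_of_not_rd (hQz p hp) (hQz q hq) hpq (hz1 p hp q hq)
    · refine ⟨g1, g2, (C.erase g1).erase a1, Finset.mem_union_left _ h1C,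
        Finset.mem_union.2 hg2, hg, sub2 _ _, by simp, h2C, card2 g1 h1C a1 ha1 ha1g, hP1⟩
  · by_cases h2C : g2 ∈ C
    · obtain ⟨a2, ha2, ha2g, hG2, hP2⟩ := hC.partner (rd_symm y) g2 h2C
      exact ⟨g1, g2, (C.erase g2).erase a2, Finset.mem_union.2 hg1,
        Finset.mem_union_left _ h2C, hg, sub2 _ _, by simp [h1C], by simp,
        card2 g2 h2C a2 ha2 ha2g, hP2⟩
    · obtain ⟨v, hv⟩ := Finset.card_pos.1 (by omega : 0 < C.card)
      obtain ⟨a, ha, hav, hG, hP⟩ := hC.partner (rd_symm y) v hv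
      exact ⟨g1, g2, (C.erase v).erase a, Finset.mem_union.2 hg1,
        Finset.mem_union.2 hg2, hg, sub2 _ _, by simp [h1C], by simp [h2C],
        card2 v hv a ha hav, hP⟩

/-- repeated transfer -/
lemma transfer {U : Finset α} (hPF : PF red U) {y z : α} (hy : y ∈ U) (hz : z ∈ U)
    (hyz : y ≠ z) {W : Finset α} (hWU : W ⊆ U) (hyW : y ∉ W) (hzW : z ∉ W) {h k : ℕ}
    (hk : h ≤ 2 * k) (hkh : k ≤ h) (hWc : W.card = 2 * h + 3) (hM : HasM (Rd red y) W h)
    (hcl : ∀ P ⊆ W, h + 5 ≤ P.card → ∃ a ∈ P, ∃ b ∈ P, Rd red z a b) :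
    ∀ i, i + k ≤ h → ∃ C D, C ⊆ W ∧ D ⊆ W ∧ Disjoint C D ∧ C.card = 2 * (h - i) ∧
      D.card = 2 * i ∧ PM (Rd red y) C ∧ PM (Rd red z) D := by
  intro i
  induction i with
  | zero =>
    intro _
    obtain ⟨C, hC, hc, hP⟩ := hM
    exact ⟨C, ∅, hC, by simp, by simp, by simpa using hc, by simp, hP, PM.nil⟩
  | succ i ih =>
    intro hi
    obtain ⟨C, D, hCW, hDW, hCD, hCc, hDc, hPC, hPD⟩ := ih (by omega)
    have hWD : (W \ D).card = 2 * (h - i) + 3 := by
      rw [Finset.card_sdiff_of_subset hDW, hWc, hDc]; omega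
    obtain ⟨g1, hg1, g2, hg2, hg⟩ := hcl (W \ D) Finset.sdiff_subset (by omega)
    have hCWD : C ⊆ W \ D := by
      intro v hv
      exact Finset.mem_sdiff.2 ⟨hCW hv, fun hd => Finset.disjoint_left.1 hCD hv hd⟩
    set F := (W \ D) \ C with hF
    have hFc : F.card = 3 := by
      rw [hF, Finset.card_sdiff_of_subset hCWD, hWD, hCc]; omega
    have hCFe : C ∪ F = W \ D := by
      rw [hF]
      exact Finset.union_sdiff_of_subset hCWD
    have hCF : Disjoint C F := Finset.disjoint_sdiff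
    have hFW : F ⊆ W := by
      intro v hv
      rw [hF] at hv
      exact (Finset.mem_sdiff.1 (Finset.mem_sdiff.1 hv).1).1
    obtain ⟨g1', g2', C', h1, h2, h3, h4, h5, h6, h7, h8⟩ :=
      step hPF hy hz hyz hPC (hCW.trans hWU) (hFW.trans hWU) hCF hFc (fun h => hyW (hCW h))
        (fun h => hyW (hFW h)) (fun h => hzW (hCW h)) (fun h => hzW (hFW h))
        (j := h - i - 1) (by rw [hCc]; omega) (g1 := g1) (g2 := g2) (by rw [hCFe]; exact hg1)
        (by rw [hCFe]; exact hg2) hg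
    rw [hCFe] at h1 h2 h4
    rw [Finset.mem_sdiff] at h1 h2
    refine ⟨C', insert g1' (insert g2' D), ?_, ?_, ?_, ?_, ?_, h8,
      PM.cons h1.2 h2.2 h3.2.2.1 h3 hPD⟩
    · exact h4.trans Finset.sdiff_subset
    · intro v hv
      rcases Finset.mem_insert.1 hv with rfl | hv
      · exact h1.1
      rcases Finset.mem_insert.1 hv with rfl | hv
      · exact h2.1
      · exact hDW hv
    · rw [Finset.disjoint_left]
      intro v hv hv'
      rcases Finset.mem_insert.1 hv' with rfl | hv'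
      · exact h5 hv
      rcases Finset.mem_insert.1 hv' with rfl | hv'
      · exact h6 hv
      · exact (Finset.mem_sdiff.1 (h4 hv)).2 hv'
    · rw [h7]; omega
    · rw [card_ins2 h1.2 h2.2 h3.2.2.1, hDc]; ring

/-- re-routing a matching of the link of `y` so that one edge contains `x` -/
lemma center {y x : α} {T : Finset α} {h : ℕ} (hM : HasM (Rd red y) T (h + 1))
    (hz : ∃ z ∈ T, Rd red x y z) :
    ∃ z ∈ T, Rd red x y z ∧ HasM (Rd red y) ((T.erase x).erase z) h := by
  obtain ⟨C, hC, hc, hP⟩ := hM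
  by_cases hx : x ∈ C
  · obtain ⟨w, hw, hwx, hG, hP'⟩ := hP.partner (rd_symm y) x hx
    refine ⟨w, hC hw, hG.s12, (C.erase x).erase w, ?_, ?_, hP'⟩
    · intro v hv
      simp only [Finset.mem_erase] at hv ⊢
      exact ⟨hv.1, hv.2.1, hC hv.2.2⟩
    · rw [Finset.card_erase_of_mem (Finset.mem_erase.2 ⟨hwx, hw⟩), Finset.card_erase_of_mem hx, hc]
      omega
  · obtain ⟨z, hzT, hR⟩ := hz
    refine ⟨z, hzT, hR, ?_⟩
    by_cases hzC : z ∈ C
    · obtain ⟨w, hw, hwz, hG, hP'⟩ := hP.partner (rd_symm y) z hzC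
      refine ⟨(C.erase z).erase w, ?_, ?_, hP'⟩
      · intro v hv
        simp only [Finset.mem_erase] at hv ⊢
        exact ⟨hv.2.1, fun e => hx (e ▸ hv.2.2), hC hv.2.2⟩
      · rw [Finset.card_erase_of_mem (Finset.mem_erase.2 ⟨hwz, hw⟩), Finset.card_erase_of_mem hzC,
          hc]
        omega
    · obtain ⟨D, hD, hDc, hPD⟩ := hP.sub h (h + 1) hc (by omega)
      refine ⟨D, ?_, hDc, hPD⟩
      intro v hv
      simp only [Finset.mem_erase]
      exact ⟨fun e => hzC (e ▸ hD hv), fun e => hx (e ▸ hD hv), hC (hD hv)⟩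

/-- choice of the centre and of its neighbour -/
lemma choose_pair {Z : Finset α} {h : ℕ} (hZ : Z.card = 2 * h + 6) (hPF : PF red Z) {x : α}
    (hx : x ∈ Z) (hR : ∃ y ∈ Z, ∃ z ∈ Z, Rd red x y z) :
    ∃ y ∈ Z, ∃ z ∈ Z, Rd red x y z ∧ HasM (Rd red y) (((Z.erase x).erase y).erase z) h ∧
      ∀ P ⊆ Z.erase z, h + 5 ≤ P.card → ∃ a ∈ P, ∃ b ∈ P, Rd red z a b := by
  classical
  have hins : ∀ {b : α} {P : Finset α}, P ⊆ Z.erase b → ∀ v ∈ P, v ∈ Z := by
    intro b P hP v hv
    exact (Finset.mem_erase.1 (hP hv)).2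
  -- at most one vertex has a large blue link clique
  have huniq : ∀ b ∈ Z, ∀ z ∈ Z, b ≠ z → ∀ P ⊆ Z.erase b, ∀ P' ⊆ Z.erase z, h + 5 ≤ P.card →
      h + 5 ≤ P'.card → (∀ a ∈ P, ∀ a' ∈ P, ¬ Rd red b a a') →
      (∀ a ∈ P', ∀ a' ∈ P', ¬ Rd red z a a') → False := by
    intro b hb z hz hbz P hP P' hP' hc hc' h1 h2
    have h3 : (P ∪ P').card ≤ Z.card := Finset.card_le_card (by
      intro v hv
      rcases Finset.mem_union.1 hv with hv | hv
      · exact hins hP v hv
      · exact hins hP' v hv)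
    have h4 := Finset.card_union_add_card_inter P P'
    refine no_common4 hPF hb hz hbz (Q := P ∩ P') ?_ (by omega) ?_ ?_
    · intro v hv
      exact hins hP v (Finset.mem_inter.1 hv).1
    · intro p hp q hq hpq
      rw [Finset.mem_inter] at hp hq
      exact bl_of_not_rd (Finset.mem_erase.1 (hP hp.1)).1.symm
        (Finset.mem_erase.1 (hP hq.1)).1.symm hpq (h1 p hp.1 q hq.1)
    · intro p hp q hq hpq
      rw [Finset.mem_inter] at hp hq
      exact bl_of_not_rd (Finset.mem_erase.1 (hP' hp.2)).1.symm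
        (Finset.mem_erase.1 (hP' hq.2)).1.symm hpq (h2 p hp.2 q hq.2)
  by_cases hbad : ∃ b ∈ Z, b ≠ x ∧ ∃ P ⊆ Z.erase b, h + 5 ≤ P.card ∧
      ∀ a ∈ P, ∀ a' ∈ P, ¬ Rd red b a a'
  · obtain ⟨b, hb, hbx, P, hP, hPc, hPb⟩ := hbad
    have hbP : b ∉ P := fun h => (Finset.mem_erase.1 (hP h)).1 rfl
    have hBl : ∀ p ∈ P, ∀ q ∈ P, p ≠ q → Bl red b p q := by
      intro p hp q hq hpq
      exact bl_of_not_rd (Finset.mem_erase.1 (hP hp)).1.symm
        (Finset.mem_erase.1 (hP hq)).1.symm hpq (hPb p hp q hq)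
    set Q := P.erase x with hQ
    have hQc : h + 4 ≤ Q.card := by
      have : P.card - 1 ≤ Q.card := Finset.pred_card_le_card_erase
      omega
    have hQm : ∀ v ∈ Q, v ∈ P ∧ v ≠ x := by
      intro v hv
      rw [hQ, Finset.mem_erase] at hv
      exact ⟨hv.2, hv.1⟩
    set Cd := Q.filter (fun y => ∃ z ∈ Z.erase b, Rd red x y z) with hCd
    have hnon : (Q.filter (fun y => ¬ ∃ z ∈ Z.erase b, Rd red x y z)).card ≤ 1 := by
      by_contra hcon
      obtain ⟨y1, hy1, y2, hy2, hy12⟩ := Finset.one_lt_card.1 (not_le.1 hcon)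
      rw [Finset.mem_filter] at hy1 hy2
      push Not at hy1 hy2
      have h2 : 1 < ((Q.erase y1).erase y2).card := by
        rw [Finset.card_erase_of_mem (Finset.mem_erase.2 ⟨hy12.symm, hy2.1⟩),
          Finset.card_erase_of_mem hy1.1]
        omega
      obtain ⟨z, hz, z', hz', hzz⟩ := Finset.one_lt_card.1 h2
      simp only [Finset.mem_erase] at hz hz'
      have e1 := hQm z hz.2.2
      have e2 := hQm z' hz'.2.2
      have e3 := hQm y1 hy1.1
      have e4 := hQm y2 hy2.1
      refine hPF x hx b hb y1 (hins hP _ e3.1) z (hins hP _ e1.1) y2 (hins hP _ e4.1) z'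
        (hins hP _ e2.1) hbx.symm hy12 hzz ?_ (hBl z e1.1 y2 e4.1 hz.1) ?_
        (hBl z' e2.1 y1 e3.1 hz'.2.1)
      · exact bl_of_not_rd e3.2.symm e1.2.symm hz.2.1.symm (hy1.2 z (hP e1.1))
      · exact bl_of_not_rd e4.2.symm e2.2.symm hz'.1.symm (hy2.2 z' (hP e2.1))
    have hCdc : h + 3 ≤ Cd.card := by
      have h5 : Cd.card + (Q.filter (fun y => ¬ ∃ z ∈ Z.erase b, Rd red x y z)).card = Q.card := by
        rw [hCd]
        exact Finset.card_filter_add_card_filter_not _
      omega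
    have hCdm : ∀ y ∈ Cd, y ∈ P ∧ y ≠ x ∧ y ∈ Z ∧ y ≠ b ∧ ∃ z ∈ Z.erase b, Rd red x y z := by
      intro y hy
      rw [hCd, Finset.mem_filter] at hy
      obtain ⟨h1, h2⟩ := hQm y hy.1
      exact ⟨h1, h2, hins hP y h1, fun e => hbP (e ▸ h1), hy.2⟩
    have hgood : ∃ y ∈ Cd, HasM (Rd red y) ((Z.erase b).erase y) (h + 1) := by
      by_contra hcon
      push Not at hcon
      have hTc : ∀ y ∈ Cd, ((Z.erase b).erase y).card = 2 * h + 4 := by
        intro y hy
        obtain ⟨h1, h2, h3, h4, h5⟩ := hCdm y hy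
        rw [Finset.card_erase_of_mem (Finset.mem_erase.2 ⟨h4, h3⟩), Finset.card_erase_of_mem hb, hZ]
        omega
      have hst : ∀ y ∈ Cd, ∃ A lab, Struct red y ((Z.erase b).erase y) A lab 4 := by
        intro y hy
        refine exists_struct (Finset.notMem_erase y _) (k := h + 1) (l := 2) ?_ (hcon y hy)
        rw [hTc y hy]; ring
      choose! A lab hAl using hst
      have hcard : ∀ y ∈ Cd, (A y).card < h := by
        intro y hy
        obtain ⟨g1, g2, g3, g4, g5⟩ := hCdm y hy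
        have h1 := struct_size (hAl y hy)
        rw [hTc y hy] at h1
        rcases Nat.lt_or_ge (A y).card h with hlt | hge
        · exact hlt
        exfalso
        have hAh : (A y).card = h := by omega
        set T := (Z.erase b).erase y with hT
        have hTA : (T \ A y).card = h + 4 := by
          rw [Finset.card_sdiff_of_subset (hAl y hy).1, hTc y hy]; omega
        have hi : Set.InjOn (lab y) ((T \ A y : Finset α) : Set α) := by
          apply Finset.injOn_of_card_image_eq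
          apply le_antisymm Finset.card_image_le
          have h6 : (A y).card + 4 ≤ ((T \ A y).image (lab y)).card := (hAl y hy).2.2
          omega
        have hPT : P.erase y ⊆ T := by
          intro v hv
          rw [Finset.mem_erase] at hv
          simp only [hT, Finset.mem_erase]
          exact ⟨hv.1, fun e => hbP (e ▸ hv.2), hins hP v hv.2⟩
        have hPe : (P.erase y).card = P.card - 1 := Finset.card_erase_of_mem g1
        have h3 : ((P.erase y) ∪ (T \ A y)).card ≤ T.card := Finset.card_le_card (by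
          intro v hv
          rcases Finset.mem_union.1 hv with hv | hv
          · exact hPT hv
          · exact (Finset.mem_sdiff.1 hv).1)
        have h4 := Finset.card_union_add_card_inter (P.erase y) (T \ A y)
        have hTc' : T.card = 2 * h + 4 := hTc y hy
        refine no_common4 hPF g3 hb g4 (Q := (P.erase y) ∩ (T \ A y)) ?_ (by omega) ?_ ?_
        · intro v hv
          exact hins hP v (Finset.mem_erase.1 (Finset.mem_inter.1 hv).1).2
        · intro p hp q hq hpq
          rw [Finset.mem_inter] at hp hq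
          exact (hAl y hy).2.1 p hp.2 q hq.2
            (fun e => hpq (hi (Finset.mem_coe.2 hp.2) (Finset.mem_coe.2 hq.2) e))
        · intro p hp q hq hpq
          rw [Finset.mem_inter] at hp hq
          exact hBl p (Finset.mem_erase.1 hp.1).2 q (Finset.mem_erase.1 hq.1).2 hpq
      have hPFb : PF red (Z.erase b) := hPF.mono (Finset.erase_subset _ _)
      have hinj : Set.InjOn (fun y => (A y).card) (Cd : Set α) := by
        intro y hy y' hy' he
        by_contra hne
        have hy1 : y ∈ Cd := hy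
        have hy2 : y' ∈ Cd := hy'
        obtain ⟨f1, f2, f3, f4, f5⟩ := hCdm y hy1
        obtain ⟨g1, g2, g3, g4, g5⟩ := hCdm y' hy2
        refine inj_struct hPFb (Finset.mem_erase.2 ⟨f4, f3⟩) (Finset.mem_erase.2 ⟨g4, g3⟩) hne
          (n := 4) (s := (A y).card) (by omega) (hAl y hy1) (hAl y' hy2) rfl he.symm ?_
        have := hcard y hy1
        rw [Finset.card_erase_of_mem hb, hZ]
        omega
      have : Cd.card ≤ (Finset.range h).card := by
        apply Finset.card_le_card_of_injOn (fun y => (A y).card)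
        · intro y hy
          have := hcard y hy
          simp only [Finset.coe_range, Set.mem_Iio]
          exact this
        · exact hinj
      rw [Finset.card_range] at this
      omega
    obtain ⟨y, hy, hM⟩ := hgood
    obtain ⟨g1, g2, g3, g4, z0, hz0, hR0⟩ := hCdm y hy
    obtain ⟨z, hz, hRz, hMz⟩ := center hM ⟨z0, by
      rw [Finset.mem_erase]
      exact ⟨fun e => hR0.2.2.1 e.symm, hz0⟩, hR0⟩
    simp only [Finset.mem_erase] at hz
    refine ⟨y, g3, z, hz.2.2, hRz, hMz.mono ?_ le_rfl, ?_⟩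
    · intro v hv
      simp only [Finset.mem_erase] at hv ⊢
      exact ⟨hv.1, hv.2.2.1, hv.2.1, hv.2.2.2.2⟩
    · intro P' hP' hc'
      by_contra hcon
      push Not at hcon
      exact huniq b hb z hz.2.2 (fun e => hz.2.1 e.symm) P hP P' hP' hPc hc' hPb hcon
  · push Not at hbad
    obtain ⟨y, hy, ⟨z0, hz0, hR0⟩, hM⟩ := splus hZ hPF hx hR
    obtain ⟨z, hz, hRz, hMz⟩ := center hM ⟨z0, by
      rw [Finset.mem_erase]
      exact ⟨fun e => hR0.2.2.1 e.symm, hz0⟩, hR0⟩
    simp only [Finset.mem_erase] at hz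
    refine ⟨y, hy, z, hz.2, hRz, hMz.mono ?_ le_rfl, ?_⟩
    · intro v hv
      simp only [Finset.mem_erase] at hv ⊢
      exact ⟨hv.1, hv.2.2.1, hv.2.1, hv.2.2.2⟩
    · intro P' hP' hc'
      exact hbad z hz.2 (fun e => hRz.2.1 e.symm) P' hP' hc'

/-- The double-centre lemma. -/
theorem d3 {Z : Finset α} {h k l : ℕ} (hkl : k + l = h) (hlk : l ≤ k)
    (hZ : Z.card = 2 * h + 6) (hPF : PF red Z) {x : α}
    (hx : x ∈ Z) (hR : ∃ y ∈ Z, ∃ z ∈ Z, Rd red x y z) :
    ∃ y ∈ Z, ∃ z ∈ Z, Rd red x y z ∧ ∃ C D, C ⊆ ((Z.erase x).erase y).erase z ∧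
      D ⊆ ((Z.erase x).erase y).erase z ∧ Disjoint C D ∧ C.card = 2 * k ∧ D.card = 2 * l ∧
      PM (Rd red y) C ∧ PM (Rd red z) D := by
  obtain ⟨y, hy, z, hz, hRz, hM, hcl⟩ := choose_pair hZ hPF hx hR
  refine ⟨y, hy, z, hz, hRz, ?_⟩
  set W := ((Z.erase x).erase y).erase z with hW
  have hWZ : W ⊆ Z := by
    intro v hv
    simp only [hW, Finset.mem_erase] at hv
    exact hv.2.2.2
  have hWc : W.card = 2 * h + 3 := by
    rw [hW, Finset.card_erase_of_mem, Finset.card_erase_of_mem, Finset.card_erase_of_mem hx, hZ]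
    · omega
    · exact Finset.mem_erase.2 ⟨hRz.1.symm, hy⟩
    · simp only [Finset.mem_erase]
      exact ⟨hRz.2.2.1.symm, hRz.2.1.symm, hz⟩
  obtain ⟨C, D, hC, hD, hCD, hCc, hDc, hPC, hPD⟩ :=
    transfer hPF hy hz hRz.2.2.1 hWZ (by simp [hW]) (by simp [hW]) (h := h) (k := k)
      (by omega) (by omega) hWc hM (by
        intro P hP hc
        refine hcl P ?_ hc
        intro v hv
        have := hP hv
        simp only [hW, Finset.mem_erase] at this
        exact Finset.mem_erase.2 ⟨this.1, this.2.2.2⟩) l (by omega)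
  refine ⟨C, D, hC, hD, hCD, ?_, hDc, hPC, hPD⟩
  rw [hCc]
  omega

end Run7.h175
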