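import Pool.Agent.Run7.h175.Bridge

/-!
# Forests, their structure and the Ramsey statement for them
-/

set_option linter.unusedSectionVars false

namespace Run7.h175

variable {V : Type*} [DecidableEq V]

/-- the vertex–edge incidence graph (Levi graph) of a hypergraph with edge set `E` -/
def levi (E : Finset (Finset V)) : SimpleGraph (V ⊕ {e : Finset V // e ∈ E}) where
  Adj x y := ∃ (v : V) (e : {e : Finset V // e ∈ E}), v ∈ e.1 ∧
    ((x = Sum.inl v ∧ y = Sum.inr e) ∨ (x = Sum.inr e ∧ y = Sum.inl v))
  symm := by
    constructor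
    rintro x y ⟨v, e, h, h' | h'⟩
    · exact ⟨v, e, h, Or.inr ⟨h'.2, h'.1⟩⟩
    · exact ⟨v, e, h, Or.inl ⟨h'.2, h'.1⟩⟩
  loopless := by
    constructor
    rintro x ⟨v, e, h, ⟨h1, h2⟩ | ⟨h1, h2⟩⟩
    · rw [h1] at h2; exact absurd h2 (by simp)
    · rw [h1] at h2; exact absurd h2 (by simp)

/-- every nonempty set of edges covers at least `2k+1` vertices -/
def NC (E : Finset (Finset V)) : Prop :=
  ∀ E' ⊆ E, E'.Nonempty → 2 * E'.card + 1 ≤ (E'.biUnion id).card

lemma NC.mono {E E' : Finset (Finset V)} (h : NC E) (hs : E' ⊆ E) : NC E' :=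
  fun E'' hE'' hn => h E'' (hE''.trans hs) hn

/-- `(W, E)` cannot be split -/
def Conn (W : Finset V) (E : Finset (Finset V)) : Prop :=
  ∀ A ⊆ W, A.Nonempty → (∀ e ∈ E, e ⊆ A ∨ Disjoint e A) → A = W


/-- an acyclic incidence graph has few edges everywhere -/
lemma NC_of_acyclic {E : Finset (Finset V)} (h3 : ∀ e ∈ E, e.card = 3)
    (hac : (levi E).IsAcyclic) : NC E := by
  classical
  intro E' hE' hne
  let X : Finset V := E'.biUnion id
  let φ : ({x // x ∈ X} ⊕ {e // e ∈ E'}) ↪ V ⊕ {e : Finset V // e ∈ E} :=
    ⟨Sum.map Subtype.val (fun e => ⟨e.1, hE' e.2⟩), by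
      apply Function.Injective.sumMap Subtype.val_injective
      intro a b hab
      apply Subtype.ext
      exact congrArg (fun z : {e : Finset V // e ∈ E} => z.1) hab⟩
  let G' : SimpleGraph ({x // x ∈ X} ⊕ {e // e ∈ E'}) := (levi E).comap φ
  have hG' : G'.IsAcyclic := hac.of_comap φ
  obtain ⟨e0, he0⟩ := hne
  have : Nonempty ({x // x ∈ X} ⊕ {e // e ∈ E'}) := ⟨Sum.inr ⟨e0, he0⟩⟩
  obtain ⟨F, hGF, -, hF⟩ :=
    SimpleGraph.Connected.exists_isTree_le_of_le_of_isAcyclic
      (SimpleGraph.connected_top (V := {x // x ∈ X} ⊕ {e // e ∈ E'})) le_top hG'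
  have hcard := hF.card_edgeFinset
  rw [Fintype.card_sum, Fintype.card_coe, Fintype.card_coe] at hcard
  have hsig : (E'.attach.sigma (fun e => e.1.attach)).card = 3 * E'.card := by
    rw [Finset.card_sigma]
    simp only [Finset.card_attach]
    rw [Finset.sum_attach E' (fun e => e.card), Finset.sum_const_nat (m := 3)]
    · ring
    · intro e he; exact h3 e (hE' he)
  have hle : (E'.attach.sigma (fun e => e.1.attach)).card ≤ F.edgeFinset.card := by
    apply Finset.card_le_card_of_injOn
      (fun p => s(Sum.inl ⟨p.2.1, Finset.mem_biUnion.2 ⟨p.1.1, p.1.2, p.2.2⟩⟩, Sum.inr p.1))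
    · rintro ⟨e, v⟩ _
      simp only [SimpleGraph.coe_edgeFinset, SimpleGraph.mem_edgeSet]
      apply hGF
      exact ⟨v.1, ⟨e.1, hE' e.2⟩, v.2, Or.inl ⟨rfl, rfl⟩⟩
    · rintro ⟨e, v⟩ _ ⟨e', v'⟩ _ heq
      simp only [Sym2.eq_iff] at heq
      rcases heq with ⟨h1, h2⟩ | ⟨h1, h2⟩
      · have h2' : e = e' := Sum.inr_injective h2
        subst h2'
        have h1' := Sum.inl_injective h1
        have h1'' : v.1 = v'.1 := congrArg (fun z : {x // x ∈ X} => z.1) h1'
        have : v = v' := Subtype.ext h1''
        subst this
        rfl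
      · exact absurd h1 (by simp)
  have : X.card = (E'.biUnion id).card := rfl
  omega


lemma Conn_of_connected [Fintype V] {E : Finset (Finset V)} (hc : (levi E).Connected) :
    Conn (Finset.univ : Finset V) E := by
  intro A _ hA hcl
  obtain ⟨a, ha⟩ := hA
  let P : V ⊕ {e : Finset V // e ∈ E} → Prop := Sum.elim (fun v => v ∈ A) (fun e => e.1 ⊆ A)
  have hstep : ∀ x y, (levi E).Adj x y → P x → P y := by
    rintro x y ⟨v, e, hve, ⟨rfl, rfl⟩ | ⟨rfl, rfl⟩⟩ hx
    · rcases hcl e.1 e.2 with h | h
      · exact h
      · exact absurd hx (Finset.disjoint_left.1 h hve)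
    · exact hx hve
  have hreach : ∀ x y, (levi E).Reachable x y → P x → P y := by
    rintro x y ⟨p⟩ hx
    induction p with
    | nil => exact hx
    | cons hadj _ ih => exact ih (hstep _ _ hadj hx)
  ext v
  constructor
  · intro _; exact Finset.mem_univ v
  · intro _; exact hreach (Sum.inl a) (Sum.inl v) (hc.preconnected _ _) ha

lemma connected_of_Conn [Fintype V] [Nonempty V] {E : Finset (Finset V)}
    (h3 : ∀ e ∈ E, e.card = 3)
    (hc : Conn (Finset.univ : Finset V) E) : (levi E).Connected := by
  classical
  obtain ⟨a⟩ := ‹Nonempty V›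
  let A : Finset V := Finset.univ.filter (fun v => (levi E).Reachable (Sum.inl a) (Sum.inl v))
  have hA : A = Finset.univ := by
    apply hc A (Finset.subset_univ _) ⟨a, by simp [A]⟩
    intro e he
    by_cases hd : Disjoint e A
    · exact Or.inr hd
    · left
      rw [Finset.not_disjoint_iff] at hd
      obtain ⟨v, hv, hvA⟩ := hd
      intro w hw
      simp only [A, Finset.mem_filter, Finset.mem_univ, true_and] at hvA ⊢
      have h1 : (levi E).Adj (Sum.inl v) (Sum.inr ⟨e, he⟩) := ⟨v, ⟨e, he⟩, hv, Or.inl ⟨rfl, rfl⟩⟩
      have h2 : (levi E).Adj (Sum.inr ⟨e, he⟩) (Sum.inl w) := ⟨w, ⟨e, he⟩, hw, Or.inr ⟨rfl, rfl⟩⟩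
      exact (hvA.trans h1.reachable).trans h2.reachable
  have hv : ∀ v, (levi E).Reachable (Sum.inl a) (Sum.inl v) := by
    intro v
    have : v ∈ A := by rw [hA]; exact Finset.mem_univ v
    simpa [A] using this
  have hall : ∀ x, (levi E).Reachable (Sum.inl a) x := by
    rintro (v | ⟨e, he⟩)
    · exact hv v
    · obtain ⟨v, hve⟩ : e.Nonempty := by rw [← Finset.card_pos, h3 e he]; norm_num
      have h1 : (levi E).Adj (Sum.inl v) (Sum.inr ⟨e, he⟩) := ⟨v, ⟨e, he⟩, hve, Or.inl ⟨rfl, rfl⟩⟩
      exact (hv v).trans h1.reachable
  exact SimpleGraph.Connected.mk (fun x y => (hall x).symm.trans (hall y))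

/-- a connected acyclic hypergraph is a loose tree -/
lemma LT_of : ∀ (n : ℕ) {W : Finset V} {E : Finset (Finset V)}, E.card = n → W.Nonempty →
    (∀ e ∈ E, e.card = 3) → (∀ e ∈ E, e ⊆ W) → NC E → Conn W E → LT W E := by
  intro n
  induction n with
  | zero =>
    intro W E hn hW _ _ _ hc
    rw [Finset.card_eq_zero] at hn
    subst hn
    obtain ⟨v, hv⟩ := hW
    have : {v} = W := hc {v} (by simpa using hv) ⟨v, by simp⟩ (by simp)
    rw [← this]
    exact LT.single v
  | succ n ih =>
    intro W E hn hW h3 hsub hnc hc
    have hEne : E.Nonempty := by rw [← Finset.card_pos]; omega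
    -- every vertex is in an edge
    have hcov : W ⊆ E.biUnion id := by
      intro v hv
      by_contra hno
      have hno' : ∀ e ∈ E, v ∉ e := fun e he hve => hno (Finset.mem_biUnion.2 ⟨e, he, hve⟩)
      have : {v} = W := hc {v} (by simpa using hv) ⟨v, by simp⟩ (fun e he => Or.inr (by
        rw [Finset.disjoint_singleton_right]; exact hno' e he))
      obtain ⟨e, he⟩ := hEne
      have h1 := Finset.card_le_card (hsub e he)
      rw [h3 e he, ← this, Finset.card_singleton] at h1
      omega
    have hWE : E.biUnion id = W := Finset.Subset.antisymm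
      (Finset.biUnion_subset.2 (fun e he => hsub e he)) hcov
    have hWc : 2 * E.card + 1 ≤ W.card := by
      have := hnc E (Finset.Subset.refl _) hEne
      rwa [hWE] at this
    -- double counting
    let d : V → ℕ := fun v => (E.filter (fun e => v ∈ e)).card
    have hsum : ∑ v ∈ W, d v = 3 * E.card := by
      have h1 : ∑ v ∈ W, d v = ∑ e ∈ E, (W.filter (fun v => v ∈ e)).card :=
        Finset.sum_card_bipartiteAbove_eq_sum_card_bipartiteBelow (fun v e => v ∈ e)
      rw [h1, Finset.sum_const_nat (m := 3)]
      · ring
      · intro e he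
        have : W.filter (fun v => v ∈ e) = e := by
          ext v; simp only [Finset.mem_filter]
          exact ⟨fun h => h.2, fun h => ⟨hsub e he h, h⟩⟩
        rw [this, h3 e he]
    have hd1 : ∀ v ∈ W, 1 ≤ d v := by
      intro v hv
      obtain ⟨e, he, hve⟩ := Finset.mem_biUnion.1 (hcov hv)
      exact Finset.card_pos.2 ⟨e, Finset.mem_filter.2 ⟨he, hve⟩⟩
    let D := W.filter (fun v => d v = 1)
    have hD : E.card + 2 ≤ D.card := by
      have h1 : ∑ v ∈ W, d v ≥ ∑ v ∈ W, (2 - if d v = 1 then 1 else 0) := by
        apply Finset.sum_le_sum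
        intro v hv
        have := hd1 v hv
        split_ifs <;> omega
      have h2 : ∑ v ∈ W, (2 - if d v = 1 then 1 else 0) + D.card = 2 * W.card := by
        rw [Finset.card_filter, ← Finset.sum_add_distrib]
        rw [Finset.sum_const_nat (m := 2)]
        · ring
        · intro v _
          split_ifs <;> omega
      omega
    -- an edge with two vertices of degree one
    obtain ⟨e, he, hge⟩ : ∃ e ∈ E, 2 ≤ (D.filter (fun v => v ∈ e)).card := by
      by_contra hno
      push Not at hno
      have h1 : ∑ e ∈ E, (D.filter (fun v => v ∈ e)).card ≤ E.card := by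
        calc ∑ e ∈ E, (D.filter (fun v => v ∈ e)).card ≤ ∑ e ∈ E, 1 :=
              Finset.sum_le_sum (fun e he => by have := hno e he; omega)
          _ = E.card := by simp
      have h2 : ∑ v ∈ D, (E.filter (fun e => v ∈ e)).card =
          ∑ e ∈ E, (D.filter (fun v => v ∈ e)).card :=
        Finset.sum_card_bipartiteAbove_eq_sum_card_bipartiteBelow (fun v e => v ∈ e)
      have h3 : ∑ v ∈ D, (E.filter (fun e => v ∈ e)).card = D.card := by
        rw [Finset.card_eq_sum_ones]
        exact Finset.sum_congr rfl (fun v hv => (Finset.mem_filter.1 hv).2)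
      omega
    obtain ⟨x, hx, y, hy, hxy⟩ := Finset.one_lt_card.1 (by omega : 1 < (D.filter (fun v => v ∈ e)).card)
    simp only [D, Finset.mem_filter] at hx hy
    obtain ⟨⟨hxW, hdx⟩, hxe⟩ := hx
    obtain ⟨⟨hyW, hdy⟩, hye⟩ := hy
    have huniq : ∀ z, d z = 1 → z ∈ e → ∀ f ∈ E, z ∈ f → f = e := by
      intro z hz hze f hf hzf
      exact Finset.card_le_one.1 hz.le f (Finset.mem_filter.2 ⟨hf, hzf⟩) e
        (Finset.mem_filter.2 ⟨he, hze⟩)
    -- the third vertex
    have hc1 : ((e.erase x).erase y).card = 1 := by
      rw [Finset.card_erase_of_mem (Finset.mem_erase.2 ⟨hxy.symm, hye⟩),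
        Finset.card_erase_of_mem hxe, h3 e he]
    obtain ⟨c, hcc⟩ := Finset.card_eq_one.1 hc1
    have hcmem : c ∈ (e.erase x).erase y := by rw [hcc]; simp
    have hcy : c ≠ y := (Finset.mem_erase.1 hcmem).1
    have hcx : c ≠ x := (Finset.mem_erase.1 (Finset.mem_erase.1 hcmem).2).1
    have hce : c ∈ e := (Finset.mem_erase.1 (Finset.mem_erase.1 hcmem).2).2
    have hexy : e = {c, x, y} := by
      symm
      apply Finset.eq_of_subset_of_card_le
      · intro v hv
        simp only [Finset.mem_insert, Finset.mem_singleton] at hv
        rcases hv with rfl | rfl | rfl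
        · exact hce
        · exact hxe
        · exact hye
      · rw [h3 e he, Finset.card_eq_three.2 ⟨c, x, y, hcx, hcy, hxy, rfl⟩]
    have hcW' : c ∈ (W.erase x).erase y := by
      simp only [Finset.mem_erase]
      exact ⟨hcy, hcx, hsub e he hce⟩
    have hLT : LT ((W.erase x).erase y) (E.erase e) := by
      apply ih
      · rw [Finset.card_erase_of_mem he]; omega
      · exact ⟨c, hcW'⟩
      · intro f hf; exact h3 f (Finset.mem_of_mem_erase hf)
      · intro f hf v hv
        obtain ⟨hne, hfE⟩ := Finset.mem_erase.1 hf
        simp only [Finset.mem_erase]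
        refine ⟨?_, ?_, hsub f hfE hv⟩
        · rintro rfl; exact hne (huniq v hdy hye f hfE hv)
        · rintro rfl; exact hne (huniq v hdx hxe f hfE hv)
      · exact hnc.mono (Finset.erase_subset _ _)
      · intro A hAW hA hcl
        by_cases hcA : c ∈ A
        · have h1 : insert x (insert y A) = W := by
            apply hc
            · intro v hv
              simp only [Finset.mem_insert] at hv
              rcases hv with rfl | rfl | hv
              · exact hxW
              · exact hyW
              · have := hAW hv; simp only [Finset.mem_erase] at this; exact this.2.2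
            · exact ⟨x, by simp⟩
            · intro f hf
              by_cases hfe : f = e
              · left
                rw [hfe, hexy]
                intro v hv
                simp only [Finset.mem_insert, Finset.mem_singleton] at hv ⊢
                rcases hv with rfl | rfl | rfl
                · exact Or.inr (Or.inr hcA)
                · exact Or.inl rfl
                · exact Or.inr (Or.inl rfl)
              · rcases hcl f (Finset.mem_erase.2 ⟨hfe, hf⟩) with h | h
                · left; exact h.trans (fun v hv => by simp [hv])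
                · right
                  rw [Finset.disjoint_left] at h ⊢
                  intro v hv hv'
                  simp only [Finset.mem_insert] at hv'
                  rcases hv' with rfl | rfl | hv'
                  · exact hfe (huniq v hdx hxe f hf hv)
                  · exact hfe (huniq v hdy hye f hf hv)
                  · exact h hv hv'
          apply Finset.Subset.antisymm hAW
          intro v hv
          simp only [Finset.mem_erase] at hv
          have : v ∈ insert x (insert y A) := by rw [h1]; exact hv.2.2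
          simp only [Finset.mem_insert] at this
          rcases this with h | h | h
          · exact absurd h hv.2.1
          · exact absurd h hv.1
          · exact h
        · exfalso
          have hxA : x ∉ A := fun h => by
            have := hAW h; simp only [Finset.mem_erase] at this; exact this.2.1 rfl
          have hyA : y ∉ A := fun h => by
            have := hAW h; simp only [Finset.mem_erase] at this; exact this.1 rfl
          have h1 : A = W := by
            apply hc
            · intro v hv
              have := hAW hv; simp only [Finset.mem_erase] at this; exact this.2.2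
            · exact hA
            · intro f hf
              by_cases hfe : f = e
              · right
                rw [hfe, hexy, Finset.disjoint_left]
                intro v hv
                simp only [Finset.mem_insert, Finset.mem_singleton] at hv
                rcases hv with rfl | rfl | rfl
                · exact hcA
                · exact hxA
                · exact hyA
              · exact hcl f (Finset.mem_erase.2 ⟨hfe, hf⟩)
          exact hxA (h1 ▸ hxW)
    have hfin := LT.add (c := c) (u := x) (w := y) hLT hcW' (by simp) (by simp) hxy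
    have e1 : insert x (insert y ((W.erase x).erase y)) = W := by
      rw [Finset.insert_erase (Finset.mem_erase.2 ⟨hxy.symm, hyW⟩), Finset.insert_erase hxW]
    have e2 : insert {c, x, y} (E.erase e) = E := by
      rw [← hexy, Finset.insert_erase he]
    rwa [e1, e2] at hfin

end Run7.h175
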