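import Pool.Agent.N493.PE4

set_option autoImplicit false

/-! Many odd coefficients of sums of odd powers of the discriminant modulo 2 in residue classes
(the proof of `many_gen` is that of `many_Db` in the starting file `R836/PP/ManyK`). -/

namespace Pool.Agent.Run7.h175.JM

open PowerSeries Finset
open Pool.Agent.R836.PP
open Pool.Agent.H397R2.PP Pool.Agent.H307R2.OP

theorem many_gen (μ K : ℕ) (φ : S) (h8φ : ∀ N, coeff N φ ≠ 0 → N % 8 = μ % 8) (w : List ℕ)
    (hwlen : K + 1 ≤ w.length) (hw35 : ∀ x ∈ w, x = 3 ∨ x = 5)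
    (hw : ∀ q : List ℕ, List.Forall₂ (fun q x => q.Prime ∧ q % 8 = x) q w → q.Nodup →
      coeff q.prod φ = 1) : Many (wK K) μ φ := by
  classical
  intro Q a hQ h8 ha hamod
  obtain ⟨x, w', rfl⟩ : ∃ x w', w = x :: w' := by
    cases w with
    | nil => simp at hwlen
    | cons x w' => exact ⟨x, w', rfl⟩
  rw [List.length_cons] at hwlen
  set k := w'.length with hk
  have hKk : K ≤ k := by omega
  obtain ⟨c, hc, T0, v, hT0, hv, hD⟩ := tuples Q hQ h8 w' fun y hy =>
    hw35 y (List.mem_cons_of_mem _ hy)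
  rw [← hk] at hD
  obtain ⟨a', ha'1, ha'2⟩ := inv_class Q v a hQ hv ha
  obtain ⟨δ, hδ, Xp, hXp⟩ := primes_AP Q hQ a' ha'1
  have hv2 : v.Coprime 8 := Nat.Coprime.coprime_dvd_right h8 hv
  set κ : ℝ := (k : ℝ) + 1 with hκ
  have hκ1 : 1 ≤ κ := by rw [hκ]; have : (0 : ℝ) ≤ k := by positivity
                         linarith
  -- thresholds
  obtain ⟨X1, hX1⟩ := ev_loglog (max (max 1 (4 * κ * Real.log 2))
    (max (2 * κ * Real.log (T0 + 1)) (2 * Real.log (4 * κ))))
  obtain ⟨X2, hX2g, hX2⟩ := ev_log (4 / δ) (by positivity)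
  refine ⟨δ / 4 * c / (4 * κ) ^ k, by positivity, max (max X1 X2) ((2 * (Xp + 2)) ^ 2),
    fun X hX => ?_⟩
  simp only [max_le_iff] at hX
  obtain ⟨⟨hXa, hXb⟩, hXc⟩ := hX
  have hΛ := hX1 X hXa
  simp only [max_le_iff] at hΛ
  obtain ⟨⟨hΛ1, hΛ2⟩, hΛ3, hΛ4⟩ := hΛ
  have hlog2 := hX2 X hXb
  set ℓ : ℝ := Real.log X with hℓ
  set lam : ℝ := Real.log ℓ with hlam
  have hℓ1 : 1 < ℓ := log_pos_of (by rw [← hℓ, ← hlam]; linarith)
  have hX0 : 0 < X := by omega
  have hXr : (0 : ℝ) < X := by exact_mod_cast hX0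
  have hexpl : Real.exp ℓ = X := Real.exp_log hXr
  have hexplam : Real.exp lam = ℓ := Real.exp_log (by linarith)
  set E : ℝ := Real.exp (lam / (2 * κ)) with hE
  set T : ℕ := ⌊E⌋₊ with hT
  have hE0 : 0 < E := Real.exp_pos _
  have hTE : (T : ℝ) ≤ E := Nat.floor_le hE0.le
  have hET : E < T + 1 := Nat.lt_floor_add_one E
  have hET0 : (T0 : ℝ) + 1 ≤ E := by
    rw [hE, ← Real.log_le_iff_le_exp (by positivity), le_div_iff₀ (by positivity)]
    linarith
  have hTT0 : T0 ≤ T := by
    have : (T0 : ℝ) < T + 1 := by linarith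
    have : T0 < T + 1 := by exact_mod_cast this
    omega
  have hT2 : 2 ≤ T := hT0.trans hTT0
  have hTr : (2 : ℝ) ≤ T := by exact_mod_cast hT2
  -- the bound `U`
  have hTpow : (T : ℝ) ^ (k + 1) ≤ Real.sqrt ℓ := by
    calc (T : ℝ) ^ (k + 1) ≤ E ^ (k + 1) := pow_le_pow_left₀ (by positivity) hTE _
      _ = Real.exp (lam / 2) := by
        rw [hE, ← Real.exp_nat_mul]
        congr 1
        push_cast
        rw [← hκ]
        field_simp
      _ = Real.sqrt ℓ := by
        rw [← hexplam, Real.sqrt_eq_rpow, ← Real.exp_mul]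
        congr 1
        ring
  have hsqrt : 4 * κ ≤ Real.sqrt ℓ := by
    have : Real.sqrt ℓ = Real.exp (lam / 2) := by
      rw [← hexplam, Real.sqrt_eq_rpow, ← Real.exp_mul]
      congr 1
      ring
    rw [this, ← Real.log_le_iff_le_exp (by positivity)]
    linarith
  have hss : Real.sqrt ℓ * Real.sqrt ℓ = ℓ := Real.mul_self_sqrt (by linarith)
  set U : ℕ := 2 ^ ((k + 1) * T ^ (k + 1)) with hU
  have hU4 : U ^ 4 ≤ X := by
    have h1 : ((U ^ 4 : ℕ) : ℝ) ≤ X := by
      rw [hU]
      push_cast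
      rw [← pow_mul, ← hexpl, ← Real.rpow_natCast, ← Real.exp_log (show (0 : ℝ) < 2 by norm_num),
        ← Real.exp_mul]
      apply Real.exp_le_exp.2
      have hl2 : Real.log 2 ≤ 1 := by
        have := Real.log_two_lt_d9
        linarith
      have hl2' : 0 ≤ Real.log 2 := Real.log_nonneg (by norm_num)
      push_cast
      rw [← hκ]
      calc Real.log 2 * (κ * (T : ℝ) ^ (k + 1) * 4) ≤ 1 * (κ * (T : ℝ) ^ (k + 1) * 4) :=
            mul_le_mul_of_nonneg_right hl2 (by positivity)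
        _ = (4 * κ) * (T : ℝ) ^ (k + 1) := by ring
        _ ≤ Real.sqrt ℓ * Real.sqrt ℓ :=
            mul_le_mul hsqrt hTpow (by positivity) (Real.sqrt_nonneg _)
        _ = ℓ := hss
    exact_mod_cast h1
  have hUpos : 0 < U := by positivity
  have hU2 : (U : ℝ) ^ 2 ≤ Real.sqrt X := by
    apply Real.le_sqrt_of_sq_le
    have : (((U : ℝ)) ^ 2) ^ 2 = ((U ^ 4 : ℕ) : ℝ) := by push_cast; ring
    rw [this]
    exact_mod_cast hU4
  have hB : 2 ^ (T ^ (k + 1)) ≤ U := by
    rw [hU]
    apply Nat.pow_le_pow_right (by norm_num)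
    exact Nat.le_mul_of_pos_left _ (by omega)
  obtain ⟨D, hD1, hD2⟩ := hD T hTT0
  have hdU : ∀ d ∈ D, d ≤ U := by
    intro d hd
    refine (hD1 d hd).2.1.trans ?_
    rw [hU]
    apply Nat.pow_le_pow_right (by norm_num)
    exact Nat.mul_le_mul_right _ (by omega)
  set B : ℕ := 2 ^ (T ^ (k + 1)) with hBdef
  -- the primes
  set P : ℕ → Finset ℕ := fun d => (Icc 1 (X / d)).filter
    (fun p => (p.Prime ∧ p % Q = a' % Q) ∧ B < p) with hP
  have hcoef : ∀ d ∈ D, ∀ p ∈ P d, coeff (p * d) φ = 1 := by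
    intro d hd p hp
    rw [hP, mem_filter] at hp
    obtain ⟨-, ⟨hp1, hp2⟩, hp3⟩ := hp
    obtain ⟨g1, g2, g3, l, hl1, hl2, hl3, hl4⟩ := hD1 d hd
    have hx35 : x = 3 ∨ x = 5 := hw35 x (by simp)
    have hdodd : d.Coprime 8 := by
      have e1 : d ≡ v [MOD 8] := (show d ≡ v [MOD Q] from g3).of_dvd h8
      rw [Nat.Coprime, e1.gcd_eq]
      exact hv2
    obtain ⟨p0, q1, q2, q3⟩ := Nat.forall_exists_prime_gt_and_modEq B (q := 8) (a := x)
      (by norm_num) (by rcases hx35 with rfl | rfl <;> norm_num)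
    have hx8 : x % 8 = x := by rcases hx35 with rfl | rfl <;> rfl
    have q3' : p0 % 8 = x := by
      have : p0 % 8 = x % 8 := q3
      rw [this, hx8]
    have key : ∀ p : ℕ, p.Prime → p % 8 = x → B < p →
        coeff (p * d) φ = 1 := by
      intro p hp hp8 hpB
      have := hw (p :: l) (List.Forall₂.cons ⟨hp, hp8⟩ hl2) (by
        rw [List.nodup_cons]
        refine ⟨fun h => ?_, hl3⟩
        have := hl4 p h
        omega)
      rwa [List.prod_cons, hl1] at this
    apply key p hp1 _ hp3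
    have e1 : p0 * d % 8 = μ % 8 := h8φ _ (by
      rw [key p0 q2 q3' q1]
      exact one_ne_zero)
    have e2 : p * d ≡ a [MOD Q] := (Nat.ModEq.mul hp2 g3).trans ha'2
    have e3 : p * d ≡ p0 * d [MOD 8] := by
      have : p * d ≡ a [MOD 8] := e2.of_dvd h8
      refine this.trans ?_
      show a % 8 = (p0 * d) % 8
      rw [e1, hamod]
    have e4 : p ≡ p0 [MOD 8] := Nat.ModEq.cancel_right_of_coprime (by
      rw [Nat.coprime_comm] at hdodd
      exact hdodd) e3
    have e5 : p % 8 = p0 % 8 := e4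
    rw [e5, q3']
  -- the count
  have hmap : (D.sigma fun d => P d).card ≤
      ((Icc 1 X).filter fun N => N % Q = a % Q ∧ coeff N φ = 1).card := by
    apply card_le_card_of_injOn (fun dp : Σ _ : ℕ, ℕ => dp.2 * dp.1)
    · rintro ⟨d, p⟩ h
      rw [mem_coe, mem_sigma] at h
      simp only at h ⊢
      obtain ⟨hd, hp⟩ := h
      have h1 := hcoef d hd p hp
      rw [hP, mem_filter, mem_Icc] at hp
      obtain ⟨⟨hp0, hp1⟩, ⟨hp2, hp3⟩, hp4⟩ := hp
      obtain ⟨g1, g2, g3, -⟩ := hD1 d hd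
      rw [mem_coe, mem_filter, mem_Icc]
      refine ⟨⟨Nat.mul_pos hp0 g1, ?_⟩, (Nat.ModEq.mul hp3 g3).trans ha'2, h1⟩
      exact (Nat.le_div_iff_mul_le g1).1 hp1
    · rintro ⟨d, p⟩ h ⟨d', p'⟩ h' heq
      rw [mem_coe, mem_sigma] at h h'
      simp only at h h' heq
      obtain ⟨hd, hp⟩ := h
      obtain ⟨hd', hp'⟩ := h'
      rw [hP, mem_filter, mem_Icc] at hp hp'
      obtain ⟨-, ⟨hp2, -⟩, hp4⟩ := hp
      obtain ⟨-, ⟨hp2', -⟩, hp4'⟩ := hp'
      obtain ⟨g1, -, -, l, hl1, hl2, -, hl4⟩ := hD1 d' hd'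
      have hpp : p = p' := by
        have hdvd : p ∣ p' * d' := heq ▸ Dvd.intro _ rfl
        rcases (Nat.Prime.dvd_mul hp2).1 hdvd with h | h
        · exact (Nat.prime_dvd_prime_iff_eq hp2 hp2').1 h
        · exfalso
          rw [← hl1] at h
          have := hl4 p (prime_mem_of_dvd hl2 hp2 h)
          omega
      subst hpp
      have hdd : d = d' := Nat.eq_of_mul_eq_mul_left hp2.pos heq
      subst hdd
      rfl
  rw [card_sigma] at hmap
  have hPd : ∀ d ∈ D, δ / 4 * (X / ℓ) * (1 / d) ≤ ((P d).card : ℝ) := by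
    intro d hd
    have g1 := (hD1 d hd).1
    have g2 := hdU d hd
    have hdr : (0 : ℝ) < d := by exact_mod_cast g1
    have hdUr : (d : ℝ) ≤ U := by exact_mod_cast g2
    have hUr : (1 : ℝ) ≤ U := by
      have : 1 ≤ U := hUpos
      exact_mod_cast this
    have hsX : Real.sqrt X * Real.sqrt X = X := Real.mul_self_sqrt hXr.le
    have hUs : (U : ℝ) ≤ Real.sqrt X := by nlinarith
    have hsXp : 2 * ((Xp : ℝ) + 2) ≤ Real.sqrt X := by
      apply Real.le_sqrt_of_sq_le
      exact_mod_cast hXc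
    set M : ℕ := X / d with hM
    have hMlow : (X : ℝ) / (2 * d) ≤ M := by
      have h1 : (X : ℝ) < (M + 1) * d := by
        have := Nat.lt_div_mul_add (a := X) (b := d) g1
        have h2 : X < (M + 1) * d := by
          have e : (M + 1) * d = X / d * d + d := by rw [hM]; ring
          rw [e]
          exact this
        exact_mod_cast h2
      have h3 : (2 : ℝ) * d ≤ X := by nlinarith
      rw [div_le_iff₀ (by positivity)]
      nlinarith
    have hMXp : (Xp : ℝ) + 2 ≤ M := by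
      refine le_trans ?_ hMlow
      rw [le_div_iff₀ (by positivity)]
      nlinarith
    have hMXp' : Xp + 2 ≤ M := by exact_mod_cast hMXp
    have h1 := hXp M (by omega)
    have hMX : M ≤ X := Nat.div_le_self _ _
    have hM1 : (1 : ℝ) < M := by
      have : 1 < M := by omega
      exact_mod_cast this
    have hlogM : 0 < Real.log M := Real.log_pos hM1
    have hlogMX : Real.log M ≤ ℓ := Real.log_le_log (by linarith) (by exact_mod_cast hMX)
    have h2 : δ * (X / (2 * d)) / ℓ ≤ δ * M / Real.log M := by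
      calc δ * (X / (2 * d)) / ℓ ≤ δ * M / ℓ := by
            apply div_le_div_of_nonneg_right _ (by linarith)
            exact mul_le_mul_of_nonneg_left hMlow hδ.le
        _ ≤ δ * M / Real.log M := div_le_div_of_nonneg_left (by positivity) hlogM hlogMX
    have h3 : (((Icc 1 M).filter (fun p => p.Prime ∧ p % Q = a' % Q)).card : ℝ) ≤
        (P d).card + B := by
      have : ((Icc 1 M).filter (fun p => p.Prime ∧ p % Q = a' % Q)).card ≤ (P d).card + B := by
        have hsub : (Icc 1 M).filter (fun p => p.Prime ∧ p % Q = a' % Q) ⊆ P d ∪ Icc 1 B := by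
          intro p hp
          rw [mem_filter, mem_Icc] at hp
          rw [mem_union, hP, mem_filter, mem_Icc, mem_Icc]
          by_cases h : B < p
          · exact Or.inl ⟨hp.1, hp.2, h⟩
          · exact Or.inr ⟨hp.1.1, by omega⟩
        calc _ ≤ _ := card_le_card hsub
          _ ≤ _ := card_union_le _ _
          _ = _ := by rw [Nat.card_Icc, Nat.add_sub_cancel]
      exact_mod_cast this
    have h4 : (B : ℝ) ≤ δ / 4 * (X / ℓ) * (1 / d) := by
      have hBU : (B : ℝ) ≤ U := by exact_mod_cast hB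
      have h5 : (U : ℝ) * d * ℓ ≤ δ / 4 * X := by
        calc (U : ℝ) * d * ℓ ≤ U * U * ℓ := by
              apply mul_le_mul_of_nonneg_right _ (by linarith)
              exact mul_le_mul_of_nonneg_left hdUr (by positivity)
          _ = (U : ℝ) ^ 2 * ℓ := by ring
          _ ≤ Real.sqrt X * ℓ := mul_le_mul_of_nonneg_right hU2 (by linarith)
          _ = δ / 4 * (Real.sqrt X * (4 / δ * ℓ)) := by field_simp
          _ ≤ δ / 4 * (Real.sqrt X * Real.sqrt X) := by
              apply mul_le_mul_of_nonneg_left _ (by positivity)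
              exact mul_le_mul_of_nonneg_left hlog2 (Real.sqrt_nonneg _)
          _ = δ / 4 * X := by rw [hsX]
      have h6 : δ / 4 * (X / ℓ) * (1 / d) = (δ / 4 * X) / (d * ℓ) := by
        field_simp
      rw [h6, le_div_iff₀ (by positivity)]
      calc (B : ℝ) * (d * ℓ) ≤ U * (d * ℓ) := mul_le_mul_of_nonneg_right hBU (by positivity)
        _ = U * d * ℓ := by ring
        _ ≤ δ / 4 * X := h5
    have h7 : δ * (X / (2 * d)) / ℓ = 2 * (δ / 4 * (X / ℓ) * (1 / d)) := by
      field_simp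
      ring
    linarith
  have hlogT : lam / (4 * κ) ≤ Real.log T := by
    have h1 : E / 2 ≤ T := by
      have : (T0 : ℝ) + 1 ≤ E := hET0
      have : (2 : ℝ) ≤ T0 := by exact_mod_cast hT0
      linarith
    have h2 : Real.log (E / 2) ≤ Real.log T := Real.log_le_log (by positivity) h1
    rw [Real.log_div hE0.ne' (by norm_num), hE, Real.log_exp] at h2
    have h3 : lam / (2 * κ) = 2 * (lam / (4 * κ)) := by
      field_simp
      ring
    have h4 : Real.log 2 ≤ lam / (4 * κ) := by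
      rw [le_div_iff₀ (by positivity)]
      linarith
    linarith
  have hsum : δ / 4 * (X / ℓ) * (c * Real.log T ^ k) ≤ ∑ d ∈ D, ((P d).card : ℝ) := by
    calc δ / 4 * (X / ℓ) * (c * Real.log T ^ k) ≤ δ / 4 * (X / ℓ) * ∑ d ∈ D, (1 : ℝ) / d :=
          mul_le_mul_of_nonneg_left hD2 (by positivity)
      _ = ∑ d ∈ D, δ / 4 * (X / ℓ) * (1 / d) := by rw [mul_sum]
      _ ≤ _ := sum_le_sum hPd
  have hcast : ∑ d ∈ D, ((P d).card : ℝ) ≤
      (((Icc 1 X).filter fun N => N % Q = a % Q ∧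
        coeff N φ = 1).card : ℝ) := by
    exact_mod_cast hmap
  refine le_trans ?_ (hsum.trans hcast)
  unfold wK
  rw [← hℓ, ← hlam]
  have h1 : δ / 4 * c / (4 * κ) ^ k * X / (ℓ / lam ^ K) =
      δ / 4 * (X / ℓ) * (c * (lam ^ K / (4 * κ) ^ k)) := by
    field_simp
  rw [h1]
  apply mul_le_mul_of_nonneg_left _ (by positivity)
  apply mul_le_mul_of_nonneg_left _ hc.le
  calc lam ^ K / (4 * κ) ^ k ≤ lam ^ k / (4 * κ) ^ k := by
        apply div_le_div_of_nonneg_right _ (by positivity)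
        exact pow_le_pow_right₀ hΛ1 hKk
    _ = (lam / (4 * κ)) ^ k := by rw [div_pow]
    _ ≤ Real.log T ^ k := pow_le_pow_left₀ (by positivity) hlogT k

/-- a sum of different odd powers of the discriminant modulo 2 -/
noncomputable def Dsum (J : Finset ℕ) : S := ∑ j ∈ J, (Db : S) ^ (2 * j + 1)

theorem Dsum_not_mem (J : Finset ℕ) (j0 : ℕ) (hj0 : j0 ∈ J) : Dsum J ∉ NIL.WW (cont j0) := by
  classical
  intro h
  have hsub : ∀ φ ∈ NIL.WW (cont j0), ∃ P : Polynomial (ZMod 2), P.coeff (2 * j0 + 1) = 0 ∧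
      Polynomial.aeval (Db : S) P = φ := by
    intro φ hφ
    induction hφ using Submodule.span_induction with
    | mem x hx =>
      obtain ⟨i, hi, rfl⟩ := hx
      refine ⟨Polynomial.X ^ (2 * i + 1), ?_, by rw [map_pow, Polynomial.aeval_X]⟩
      rw [Polynomial.coeff_X_pow, if_neg]
      intro h
      have : j0 = i := by omega
      subst this
      omega
    | zero => exact ⟨0, by simp, by simp⟩
    | add x y _ _ hx hy =>
      obtain ⟨P, h1, h2⟩ := hx
      obtain ⟨Q, h3, h4⟩ := hy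
      exact ⟨P + Q, by rw [Polynomial.coeff_add, h1, h3, add_zero], by rw [map_add, h2, h4]⟩
    | smul a x _ hx =>
      obtain ⟨P, h1, h2⟩ := hx
      exact ⟨a • P, by rw [Polynomial.coeff_smul, h1, smul_zero], by rw [map_smul, h2]⟩
  obtain ⟨P, h1, h2⟩ := hsub _ h
  set R : Polynomial (ZMod 2) := ∑ j ∈ J, Polynomial.X ^ (2 * j + 1) with hR
  have hRc : R.coeff (2 * j0 + 1) = 1 := by
    rw [hR, Polynomial.finsetSum_coeff, Finset.sum_eq_single j0]
    · rw [Polynomial.coeff_X_pow, if_pos rfl]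
    · intro j _ hj
      rw [Polynomial.coeff_X_pow, if_neg]
      omega
    · intro h
      exact absurd hj0 h
  have h3 : P - R ≠ 0 := by
    intro h0
    have := congrArg (fun R => Polynomial.coeff R (2 * j0 + 1)) h0
    simp only [Polynomial.coeff_sub, h1, hRc, Polynomial.coeff_zero] at this
    simp at this
  apply aeval_Db_ne _ h3
  rw [map_sub, h2, hR, map_sum]
  unfold Dsum
  simp only [map_pow, Polynomial.aeval_X, sub_self]

/-- **many odd coefficients** of a sum of different odd powers of the discriminant modulo 2 with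
exponents in one class modulo 8 -/
theorem many_Dsum (J : Finset ℕ) (hJ : J.Nonempty) (K μ : ℕ) (hK : ∀ j ∈ J, K + 1 ≤ cont j)
    (hμ : ∀ j ∈ J, (2 * j + 1) % 8 = μ % 8) : Many (wK K) μ (Dsum J) := by
  classical
  obtain ⟨j0, hj0, hmax⟩ := J.exists_max_image cont hJ
  obtain ⟨w, w1, w2, w3⟩ := key (cont j0) (Dsum J)
    (Submodule.sum_mem _ fun j _ => Submodule.subset_span ⟨j, rfl⟩)
    (Submodule.sum_mem _ fun j hj => NIL.WW_mem (by have := hmax j hj; omega)) (Dsum_not_mem J j0 hj0)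
  refine many_gen μ K (Dsum J) ?_ w (by rw [w1]; exact hK j0 hj0) w2 ?_
  · intro N hN
    unfold Dsum at hN
    rw [map_sum] at hN
    obtain ⟨j, hj, hne⟩ := Finset.exists_ne_zero_of_sum_ne_zero hN
    rw [coeff_Db_ne hne]
    exact hμ j hj
  · intro q hq hnd
    have := w3 0 (Submodule.zero_mem _) q hq hnd
    rwa [add_zero] at this

end Pool.Agent.Run7.h175.JM
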