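import Pool.Agent.Run7.h175.JM1

set_option autoImplicit false

/-! Joint patterns of several series at the dilates `2 ^ s n`: many values 1 on the modular side
(after the starting file `N493/PE2`). -/

namespace Pool.Agent.Run7.h175.JM

open Finset PowerSeries
open Pool.Agent.R836.PP Pool.Agent.N493.PE
open Pool.Agent.H397R2.PP Pool.Agent.H397R2.PP.TH Pool.Agent.H307R2.OP

/-- the joint pattern of the coefficients of `D ^ (2 jj a + 1)` at
`8 (2 ^ (al a) n + i) + (2 jj a + 1)` -/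
noncomputable def gM {ι : Type} [Fintype ι] {L : ℕ} (c : ι → Fin (L + 1) → ZMod 2) (al jj : ι → ℕ)
    (n : ℕ) : ZMod 2 :=
  ∑ a : ι, ∑ i : Fin (L + 1), c a i *
    coeff (8 * (2 ^ al a * n + i) + (2 * jj a + 1)) ((Db : S) ^ (2 * jj a + 1))

theorem two_pow_odd {a a' B B' : ℕ} (hB : B % 2 = 1) (hB' : B' % 2 = 1)
    (h : 2 ^ a * B = 2 ^ a' * B') : a = a' := by
  wlog hlt : a ≤ a' generalizing a a' B B'
  · exact (this hB' hB h.symm (by omega)).symm
  obtain ⟨d, rfl⟩ : ∃ d, a' = a + d := ⟨a' - a, by omega⟩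
  have h1 : B = 2 ^ d * B' := by
    have h2 : 2 ^ a * B = 2 ^ a * (2 ^ d * B') := by rw [h, pow_add]; ring
    exact Nat.eq_of_mul_eq_mul_left (by positivity) h2
  rcases Nat.eq_zero_or_pos d with rfl | hd
  · rfl
  · exfalso
    obtain ⟨d', rfl⟩ : ∃ d', d = d' + 1 := ⟨d - 1, by omega⟩
    rw [pow_succ] at h1
    have : B = 2 * (2 ^ d' * B') := by rw [h1]; ring
    omega

theorem lower {ι : Type} [Fintype ι] {L : ℕ} (K e H : ℕ) (al jj : ι → ℕ)
    (hinj : ∀ a a', al a = al a' → jj a = jj a' → a = a') (hK : ∀ a, K + 1 ≤ cont (jj a))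
    (hV : ∀ a, Vanish H ((Db : S) ^ (2 * jj a + 1)))
    (c : ι → Fin (L + 1) → ZMod 2) (hc : c ≠ 0) (ρ : ℕ) :
    ∃ δ : ℝ, 0 < δ ∧ ∃ X0 : ℕ, ∀ x : ℕ, X0 ≤ x → δ * x / wK K x ≤
      (((range (x + 1)).filter fun n => n % 2 ^ e = ρ % 2 ^ e ∧ gM c al jj n = 1).card : ℝ) := by
  classical
  obtain ⟨a0, ha0⟩ : ∃ a, c a ≠ 0 := by
    by_contra hcon
    push Not at hcon
    exact hc (funext hcon)
  obtain ⟨i0, hi0⟩ : ∃ i, c a0 i ≠ 0 := by
    by_contra hcon
    push Not at hcon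
    exact ha0 (funext hcon)
  have hw := wt_wK K
  set α0 : ℕ := 8 * 2 ^ al a0 with hα0
  set β0 : ℕ := 8 * i0 + (2 * jj a0 + 1) with hβ0
  have hα0pos : 0 < α0 := by positivity
  have hα08 : 8 ≤ α0 := by
    have : 1 ≤ 2 ^ al a0 := Nat.one_le_pow _ _ (by norm_num)
    omega
  have hβ0odd : β0 % 2 = 1 := by omega
  have hform : ∀ n, (α0 * n + β0) % 2 = 1 := by
    intro n
    have : α0 * n = 2 * (4 * 2 ^ al a0 * n) := by rw [hα0]; ring
    omega
  -- the terms with the same form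
  set Cond : ι × Fin (L + 1) → Prop :=
    fun p => al p.1 = al a0 ∧ 8 * (p.2 : ℕ) + (2 * jj p.1 + 1) = β0 with hCond
  set G1 : Finset (ι × Fin (L + 1)) := univ.filter fun p => Cond p ∧ c p.1 p.2 ≠ 0 with hG1
  set J : Finset ℕ := G1.image fun p => jj p.1 with hJ
  have hJne : J.Nonempty := by
    refine ⟨jj a0, ?_⟩
    rw [hJ, mem_image]
    exact ⟨(a0, i0), by rw [hG1, mem_filter]; exact ⟨mem_univ _, ⟨rfl, rfl⟩, hi0⟩, rfl⟩
  have hJK : ∀ j ∈ J, K + 1 ≤ cont j := by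
    intro j hj
    rw [hJ, mem_image] at hj
    obtain ⟨p, -, rfl⟩ := hj
    exact hK p.1
  have hJ8 : ∀ j ∈ J, (2 * j + 1) % 8 = β0 % 8 := by
    intro j hj
    rw [hJ, mem_image] at hj
    obtain ⟨p, hp, rfl⟩ := hj
    rw [hG1, mem_filter] at hp
    have := hp.2.1.2
    rw [← this]
    omega
  have h1 := many_Dsum J hJne K β0 hJK hJ8
  set s : Finset (ℕ × ℕ) := ((univ : Finset (ι × Fin (L + 1))).filter fun p => ¬ Cond p).image
    (fun p => (8 * 2 ^ al p.1, 8 * (p.2 : ℕ) + (2 * jj p.1 + 1))) with hs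
  have hsp : ∀ p ∈ s, 0 < p.1 ∧ (p.1 : ℤ) * β0 ≠ α0 * p.2 := by
    intro p hp
    rw [hs, mem_image] at hp
    obtain ⟨⟨a, i⟩, hq, rfl⟩ := hp
    refine ⟨by positivity, ?_⟩
    intro h
    have h' : 8 * 2 ^ al a * β0 = α0 * (8 * (i : ℕ) + (2 * jj a + 1)) := by exact_mod_cast h
    have h3 : 2 ^ al a * β0 = 2 ^ al a0 * (8 * (i : ℕ) + (2 * jj a + 1)) := by
      rw [hα0] at h'
      have e1 : 8 * (2 ^ al a * β0) = 8 * (2 ^ al a0 * (8 * (i : ℕ) + (2 * jj a + 1))) := by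
        rw [← mul_assoc, h', mul_assoc]
      exact Nat.eq_of_mul_eq_mul_left (by norm_num) e1
    have h4 : al a = al a0 := two_pow_odd hβ0odd (by omega) h3
    rw [h4] at h3
    have h5 := Nat.eq_of_mul_eq_mul_left (by positivity) h3
    rw [mem_filter] at hq
    exact hq.2 ⟨h4, h5.symm⟩
  obtain ⟨Q, n1, g1, g2, g3, g4, g5⟩ := crtAll α0 β0 H (2 ^ e) ρ (by positivity)
    (odd_coprime_two_pow (hform ρ)) s hsp
  have h8Q : 8 ∣ α0 * Q := (Dvd.intro _ rfl : 8 ∣ α0).mul_right _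
  have hco : (α0 * n1 + β0).Coprime (α0 * Q) := by
    apply Nat.Coprime.mul_right _ g4
    have hpow : α0 = 2 ^ (al a0 + 3) := by
      rw [hα0, pow_add]; norm_num; ring
    have h := odd_coprime_two_pow (k := al a0 + 3) (hform n1)
    rwa [← hpow] at h
  have hmod8 : (α0 * n1 + β0) % 8 = β0 % 8 := by
    rw [hα0]
    have : 8 * 2 ^ al a0 * n1 + β0 = β0 + 8 * (2 ^ al a0 * n1) := by ring
    rw [this, Nat.add_mul_mod_self_left]
  obtain ⟨δ, hδ, X1, hX1⟩ := h1 (α0 * Q) (α0 * n1 + β0) (by positivity) h8Q hco hmod8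
  have hval : ∀ n, n ≡ n1 [MOD Q] → coeff (α0 * n + β0) (Dsum J) = 1 → gM c al jj n = 1 := by
    intro n hn hcoef
    rw [← hcoef]
    have e0 : coeff (α0 * n + β0) (Dsum J) =
        ∑ p ∈ G1, coeff (α0 * n + β0) ((Db : S) ^ (2 * jj p.1 + 1)) := by
      unfold Dsum
      rw [map_sum, hJ, Finset.sum_image]
      rintro ⟨a, i⟩ hp ⟨a', i'⟩ hp' h
      rw [mem_coe, hG1, mem_filter] at hp hp'
      obtain ⟨-, ⟨k1, k2⟩, -⟩ := hp
      obtain ⟨-, ⟨k1', k2'⟩, -⟩ := hp'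
      simp only at h k1 k2 k1' k2'
      have ha : a = a' := hinj a a' (k1.trans k1'.symm) h
      subst ha
      have hi : (i : ℕ) = i' := by omega
      rw [Fin.ext hi]
    rw [e0, hG1, Finset.sum_filter]
    unfold gM
    rw [← Fintype.sum_prod_type' (f := fun (a : ι) (i : Fin (L + 1)) => c a i *
      coeff (8 * (2 ^ al a * n + i) + (2 * jj a + 1)) ((Db : S) ^ (2 * jj a + 1)))]
    refine Finset.sum_congr rfl fun p _ => ?_
    obtain ⟨a, i⟩ := p
    simp only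
    by_cases hp : Cond (a, i)
    · by_cases hz : c a i = 0
      · rw [if_neg (fun h => h.2 hz), hz, zero_mul]
      · rw [if_pos ⟨hp, hz⟩, (zmod_two (c a i)).resolve_left hz, one_mul]
        congr 2
        have k1 : al a = al a0 := hp.1
        have k2 : 8 * (i : ℕ) + (2 * jj a + 1) = β0 := hp.2
        rw [hα0, ← k2, k1]
        ring
    · rw [if_neg (fun h => hp h.1)]
      obtain ⟨R, hR, hr⟩ := g5 n hn (8 * 2 ^ al a, 8 * (i : ℕ) + (2 * jj a + 1)) (by
        rw [hs, mem_image]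
        exact ⟨(a, i), mem_filter.2 ⟨mem_univ _, hp⟩, rfl⟩)
      have e1 : 8 * (2 ^ al a * n + i) + (2 * jj a + 1) =
          8 * 2 ^ al a * n + (8 * (i : ℕ) + (2 * jj a + 1)) := by ring
      rw [e1, hV a _ R hR hr, mul_zero]
  have hinj' : ∀ x : ℕ, (((Icc 1 (8 * x)).filter
      (fun N => N % (α0 * Q) = (α0 * n1 + β0) % (α0 * Q) ∧ coeff N (Dsum J) = 1)).card : ℕ) ≤
      ((range (x + 1)).filter fun n => n % 2 ^ e = ρ % 2 ^ e ∧ gM c al jj n = 1).card +
        (α0 * n1 + β0) := by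
    intro x
    have hsub : (Icc 1 (8 * x)).filter (fun N => N % (α0 * Q) = (α0 * n1 + β0) % (α0 * Q) ∧
        coeff N (Dsum J) = 1) ⊆
        (((range (x + 1)).filter fun n => n % 2 ^ e = ρ % 2 ^ e ∧ gM c al jj n = 1).image
          fun n => α0 * n + β0) ∪ range (α0 * n1 + β0) := by
      intro N hN
      rw [mem_filter, mem_Icc] at hN
      obtain ⟨⟨hN1, hN2⟩, hN3, hN4⟩ := hN
      rw [mem_union, mem_range, mem_image]
      by_cases hlt : N < α0 * n1 + β0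
      · exact Or.inr hlt
      · left
        push Not at hlt
        have hm : (α0 * n1 + β0) ≡ N [MOD (α0 * Q)] := Nat.ModEq.symm hN3
        obtain ⟨z, hz⟩ := (Nat.modEq_iff_dvd' hlt).1 hm
        have hNe : N = α0 * (n1 + Q * z) + β0 := by
          have : N = α0 * n1 + β0 + α0 * Q * z := by omega
          rw [this]
          ring
        have hcl : n1 + Q * z ≡ n1 [MOD Q] := by
          unfold Nat.ModEq
          exact Nat.add_mul_mod_self_left _ _ _
        refine ⟨n1 + Q * z, ?_, hNe.symm⟩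
        rw [mem_filter, mem_range]
        refine ⟨?_, ?_, ?_⟩
        · have e1 : 8 * (n1 + Q * z) ≤ α0 * (n1 + Q * z) := Nat.mul_le_mul_right _ hα08
          omega
        · exact (hcl.of_dvd g2).trans g3
        · apply hval _ hcl
          rw [← hNe]
          exact hN4
    calc _ ≤ _ := card_le_card hsub
      _ ≤ _ := card_union_le _ _
      _ ≤ _ := by
        rw [card_range]
        exact Nat.add_le_add_right card_image_le _
  set B : ℕ := α0 * n1 + β0 with hB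
  obtain ⟨X2, hX2⟩ := exists_nat_gt (((B : ℝ) / δ) ^ 2)
  obtain ⟨X3, hX3⟩ := hw.pos
  obtain ⟨X4, hX4⟩ := hw.small 1 one_pos
  refine ⟨δ, hδ, max (max X1 X2) (max (max X3 X4) 3), fun x hx => ?_⟩
  simp only [max_le_iff] at hx
  obtain ⟨⟨hx1, hx2⟩, ⟨hx3, hx4⟩, hx5⟩ := hx
  have hxr : (0 : ℝ) < x := by
    have : 0 < x := by omega
    exact_mod_cast this
  obtain ⟨w1, w2⟩ := hX3 x hx3
  obtain ⟨w3, -⟩ := hX3 (8 * x) (by omega)
  have w4 := hX4 x hx4
  rw [one_mul] at w4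
  have e1 := hX1 (8 * x) (by omega)
  have e2 : (((Icc 1 (8 * x)).filter (fun N => N % (α0 * Q) = B % (α0 * Q) ∧
      coeff N (Dsum J) = 1)).card : ℝ) ≤
      (((range (x + 1)).filter fun n => n % 2 ^ e = ρ % 2 ^ e ∧ gM c al jj n = 1).card : ℝ) + B := by
    exact_mod_cast hinj' x
  have e5 : (B : ℝ) ≤ δ * Real.sqrt x := by
    have h3 : ((B : ℝ) / δ) ^ 2 ≤ x := hX2.le.trans (by exact_mod_cast hx2)
    have h4 : (B : ℝ) / δ ≤ Real.sqrt x := Real.le_sqrt_of_sq_le h3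
    rw [div_le_iff₀ hδ] at h4
    linarith
  have e6 : Real.sqrt x ≤ x / wK K x := by
    rw [le_div_iff₀ w1]
    have h6 : Real.sqrt (x : ℝ) * Real.sqrt x = x := Real.mul_self_sqrt hxr.le
    nlinarith [Real.sqrt_nonneg (x : ℝ)]
  have e7 : 4 * (δ * (x / wK K x)) ≤ δ * ((8 * x : ℕ) : ℝ) / wK K (8 * x) := by
    have : 4 * (δ * (x / wK K x)) = (4 * δ * x) / wK K x := by ring
    rw [this, div_le_div_iff₀ w1 w3]
    push_cast
    have h9 : 4 * δ * x * wK K (8 * x) ≤ 4 * δ * x * (2 * wK K x) := by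
      apply mul_le_mul_of_nonneg_left w2
      positivity
    linarith
  have e8 : δ * x / wK K x = δ * (x / wK K x) := by ring
  rw [e8]
  have e10 : δ * Real.sqrt x ≤ δ * (x / wK K x) := mul_le_mul_of_nonneg_left e6 hδ.le
  have e11 : 0 ≤ δ * (x / wK K x) := by positivity
  linarith

end Pool.Agent.Run7.h175.JM
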