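import Pool.Agent.Run7.h175.JM2

set_option autoImplicit false

/-! Joint patterns of several series at the dilates `2 ^ s n`: transfer to the sequences
(after the starting files `N493/PE3` and `N493/PE4`). -/

namespace Pool.Agent.Run7.h175.JM

open Finset PowerSeries
open Pool.Agent.R836.PP Pool.Agent.N493.PE
open Pool.Agent.H397R2.PP Pool.Agent.H397R2.PP.TH Pool.Agent.H307R2.OP
open Pool.Agent.N493.PD (Ft)

/-- the joint pattern of several sequences at the places `2 ^ (al a) n + i` -/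
noncomputable def wM {ι : Type} [Fintype ι] {L : ℕ} (c : ι → Fin (L + 1) → ZMod 2) (al : ι → ℕ)
    (φ : ι → ℕ → ZMod 2) (n : ℕ) : ZMod 2 :=
  ∑ a : ι, ∑ i : Fin (L + 1), c a i * φ a (2 ^ al a * n + i)

/-- the dilated set -/
def Sd2 (T : ℕ → Prop) (a n : ℕ) : Prop := ∃ s, n = 2 ^ a * s ∧ T s

open Classical in
theorem cntF_dilate2 (T : ℕ → Prop) (a n i : ℕ)
    (h : ∀ s, T s → n < s → ¬ 2 ^ a * s ≤ 2 ^ a * n + i) :
    cntF (Sd2 T a) (2 ^ a * n + i) = (cntF T n).image fun s => 2 ^ a * s := by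
  have h4 : 0 < 2 ^ a := by positivity
  ext b
  unfold cntF Sd2
  simp only [mem_filter, mem_range, mem_image]
  constructor
  · rintro ⟨h1, s, rfl, hs⟩
    refine ⟨s, ⟨?_, hs⟩, rfl⟩
    by_contra hcon
    exact h s hs (by omega) (by omega)
  · rintro ⟨s, ⟨h1, hs⟩, rfl⟩
    have : 2 ^ a * s ≤ 2 ^ a * n := Nat.mul_le_mul_left _ (by omega)
    exact ⟨by omega, s, rfl, hs⟩

open Classical in
/-- the sum of the joint pattern over the shifts by elements of `T` -/
theorem sum_shiftM {ι : Type} [Fintype ι] {L : ℕ} (c : ι → Fin (L + 1) → ZMod 2) (T : ℕ → Prop)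
    (al jj : ι → ℕ) (F E : ι → (ZMod 2)⟦X⟧)
    (hE : ∀ a n, coeff n (E a) = if Sd2 T (al a) n then 1 else 0)
    (hFE : ∀ a n, coeff n (F a * E a) =
      coeff (8 * n + (2 * jj a + 1)) ((Db : (ZMod 2)⟦X⟧) ^ (2 * jj a + 1))) (n : ℕ)
    (hbad : ¬ ∃ s, T s ∧ n < s ∧ s ≤ n + L) :
    ∑ s ∈ cntF T n, wM c al (fun a m => coeff m (F a)) (n - s) = gM c al jj n := by
  unfold wM gM
  rw [Finset.sum_comm]
  refine Finset.sum_congr rfl fun a _ => ?_
  rw [Finset.sum_comm]
  refine Finset.sum_congr rfl fun i _ => ?_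
  rw [← Finset.mul_sum, ← hFE, coeff_eq_sum (Sd2 T (al a)) (F a) (E a) (hE a)]
  congr 1
  rw [cntF_dilate2 T (al a) n i]
  · rw [Finset.sum_image]
    · refine Finset.sum_congr rfl fun s hs => ?_
      unfold cntF at hs
      rw [mem_filter, mem_range] at hs
      congr 1
      have e1 : 2 ^ al a * n = 2 ^ al a * (n - s) + 2 ^ al a * s := by
        rw [← mul_add]
        congr 1
        omega
      omega
    · intro s _ s' _ h
      exact Nat.eq_of_mul_eq_mul_left (show 0 < 2 ^ al a by positivity) h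
  · intro s hs hns h
    apply hbad
    refine ⟨s, hs, hns, ?_⟩
    have hi : (i : ℕ) ≤ L := Nat.lt_succ_iff.1 i.2
    have h1 : 1 ≤ 2 ^ al a := Nat.one_le_pow _ _ (by norm_num)
    obtain ⟨d, rfl⟩ : ∃ d, s = n + d := ⟨s - n, by omega⟩
    rw [mul_add] at h
    have h2 : 2 ^ al a * d ≤ i := by omega
    have h3 : d ≤ 2 ^ al a * d := Nat.le_mul_of_pos_left _ (by omega)
    omega

open Classical in
/-- the places where the joint pattern is `1` -/
noncomputable def valsM {ι : Type} [Fintype ι] {L : ℕ} (c : ι → Fin (L + 1) → ZMod 2) (al : ι → ℕ)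
    (φ : ι → ℕ → ZMod 2) (m ρ x : ℕ) : Finset ℕ :=
  (range (x + 1)).filter fun n => n % m = ρ % m ∧ wM c al φ n = 1

open Classical in
theorem transferM {ι : Type} [Fintype ι] {L : ℕ} (c : ι → Fin (L + 1) → ZMod 2) (T : ℕ → Prop)
    (al jj : ι → ℕ) (F E : ι → (ZMod 2)⟦X⟧)
    (hE : ∀ a n, coeff n (E a) = if Sd2 T (al a) n then 1 else 0)
    (hFE : ∀ a n, coeff n (F a * E a) =
      coeff (8 * n + (2 * jj a + 1)) ((Db : (ZMod 2)⟦X⟧) ^ (2 * jj a + 1))) (m : ℕ)
    (hS : ∀ n, T n → m ∣ n) (ρ x : ℕ) :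
    ((range (x + 1)).filter fun n => n % m = ρ % m ∧ gM c al jj n = 1).card ≤
      ((valsM c al (fun a n => coeff n (F a)) m ρ x).card + L) * (cntF T (x + L)).card := by
  set V := valsM c al (fun a n => coeff n (F a)) m ρ x with hV
  set Gd := (range (x + 1)).filter fun n => n % m = ρ % m ∧ gM c al jj n = 1 with hGd
  have h1 : Gd.card ≤ (Gd \ bad T L x).card + (bad T L x).card := by
    rw [← Finset.card_sdiff_add_card_inter Gd (bad T L x)]
    exact Nat.add_le_add_left (card_le_card inter_subset_right) _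
  have hex : ∀ n ∈ Gd \ bad T L x, ∃ s ∈ cntF T n,
      wM c al (fun a m => coeff m (F a)) (n - s) = 1 := by
    intro n hn
    rw [mem_sdiff, hGd, mem_filter] at hn
    obtain ⟨⟨hn1, hn2, hn3⟩, hn4⟩ := hn
    have hb : ¬ ∃ s, T s ∧ n < s ∧ s ≤ n + L := by
      intro h
      apply hn4
      unfold bad
      rw [mem_filter]
      exact ⟨hn1, h⟩
    by_contra hcon
    push Not at hcon
    have h2 := sum_shiftM c T al jj F E hE hFE n hb
    rw [hn3, Finset.sum_eq_zero] at h2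
    · exact zero_ne_one h2
    · intro s hs
      rcases zmod_two (wM c al (fun a m => coeff m (F a)) (n - s)) with h | h
      · exact h
      · exact absurd h (hcon s hs)
  choose! b hb1 hb2 using hex
  have h2 : (Gd \ bad T L x).card ≤ (V ×ˢ cntF T (x + L)).card := by
    apply card_le_card_of_injOn (fun n => (n - b n, b n))
    · intro n hn
      have hn' := hn
      rw [mem_coe] at hn'
      have e1 := hb1 n hn'
      have e2 := hb2 n hn'
      unfold cntF at e1
      rw [mem_filter, mem_range] at e1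
      rw [mem_sdiff, hGd, mem_filter, mem_range] at hn'
      obtain ⟨⟨hn1, hn2, -⟩, -⟩ := hn'
      rw [mem_coe, mem_product]
      constructor
      · simp only [hV]
        unfold valsM
        rw [mem_filter, mem_range]
        refine ⟨by omega, ?_, e2⟩
        obtain ⟨t, ht⟩ := hS _ e1.2
        have e3 : n - b n + m * t = n := by omega
        have e4 : (n - b n) % m = n % m := by
          calc (n - b n) % m = (n - b n + m * t) % m := (Nat.add_mul_mod_self_left _ _ _).symm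
            _ = n % m := by rw [e3]
        rw [e4]
        exact hn2
      · simp only
        unfold cntF
        rw [mem_filter, mem_range]
        exact ⟨by omega, e1.2⟩
    · intro n hn n' hn' h
      rw [mem_coe] at hn hn'
      have e1 := hb1 n hn
      have e1' := hb1 n' hn'
      unfold cntF at e1 e1'
      rw [mem_filter, mem_range] at e1 e1'
      simp only [Prod.mk.injEq] at h
      omega
  rw [card_product] at h2
  have h3 := bad_card T L x
  calc Gd.card ≤ _ := h1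
    _ ≤ V.card * (cntF T (x + L)).card + L * (cntF T (x + L)).card := Nat.add_le_add h2 h3
    _ = (V.card + L) * (cntF T (x + L)).card := by ring

/-- the power `tm - tp` of `∏ (1 - X ^ i)` modulo 2 -/
noncomputable def Fz (tp tm : ℕ) : (ZMod 2)⟦X⟧ := Ft tp * pentagonalSeries (ZMod 2) ^ tm

theorem Fz_mul (tp tm N s : ℕ) (h : tp + s = tm + N) :
    Fz tp tm * pentagonalSeries (ZMod 2) ^ N = pentagonalSeries (ZMod 2) ^ s := by
  unfold Fz
  rw [mul_assoc, ← pow_add]
  exact pow_eq tp s (tm + N) h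

theorem Sx_dilate2 (P : ℕ → Prop) (e a n : ℕ) : Sx (2 ^ (a + e)) P n ↔ Sd2 (Sx (2 ^ e) P) a n := by
  unfold Sx Sd2
  constructor
  · rintro ⟨k, rfl, hk⟩
    exact ⟨2 ^ e * k, by rw [pow_add]; ring, k, rfl, hk⟩
  · rintro ⟨s, rfl, k, rfl, hk⟩
    exact ⟨k, by rw [pow_add]; ring, hk⟩

/-- the counting theorem with an abstract sparse set -/
theorem joint_ofM {ι : Type} [Fintype ι] {L : ℕ} (b K e ε : ℕ) (al tp tm jj : ι → ℕ)
    (hbe : b ≤ e) (hj : ∀ a, tp a + 3 * (2 * jj a + 1) = tm a + 2 ^ (al a + e) * ε)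
    (hinj : ∀ a a', al a = al a' → jj a = jj a' → a = a')
    (hK : ∀ a, 4 ^ (K + 1) ≤ jj a) (T : ℕ → Prop)
    (hE : ∀ s n, (Sd2 T s n → coeff n (pentagonalSeries (ZMod 2) ^ (2 ^ (s + e) * ε)) = 1) ∧
      (¬ Sd2 T s n → coeff n (pentagonalSeries (ZMod 2) ^ (2 ^ (s + e) * ε)) = 0))
    (hS : ∀ n, T n → 2 ^ e ∣ n)
    (hC : ∀ X, ((cntF T X).card : ℝ) ≤ 5 * (Real.sqrt X + 1))
    (c : ι → Fin (L + 1) → ZMod 2) (hc : c ≠ 0) (ρ : ℕ) :
    ∃ X0 : ℕ, ∀ x : ℕ, X0 ≤ x →
      Real.sqrt x * (Real.log (Real.log x)) ^ K / Real.log x ≤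
      ((valsM c al (fun a n => coeff n (Fz (tp a) (tm a))) (2 ^ b) ρ x).card : ℝ) := by
  classical
  set φ : ι → ℕ → ZMod 2 := fun a n => coeff n (Fz (tp a) (tm a)) with hφ
  set H : ℕ := (univ : Finset ι).sup (fun a => cont (jj a)) + 1 with hH
  have hE' : ∀ a n, coeff n (pentagonalSeries (ZMod 2) ^ (2 ^ (al a + e) * ε)) =
      if Sd2 T (al a) n then 1 else 0 := by
    intro a n
    by_cases h : Sd2 T (al a) n
    · rw [if_pos h, (hE (al a) n).1 h]
    · rw [if_neg h, (hE (al a) n).2 h]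
  have hFE : ∀ a n, coeff n (Fz (tp a) (tm a) * pentagonalSeries (ZMod 2) ^ (2 ^ (al a + e) * ε)) =
      coeff (8 * n + (2 * jj a + 1)) ((Db : (ZMod 2)⟦X⟧) ^ (2 * jj a + 1)) := by
    intro a n
    rw [Fz_mul _ _ _ _ (hj a)]
    exact coeff_Db_pow _ _
  have hV : ∀ a : ι, Vanish H ((Db : (ZMod 2)⟦X⟧) ^ (2 * jj a + 1)) := by
    intro a N R hR h
    refine coeff_vanish H _ (NIL.WW_mem ?_) N R hR h
    rw [hH]
    exact Nat.lt_succ_of_le (Finset.le_sup (f := fun a => cont (jj a)) (mem_univ a))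
  obtain ⟨δ1, hδ1, X1, hX1⟩ := lower (K + 1) e H al jj hinj
    (fun a => le_cont (hK a)) hV c hc ρ
  have t1 : ∀ x, ((range (x + 1)).filter fun n => n % 2 ^ e = ρ % 2 ^ e ∧
      gM c al jj n = 1).card ≤ ((valsM c al φ (2 ^ e) ρ x).card + L) * (cntF T (x + L)).card :=
    fun x => transferM c T al jj _ _ hE' hFE (2 ^ e) hS ρ x
  obtain ⟨Xw, hXw⟩ := (wt_wK (K + 1)).pos
  have s1 : ∃ X3 : ℕ, ∀ x : ℕ, X3 ≤ x →
      (δ1 / (6 * 5)) * Real.sqrt x / wK (K + 1) x ≤
        ((valsM c al φ (2 ^ e) ρ x).card : ℝ) := by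
    apply step_div L 5 (by norm_num) (fun X => (cntF T X).card) hC
      (fun x => ((range (x + 1)).filter fun n => n % 2 ^ e = ρ % 2 ^ e ∧ gM c al jj n = 1).card)
      (fun x => (valsM c al φ (2 ^ e) ρ x).card) t1 δ1 hδ1 (wK (K + 1)) _ X1 hX1
    obtain ⟨X4, hX4⟩ := (wt_wK (K + 1)).small (6 * 5 * L / δ1 + 1) (by positivity)
    refine ⟨max Xw X4, fun x hx => ?_⟩
    have hp := (hXw x (le_trans (le_max_left _ _) hx)).1
    refine ⟨hp, ?_⟩
    have := hX4 x (le_trans (le_max_right _ _) hx)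
    nlinarith
  obtain ⟨X3, hX3⟩ := s1
  set δ := δ1 / (6 * 5) with hδdef
  have hδ : 0 < δ := by positivity
  obtain ⟨X5, hX5⟩ := ev_loglog (max 1 (1 / δ))
  refine ⟨max X3 X5, fun x hx => ?_⟩
  have h1 := hX3 x (le_trans (le_max_left _ _) hx)
  have h2 := hX5 x (le_trans (le_max_right _ _) hx)
  rw [max_le_iff] at h2
  have h3 := log_pos_of (x := x) (by linarith [h2.1])
  have h0 : ((valsM c al φ (2 ^ e) ρ x).card : ℝ) ≤ ((valsM c al φ (2 ^ b) ρ x).card : ℝ) := by
    have : (valsM c al φ (2 ^ e) ρ x).card ≤ (valsM c al φ (2 ^ b) ρ x).card := by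
      apply card_le_card
      intro n hn
      unfold valsM at hn ⊢
      rw [mem_filter] at hn ⊢
      obtain ⟨h4, h5, h6⟩ := hn
      have e1 : n ≡ ρ [MOD 2 ^ e] := h5
      exact ⟨h4, e1.of_dvd (pow_dvd_pow 2 hbe), h6⟩
    exact_mod_cast this
  refine le_trans ?_ (h1.trans h0)
  unfold wK
  have h4 : 1 ≤ δ * Real.log (Real.log x) := by
    have := h2.2
    rw [div_le_iff₀ hδ] at this
    linarith
  have h5 : δ * Real.sqrt x / (Real.log x / Real.log (Real.log x) ^ (K + 1)) =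
      (Real.sqrt x * (Real.log (Real.log x)) ^ K / Real.log x) * (δ * Real.log (Real.log x)) := by
    rw [pow_succ]
    field_simp
  rw [h5]
  apply le_mul_of_one_le_right _ h4
  have : 0 < Real.log (Real.log x) := by linarith [h2.1]
  positivity

end Pool.Agent.Run7.h175.JM
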