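import Pool.Agent.Run7.h175.JM3
import Pool.Agent.N493.PE5

set_option autoImplicit false

/-! Joint patterns of several series at the dilates `2 ^ s n` against bounded-memory predictors
(after the starting files `N493/PE4` and `N493/PE5`). -/

namespace Pool.Agent.Run7.h175.JM

open Finset PowerSeries
open Pool.Agent.R836.PP Pool.Agent.N493.PE
open Pool.Agent.H397R2.PP Pool.Agent.H397R2.PP.TH Pool.Agent.H307R2.OP
open Pool.Agent.N493.PD

theorem exists_one (al tp tm e ε K : ℕ) (he : tp + 2 * K + 10 ≤ al + e) (hε : ε = 1 ∨ ε = 3)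
    (h2 : (tp + tm) % 2 = 1) (h3 : (tm + 2 ^ (al + e) * ε) % 3 = tp % 3) :
    ∃ j : ℕ, tp + 3 * (2 * j + 1) = tm + 2 ^ (al + e) * ε ∧ 4 ^ K ≤ j := by
  have hb := big tp K (al + e) he
  have hev : 2 ^ (al + e) % 2 = 0 := by
    have : al + e = (al + e - 1) + 1 := by omega
    rw [this, pow_succ]
    omega
  set Z : ℕ := 2 ^ (al + e) with hZ
  rcases hε with rfl | rfl
  · refine ⟨((tm + Z * 1 - tp) / 3 - 1) / 2, ?_, ?_⟩
    · omega
    · omega
  · refine ⟨((tm + Z * 3 - tp) / 3 - 1) / 2, ?_, ?_⟩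
    · omega
    · omega

theorem exists_eM {ι : Type} [Fintype ι] (b K r : ℕ) (al tp tm : ι → ℕ)
    (hodd : ∀ a, (tp a + tm a) % 2 = 1)
    (hr : ∀ a, (2 ^ al a * tp a) % 3 = (2 ^ al a * tm a + r) % 3) :
    ∃ e ε : ℕ, ∃ jj : ι → ℕ, b ≤ e ∧ (ε = 1 ∨ ε = 3) ∧
      (∀ a, tp a + 3 * (2 * jj a + 1) = tm a + 2 ^ (al a + e) * ε) ∧ ∀ a, 4 ^ K ≤ jj a := by
  classical
  set f : ℕ := b + (∑ a, tp a) + 2 * K + 10 with hf
  have hft : ∀ a, tp a + 2 * K + 10 ≤ f := by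
    intro a
    have := Finset.single_le_sum (f := tp) (fun _ _ => Nat.zero_le _) (mem_univ a)
    omega
  have hu : ∀ n : ℕ, 2 ^ n % 3 = 1 ∨ 2 ^ n % 3 = 2 := by
    intro n
    induction n with
    | zero => left; norm_num
    | succ n ih =>
      rw [pow_succ]
      omega
  have hr' : ∀ a, ((2 ^ al a % 3) * (tp a % 3)) % 3 =
      (((2 ^ al a % 3) * (tm a % 3)) % 3 + r % 3) % 3 := by
    intro a
    have := hr a
    rwa [Nat.mul_mod, Nat.add_mod, Nat.mul_mod (2 ^ al a) (tm a)] at this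
  have main : ∀ e ε : ℕ, f ≤ e → (ε = 1 ∨ ε = 3) →
      (∀ a, (tm a + 2 ^ (al a + e) * ε) % 3 = tp a % 3) →
      ∃ e ε : ℕ, ∃ jj : ι → ℕ, b ≤ e ∧ (ε = 1 ∨ ε = 3) ∧
      (∀ a, tp a + 3 * (2 * jj a + 1) = tm a + 2 ^ (al a + e) * ε) ∧ ∀ a, 4 ^ K ≤ jj a := by
    intro e ε he hε h
    choose jj h1 h2 using fun a => exists_one (al a) (tp a) (tm a) e ε K
      (by have := hft a; omega) hε (hodd a) (h a)
    exact ⟨e, ε, jj, by omega, hε, h1, h2⟩
  have h4 : 2 ^ (2 * f) % 3 = 1 := by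
    rw [pow_mul, Nat.pow_mod]
    norm_num
  have h5 : 2 ^ (2 * f + 1) % 3 = 2 := by
    rw [pow_succ]
    omega
  have h3 : r % 3 = 0 ∨ r % 3 = 1 ∨ r % 3 = 2 := by omega
  rcases h3 with h3 | h3 | h3
  · refine main f 3 le_rfl (Or.inr rfl) fun a => ?_
    have h1 := hr' a
    rw [h3] at h1
    rcases hu (al a) with h | h
    · rw [h] at h1; omega
    · rw [h] at h1; omega
  · refine main (2 * f) 1 (by omega) (Or.inl rfl) fun a => ?_
    have h1 := hr' a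
    rw [h3] at h1
    have h6 : 2 ^ (al a + 2 * f) % 3 = ((2 ^ al a % 3) * 1) % 3 := by
      rw [pow_add, Nat.mul_mod, h4]
    rcases hu (al a) with h | h
    · rw [h] at h1 h6; omega
    · rw [h] at h1 h6; omega
  · refine main (2 * f + 1) 1 (by omega) (Or.inl rfl) fun a => ?_
    have h1 := hr' a
    rw [h3] at h1
    have h6 : 2 ^ (al a + (2 * f + 1)) % 3 = ((2 ^ al a % 3) * 2) % 3 := by
      rw [pow_add, Nat.mul_mod, h5]
    rcases hu (al a) with h | h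
    · rw [h] at h1 h6; omega
    · rw [h] at h1 h6; omega

/-- **joint linear patterns of the values of several series at the dilates `2 ^ s n`** -/
theorem joint_allM {ι : Type} [Fintype ι] {L : ℕ} (b K r : ℕ) (al tp tm : ι → ℕ)
    (hodd : ∀ a, (tp a + tm a) % 2 = 1)
    (hr : ∀ a, (2 ^ al a * tp a) % 3 = (2 ^ al a * tm a + r) % 3)
    (hinj : ∀ a a', al a = al a' → tp a + tm a' = tp a' + tm a → a = a')
    (c : ι → Fin (L + 1) → ZMod 2) (hc : c ≠ 0) (ρ : ℕ) :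
    ∃ X0 : ℕ, ∀ x : ℕ, X0 ≤ x →
      Real.sqrt x * (Real.log (Real.log x)) ^ K / Real.log x ≤
      ((valsM c al (fun a n => coeff n (Fz (tp a) (tm a))) (2 ^ b) ρ x).card : ℝ) := by
  classical
  obtain ⟨e, ε, jj, hbe, hε, hj, hK⟩ := exists_eM b (K + 1) r al tp tm hodd hr
  have hm : 0 < 2 ^ e := by positivity
  have hinj' : ∀ a a', al a = al a' → jj a = jj a' → a = a' := by
    intro a a' h1 h2
    apply hinj a a' h1
    have e1 := hj a
    have e2 := hj a'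
    rw [h1, h2] at e1
    omega
  rcases hε with rfl | rfl
  · refine joint_ofM b K e 1 al tp tm jj hbe hj hinj' hK (Sx (2 ^ e) isPent) ?_ (fun n hn => by
      obtain ⟨k, hk, -⟩ := hn
      exact ⟨k, hk⟩) (cnt_bound isPent _ 24 hm (by norm_num) le_rfl pent_iff) c hc ρ
    intro s n
    rw [mul_one, pent_eq, pow_Sx]
    have h := coeff_Sx (2 ^ (s + e)) isPent n
    rw [Sx_dilate2] at h
    exact h
  · refine joint_ofM b K e 3 al tp tm jj hbe hj hinj' hK (Sx (2 ^ e) isTri) ?_ (fun n hn => by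
      obtain ⟨k, hk, -⟩ := hn
      exact ⟨k, hk⟩) (cnt_bound isTri _ 8 hm (by norm_num) (by norm_num) tri_iff) c hc ρ
    intro s n
    rw [mul_comm, pow_mul, pent_eq, ← psi_eq, pow_Sx]
    have h := coeff_Sx (2 ^ (s + e)) isTri n
    rw [Sx_dilate2] at h
    exact h

/-- the difference of the values of a joint pattern at `N + r` and `N + r'` is a nonzero joint
pattern at `N` -/
theorem exists_diffM {ι : Type} [Fintype ι] {L : ℕ} (al : ι → ℕ) (A : ℕ) (hA : ∀ a, al a ≤ A)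
    (c : ι → Fin (L + 1) → ZMod 2) (hc : c ≠ 0) (k r r' : ℕ)
    (hr : r < 2 ^ k) (hr' : r' < 2 ^ k) (hne : r ≠ r') :
    ∃ c' : ι → Fin (2 ^ A * 2 ^ k + L + 1) → ZMod 2, c' ≠ 0 ∧
      ∀ (φ : ι → ℕ → ZMod 2) (n : ℕ),
        wM c' al φ n = wM c al φ (n + r) + wM c al φ (n + r') := by
  classical
  have h : ∀ a : ι, ∃ c' : Fin (2 ^ A * 2 ^ k + L + 1) → ZMod 2, (c a ≠ 0 → c' ≠ 0) ∧
      ∀ (φ : ℕ → ZMod 2) (n : ℕ), ∑ i : Fin (2 ^ A * 2 ^ k + L + 1), c' i * φ (n + i) =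
        (∑ i : Fin (L + 1), c a i * φ (n + 2 ^ al a * r + i)) +
          ∑ i : Fin (L + 1), c a i * φ (n + 2 ^ al a * r' + i) := by
    intro a
    by_cases hca : c a = 0
    · refine ⟨0, fun h => absurd hca h, fun φ n => ?_⟩
      simp [hca]
    · have h4 : 0 < 2 ^ al a := by positivity
      have h5 : 2 ^ al a ≤ 2 ^ A := Nat.pow_le_pow_right (by norm_num) (hA a)
      have hb : ∀ s, s < 2 ^ k → 2 ^ al a * s < 2 ^ A * 2 ^ k := by
        intro s hs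
        calc 2 ^ al a * s < 2 ^ al a * 2 ^ k := Nat.mul_lt_mul_of_pos_left hs h4
          _ ≤ 2 ^ A * 2 ^ k := Nat.mul_le_mul_right _ h5
      obtain ⟨c', h1, h2⟩ := exists_diff (c a) hca (2 ^ A * 2 ^ k) (2 ^ al a * r)
        (2 ^ al a * r') (hb r hr) (hb r' hr') (fun h => hne (Nat.eq_of_mul_eq_mul_left h4 h))
      exact ⟨c', fun _ => h1, h2⟩
  choose c' hc'1 hc'2 using h
  refine ⟨c', ?_, ?_⟩
  · intro h0
    apply hc
    funext a
    by_contra hca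
    exact hc'1 a hca (congrFun h0 a)
  · intro φ n
    unfold wM
    rw [← Finset.sum_add_distrib]
    refine Finset.sum_congr rfl fun a _ => ?_
    rw [hc'2 a (φ a) (2 ^ al a * n), mul_add, mul_add]

/-- **joint patterns against bounded-memory predictors** -/
theorem mainM {ι : Type} [Fintype ι] (r b L R Q K : ℕ) (al tp tm : ι → ℕ)
    (hodd : ∀ a, (tp a + tm a) % 2 = 1)
    (hr : ∀ a, (2 ^ al a * tp a) % 3 = (2 ^ al a * tm a + r) % 3)
    (hinj : ∀ a a', al a = al a' → tp a + tm a' = tp a' + tm a → a = a') :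
    ∃ X0 : ℕ, ∀ (c : ι → Fin (L + 1) → ZMod 2), c ≠ 0 → ∀ v : Fin R → ℕ → ZMod 2,
      (∀ z, OnePass Q (v z)) → ∀ (Φ : (Fin R → ZMod 2) → ZMod 2) (ρ : ℕ) (κ : ZMod 2) (x : ℕ),
      X0 ≤ x →
        Real.sqrt x * (Real.log (Real.log x)) ^ K / Real.log x ≤
          (((range (x + 1)).filter fun n => n % 2 ^ b = ρ % 2 ^ b ∧
            wM c al (fun a n => coeff n (Fz (tp a) (tm a))) n + Φ (fun z => v z n) = κ).card : ℝ) := by
  classical
  set φ : ι → ℕ → ZMod 2 := fun a n => coeff n (Fz (tp a) (tm a)) with hφ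
  set A : ℕ := (univ : Finset ι).sup al with hA
  set T := Fin R → Fin Q ⊕ (Fin Q → ZMod 2) with hT
  set k := b + Fintype.card T with hk
  have h1 : ∀ c' : ι → Fin (2 ^ A * 2 ^ k + L + 1) → ZMod 2, ∃ X0 : ℕ, c' ≠ 0 →
      ∀ x : ℕ, X0 ≤ x → Real.sqrt x * (Real.log (Real.log x)) ^ (K + 1) / Real.log x ≤
      ((valsM c' al φ (2 ^ k) 0 x).card : ℝ) := by
    intro c'
    by_cases hc' : c' = 0
    · exact ⟨0, fun h => absurd hc' h⟩
    · obtain ⟨X0, hX0⟩ := joint_allM k (K + 1) r al tp tm hodd hr hinj c' hc' 0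
      exact ⟨X0, fun _ => hX0⟩
  choose X0 hX0 using h1
  obtain ⟨X1, hX1⟩ := ev_absorb K ((2 ^ k + 1 : ℕ) : ℝ)
  refine ⟨max (Finset.univ.sup X0) X1, fun c hc v hv Φ ρ κ x hx => ?_⟩
  rw [max_le_iff] at hx
  choose τ hτ using fun z => (hv z).types k
  have hcard : Fintype.card T < Fintype.card (Fin (2 ^ Fintype.card T)) := by
    rw [Fintype.card_fin]
    exact Nat.lt_two_pow_self
  obtain ⟨i, j, hij, e⟩ := Fintype.exists_ne_map_eq_of_card_lt
    (fun i : Fin (2 ^ Fintype.card T) => (fun z => τ z (ρ % 2 ^ b + 2 ^ b * (i : ℕ)) : T)) hcard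
  have hb : 0 < 2 ^ b := by positivity
  have hlt : ∀ i : Fin (2 ^ Fintype.card T), ρ % 2 ^ b + 2 ^ b * (i : ℕ) < 2 ^ k := by
    intro i
    have h1 := Nat.mod_lt ρ hb
    have h2 := i.2
    have h3 : 2 ^ k = 2 ^ b * 2 ^ Fintype.card T := by rw [hk, pow_add]
    rw [h3]
    calc ρ % 2 ^ b + 2 ^ b * (i : ℕ) < 2 ^ b + 2 ^ b * (i : ℕ) := by omega
      _ = 2 ^ b * ((i : ℕ) + 1) := by ring
      _ ≤ 2 ^ b * 2 ^ Fintype.card T := Nat.mul_le_mul_left _ h2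
  have hmod : ∀ i : ℕ, (ρ % 2 ^ b + 2 ^ b * i) % 2 ^ b = ρ % 2 ^ b := by
    intro i
    rw [Nat.add_mul_mod_self_left, Nat.mod_mod]
  have hne : ρ % 2 ^ b + 2 ^ b * (i : ℕ) ≠ ρ % 2 ^ b + 2 ^ b * (j : ℕ) := by
    intro h
    apply hij
    have h2 : 2 ^ b * (i : ℕ) = 2 ^ b * (j : ℕ) := by omega
    exact Fin.ext (Nat.eq_of_mul_eq_mul_left hb h2)
  obtain ⟨c', hc'0, hc'⟩ := exists_diffM al A (fun a => Finset.le_sup (f := al) (mem_univ a)) c hc k
    _ _ (hlt i) (hlt j) hne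
  have h2 := hX0 c' hc'0 x ((Finset.le_sup (mem_univ c')).trans hx.1)
  have h3 := count_pair' (wM c al φ) (wM c' al φ)
    (2 ^ k) (2 ^ b) _ _ (pow_dvd_pow 2 (by omega)) (hlt i) (hlt j) ρ (hmod _) (hmod _)
    (fun n => hc' _ _) (fun n => Φ fun z => v z n) (fun n hn => by
      have : ∀ z, v z (2 ^ k * n + (ρ % 2 ^ b + 2 ^ b * (i : ℕ))) =
          v z (2 ^ k * n + (ρ % 2 ^ b + 2 ^ b * (j : ℕ))) := fun z =>
        hτ z _ _ (hlt i) (hlt j) (congrFun e z) n hn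
      simp only [this]) κ x
  apply hX1 x hx.2
  refine h2.trans ?_
  have h4 : (valsM c' al φ (2 ^ k) 0 x).card =
      ((range (x + 1)).filter fun n => n % 2 ^ k = 0 % 2 ^ k ∧ wM c' al φ n = 1).card := by
    unfold valsM
    congr 1
  rw [h4]
  exact_mod_cast h3

end Pool.Agent.Run7.h175.JM
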