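import Pool.Agent.Run7.h175.JM4

set_option autoImplicit false

/-! Joint patterns of several series, also for even exponents: passage to subprogressions. -/

namespace Pool.Agent.Run7.h175.JM

open Finset PowerSeries
open Pool.Agent.R836.PP Pool.Agent.N493.PE
open Pool.Agent.H397R2.PP Pool.Agent.H397R2.PP.TH Pool.Agent.H307R2.OP
open Pool.Agent.N493.PD

/-- re-indexing of a window on the class `ρ` modulo `2 ^ k` -/
theorem reidx (L L' v s k ρ m : ℕ) (hvk : v ≤ k) (hL' : 2 ^ s * ρ + L ≤ L') (C ψ : ℕ → ZMod 2) :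
    ∑ i' ∈ range (L' + 1),
      (if 2 ^ s * ρ ≤ 2 ^ v * i' ∧ 2 ^ v * i' - 2 ^ s * ρ < L + 1 then C (2 ^ v * i' - 2 ^ s * ρ)
        else 0) * ψ (2 ^ (s + (k - v)) * m + i') =
      ∑ i ∈ range (L + 1), C i *
        (if 2 ^ v ∣ 2 ^ s * (2 ^ k * m + ρ) + i then ψ ((2 ^ s * (2 ^ k * m + ρ) + i) / 2 ^ v)
          else 0) := by
  have hv : 0 < 2 ^ v := by positivity
  have hpow : 2 ^ s * 2 ^ k = 2 ^ v * 2 ^ (s + (k - v)) := by
    rw [← pow_add, ← pow_add]
    congr 1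
    omega
  have harg : ∀ i, 2 ^ s * (2 ^ k * m + ρ) + i = 2 ^ v * (2 ^ (s + (k - v)) * m) +
      (2 ^ s * ρ + i) := by
    intro i
    have : 2 ^ s * (2 ^ k * m + ρ) + i = (2 ^ s * 2 ^ k) * m + (2 ^ s * ρ + i) := by ring
    rw [this, hpow]
    ring
  have hdvd : ∀ i, 2 ^ v ∣ 2 ^ s * (2 ^ k * m + ρ) + i ↔ 2 ^ v ∣ 2 ^ s * ρ + i := by
    intro i
    rw [harg]
    exact (Nat.dvd_add_right (Dvd.intro _ rfl))
  have e1 : ∀ i' ∈ range (L' + 1),
      (if 2 ^ s * ρ ≤ 2 ^ v * i' ∧ 2 ^ v * i' - 2 ^ s * ρ < L + 1 then C (2 ^ v * i' - 2 ^ s * ρ)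
        else 0) * ψ (2 ^ (s + (k - v)) * m + i') =
      if 2 ^ s * ρ ≤ 2 ^ v * i' ∧ 2 ^ v * i' - 2 ^ s * ρ < L + 1 then
        C (2 ^ v * i' - 2 ^ s * ρ) * ψ (2 ^ (s + (k - v)) * m + i') else 0 := by
    intro i' _
    split_ifs
    · rfl
    · rw [zero_mul]
  have e2 : ∀ i ∈ range (L + 1), C i *
        (if 2 ^ v ∣ 2 ^ s * (2 ^ k * m + ρ) + i then ψ ((2 ^ s * (2 ^ k * m + ρ) + i) / 2 ^ v)
          else 0) =
        if 2 ^ v ∣ 2 ^ s * ρ + i then C i * ψ (2 ^ (s + (k - v)) * m + (2 ^ s * ρ + i) / 2 ^ v)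
          else 0 := by
    intro i _
    by_cases h : 2 ^ v ∣ 2 ^ s * ρ + i
    · rw [if_pos ((hdvd i).2 h), if_pos h, harg, Nat.mul_add_div hv]
    · rw [if_neg (fun h' => h ((hdvd i).1 h')), if_neg h, mul_zero]
  rw [Finset.sum_congr rfl e1, Finset.sum_congr rfl e2, ← Finset.sum_filter, ← Finset.sum_filter]
  refine Finset.sum_nbij' (fun i' => 2 ^ v * i' - 2 ^ s * ρ) (fun i => (2 ^ s * ρ + i) / 2 ^ v)
    ?_ ?_ ?_ ?_ ?_
  · intro i' h
    rw [mem_filter, mem_range] at h ⊢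
    obtain ⟨h1, h2, h3⟩ := h
    refine ⟨h3, ?_⟩
    have : 2 ^ s * ρ + (2 ^ v * i' - 2 ^ s * ρ) = 2 ^ v * i' := by omega
    rw [this]
    exact Dvd.intro _ rfl
  · intro i h
    rw [mem_filter, mem_range] at h ⊢
    obtain ⟨h1, q, hq⟩ := h
    simp only [hq]
    rw [Nat.mul_div_cancel_left _ hv]
    have : q ≤ 2 ^ v * q := Nat.le_mul_of_pos_left _ hv
    refine ⟨by omega, by omega, by omega⟩
  · intro i' h
    rw [mem_filter, mem_range] at h
    obtain ⟨h1, h2, h3⟩ := h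
    have : 2 ^ s * ρ + (2 ^ v * i' - 2 ^ s * ρ) = 2 ^ v * i' := by omega
    simp only [this]
    rw [Nat.mul_div_cancel_left _ hv]
  · intro i h
    rw [mem_filter, mem_range] at h
    obtain ⟨h1, q, hq⟩ := h
    simp only [hq]
    rw [Nat.mul_div_cancel_left _ hv]
    omega
  · intro i' h
    rw [mem_filter, mem_range] at h
    obtain ⟨h1, h2, h3⟩ := h
    have : 2 ^ s * ρ + (2 ^ v * i' - 2 ^ s * ρ) = 2 ^ v * i' := by omega
    simp only [this]
    rw [Nat.mul_div_cancel_left _ hv]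

theorem onePass_sub {Q : ℕ} {u : ℕ → ZMod 2} (h : OnePass Q u) (k ρ : ℕ) (hρ : ρ < 2 ^ k) :
    OnePass Q (fun m => u (2 ^ k * m + ρ)) := by
  have hlt : ∀ k' r : ℕ, r < 2 ^ k' → 2 ^ k * r + ρ < 2 ^ (k + k') := by
    intro k' r hr
    rw [pow_add]
    calc 2 ^ k * r + ρ < 2 ^ k * r + 2 ^ k := by omega
      _ = 2 ^ k * (r + 1) := by ring
      _ ≤ 2 ^ k * 2 ^ k' := Nat.mul_le_mul_left _ hr
  have harg : ∀ k' n r : ℕ, 2 ^ k * (2 ^ k' * n + r) + ρ = 2 ^ (k + k') * n + (2 ^ k * r + ρ) := by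
    intro k' n r
    rw [pow_add]
    ring
  rcases h with h | h
  · left
    intro k'
    obtain ⟨s, g, hg⟩ := h (k + k')
    refine ⟨fun r => s (2 ^ k * r + ρ), g, fun n r hn hr => ?_⟩
    simp only
    rw [harg]
    exact hg n _ hn (hlt k' r hr)
  · right
    intro k'
    obtain ⟨s, g, hg⟩ := h (k + k')
    refine ⟨s, fun q r => g q (2 ^ k * r + ρ), fun n r hn hr => ?_⟩
    simp only
    rw [harg]
    exact hg n _ hn (hlt k' r hr)

/-- the bound absorbs the passage to a subprogression -/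
theorem ev_scale (k K : ℕ) : ∃ X0 : ℕ, ∀ x : ℕ, X0 ≤ x →
    2 ^ k ≤ x ∧ Real.sqrt x * (Real.log (Real.log x)) ^ K / Real.log x ≤
      Real.sqrt ((x / 2 ^ k - 1 : ℕ) : ℝ) *
        (Real.log (Real.log ((x / 2 ^ k - 1 : ℕ) : ℝ))) ^ (K + 1) /
          Real.log ((x / 2 ^ k - 1 : ℕ) : ℝ) := by
  set C : ℝ := 2 ^ (k + 2) with hC
  have hC1 : 1 ≤ C := one_le_pow₀ (by norm_num)
  obtain ⟨X1, hX1⟩ := ev_loglog (max (2 * Real.log 2 + 2) (2 ^ (K + 1) * C))
  obtain ⟨X2, hX2⟩ := ev_loglog (2 * Real.log C + 2)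
  refine ⟨max (max X1 X2) (2 ^ (k + 2)), fun x hx => ?_⟩
  simp only [max_le_iff] at hx
  obtain ⟨⟨hx1, hx2⟩, hx3⟩ := hx
  have h1 := hX1 x hx1
  have h2 := hX2 x hx2
  rw [max_le_iff] at h1
  have hl2 : 0 < Real.log 2 := Real.log_pos (by norm_num)
  have hlC : 0 ≤ Real.log C := Real.log_nonneg hC1
  have h3 := log_pos_of (x := x) (by linarith [h1.1])
  have h2k : 0 < 2 ^ k := by positivity
  have hk2 : 2 ^ (k + 2) = 4 * 2 ^ k := by rw [pow_add]; ring
  have hx4 : 4 * 2 ^ k ≤ x := by omega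
  refine ⟨by omega, ?_⟩
  set y : ℕ := x / 2 ^ k - 1 with hy
  -- `x ≤ C y`
  have hxy : x ≤ 2 ^ (k + 2) * y := by
    have e1 : x < 2 ^ k * (x / 2 ^ k + 1) := by
      have := Nat.lt_mul_div_succ x h2k
      exact this
    have e2 : 4 ≤ x / 2 ^ k := (Nat.le_div_iff_mul_le h2k).2 hx4
    have e3 : x / 2 ^ k + 1 ≤ 4 * y := by omega
    calc x ≤ 2 ^ k * (x / 2 ^ k + 1) := e1.le
      _ ≤ 2 ^ k * (4 * y) := Nat.mul_le_mul_left _ e3
      _ = 2 ^ (k + 2) * y := by rw [hk2]; ring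
  have hyx : y ≤ x := (Nat.sub_le _ _).trans (Nat.div_le_self _ _)
  have hxy' : (x : ℝ) ≤ C * y := by
    rw [hC]
    exact_mod_cast hxy
  have hxr : (0 : ℝ) < x := by
    have : 0 < x := by omega
    exact_mod_cast this
  have hyr : (0 : ℝ) < y := by
    by_contra hcon
    push Not at hcon
    have : C * y ≤ 0 := mul_nonpos_of_nonneg_of_nonpos (by linarith) hcon
    linarith
  have hyx' : (y : ℝ) ≤ x := by exact_mod_cast hyx
  set lx := Real.log (x : ℝ) with hlx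
  set ly := Real.log (y : ℝ) with hly
  have g1 : lx ≤ Real.log C + ly := by
    rw [hlx, hly, ← Real.log_mul (by positivity) (by positivity)]
    exact Real.log_le_log hxr hxy'
  have g2 : ly ≤ lx := Real.log_le_log hyr hyx'
  -- `log log x ≤ log x`
  have g3 : Real.log lx ≤ lx := (Real.log_le_sub_one_of_pos (by linarith)).trans (by linarith)
  have g4 : lx / 2 ≤ ly := by linarith
  have hly0 : 0 < ly := by linarith
  have g5 : Real.log lx - Real.log 2 ≤ Real.log ly := by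
    rw [← Real.log_div (by linarith) (by norm_num)]
    exact Real.log_le_log (by linarith) g4
  have g6 : Real.log lx / 2 ≤ Real.log ly := by linarith [h1.1]
  have hll0 : 0 < Real.log lx := by linarith [h1.1]
  have g7 : (Real.log lx / 2) ^ (K + 1) ≤ Real.log ly ^ (K + 1) :=
    pow_le_pow_left₀ (by linarith) g6 _
  have g8 : Real.sqrt x ≤ C * Real.sqrt y := by
    have e1 : Real.sqrt x ≤ Real.sqrt (C * y) := Real.sqrt_le_sqrt hxy'
    have e2 : Real.sqrt (C * y) = Real.sqrt C * Real.sqrt y := Real.sqrt_mul (by linarith) _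
    have e3 : Real.sqrt C ≤ C := by
      rw [Real.sqrt_le_left (by linarith)]
      nlinarith
    rw [e2] at e1
    exact e1.trans (mul_le_mul_of_nonneg_right e3 (Real.sqrt_nonneg _))
  have hsy : 0 ≤ Real.sqrt (y : ℝ) := Real.sqrt_nonneg _
  have g9 : Real.log lx ^ K * C ≤ Real.log ly ^ (K + 1) := by
    refine le_trans ?_ g7
    rw [div_pow, le_div_iff₀ (by positivity), pow_succ (Real.log lx)]
    have : C * 2 ^ (K + 1) ≤ Real.log lx := by linarith [h1.2]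
    have h0 : 0 ≤ Real.log lx ^ K := by positivity
    calc Real.log lx ^ K * C * 2 ^ (K + 1) = Real.log lx ^ K * (C * 2 ^ (K + 1)) := by ring
      _ ≤ Real.log lx ^ K * Real.log lx := mul_le_mul_of_nonneg_left this h0
  calc Real.sqrt x * Real.log lx ^ K / lx ≤ (C * Real.sqrt y) * Real.log lx ^ K / lx := by
        apply div_le_div_of_nonneg_right _ (by linarith)
        exact mul_le_mul_of_nonneg_right g8 (by positivity)
    _ = Real.sqrt y * (Real.log lx ^ K * C) / lx := by ring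
    _ ≤ Real.sqrt y * Real.log ly ^ (K + 1) / lx := by
        apply div_le_div_of_nonneg_right _ (by linarith)
        exact mul_le_mul_of_nonneg_left g9 hsy
    _ ≤ Real.sqrt y * Real.log ly ^ (K + 1) / ly := by
        apply div_le_div_of_nonneg_left _ hly0 g2
        have : 0 ≤ Real.log ly := by linarith
        positivity

theorem Fz_pow (v tp tm : ℕ) : Fz (2 ^ v * tp) (2 ^ v * tm) = (Fz tp tm) ^ 2 ^ v := by
  unfold Fz Ft
  rw [mul_pow, ← pow_mul, ← pow_mul]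
  congr 2
  · ring
  · ring

theorem coeff_Fz_pow (v tp tm N : ℕ) : coeff N (Fz (2 ^ v * tp) (2 ^ v * tm)) =
    if 2 ^ v ∣ N then coeff (N / 2 ^ v) (Fz tp tm) else 0 := by
  rw [Fz_pow, pow_eq_expand, coeff_expand]

end Pool.Agent.Run7.h175.JM
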