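import Pool.Agent.Run7.h175.JM5

set_option autoImplicit false

/-! Joint patterns of several series, also for even exponents, against bounded-memory predictors. -/

namespace Pool.Agent.Run7.h175.JM

open Finset PowerSeries
open Pool.Agent.R836.PP Pool.Agent.N493.PE
open Pool.Agent.H397R2.PP Pool.Agent.H397R2.PP.TH Pool.Agent.H307R2.OP
open Pool.Agent.N493.PD

/-- **the main theorem**: exponents `2 ^ (v a) (tp a - tm a)`, dilates `2 ^ (s a)` -/
theorem mainE {ι : Type} [Fintype ι] (r b L R Q K : ℕ) (v s tp tm : ι → ℕ)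
    (hodd : ∀ a, (tp a + tm a) % 2 = 1) (hvs : ∀ a, v a = 0 ∨ s a = 0)
    (hr : ∀ a, (2 ^ s a * (2 ^ v a * tp a)) % 3 = (2 ^ s a * (2 ^ v a * tm a) + r) % 3)
    (hinj : ∀ a a', s a = s a' → v a = v a' → tp a + tm a' = tp a' + tm a → a = a') :
    ∃ X0 : ℕ, ∀ (c : ι → Fin (L + 1) → ZMod 2) (u : Fin R → ℕ → ZMod 2), (∀ z, OnePass Q (u z)) →
      ∀ (Φ : (Fin R → ZMod 2) → ZMod 2) (ρ : ℕ) (κ : ZMod 2),
      (∃ (a : ι) (i : Fin (L + 1)) (n : ℕ), c a i ≠ 0 ∧ n % 2 ^ b = ρ % 2 ^ b ∧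
        2 ^ v a ∣ 2 ^ s a * n + i) →
      ∀ x : ℕ, X0 ≤ x → Real.sqrt x * (Real.log (Real.log x)) ^ K / Real.log x ≤
          (((range (x + 1)).filter fun n => n % 2 ^ b = ρ % 2 ^ b ∧
            wM c s (fun a n => coeff n (Fz (2 ^ v a * tp a) (2 ^ v a * tm a))) n +
              Φ (fun z => u z n) = κ).card : ℝ) := by
  classical
  set V : ℕ := (univ : Finset ι).sup v with hV
  set S' : ℕ := (univ : Finset ι).sup s with hS'
  have hvV : ∀ a, v a ≤ V := fun a => Finset.le_sup (f := v) (mem_univ a)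
  have hsS : ∀ a, s a ≤ S' := fun a => Finset.le_sup (f := s) (mem_univ a)
  set k : ℕ := b + V with hk
  set L' : ℕ := 2 ^ S' * 2 ^ k + L with hL'
  set al : ι → ℕ := fun a => s a + (k - v a) with hal
  have hvk : ∀ a, v a ≤ k := fun a => by have := hvV a; omega
  have hr' : ∀ a, (2 ^ al a * tp a) % 3 = (2 ^ al a * tm a + 2 ^ k * r) % 3 := by
    intro a
    have h4 : (1 : ℕ) ≡ 4 ^ v a [MOD 3] := by
      unfold Nat.ModEq
      rw [Nat.pow_mod]
      norm_num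
    have e0 : 2 ^ al a * 4 ^ v a = 2 ^ k * (2 ^ s a * 2 ^ v a) := by
      have : (4 : ℕ) ^ v a = 2 ^ (2 * v a) := by rw [pow_mul]; norm_num
      rw [this, ← pow_add, ← pow_add, ← pow_add]
      congr 1
      have := hvk a
      simp only [hal]
      omega
    have e1 : 2 ^ al a ≡ 2 ^ k * (2 ^ s a * 2 ^ v a) [MOD 3] := by
      rw [← e0]
      simpa using Nat.ModEq.mul_left (2 ^ al a) h4
    have e2 : 2 ^ s a * (2 ^ v a * tp a) ≡ 2 ^ s a * (2 ^ v a * tm a) + r [MOD 3] := hr a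
    have e3 : 2 ^ al a * tp a ≡ 2 ^ k * (2 ^ s a * (2 ^ v a * tp a)) [MOD 3] := by
      have := Nat.ModEq.mul_right (tp a) e1
      refine this.trans ?_
      have : 2 ^ k * (2 ^ s a * 2 ^ v a) * tp a = 2 ^ k * (2 ^ s a * (2 ^ v a * tp a)) := by ring
      rw [this]
    have e4 : 2 ^ k * (2 ^ s a * (2 ^ v a * tm a)) ≡ 2 ^ al a * tm a [MOD 3] := by
      have := Nat.ModEq.mul_right (tm a) e1.symm
      refine Nat.ModEq.trans ?_ this
      have : 2 ^ k * (2 ^ s a * 2 ^ v a) * tm a = 2 ^ k * (2 ^ s a * (2 ^ v a * tm a)) := by ring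
      rw [this]
    have e5 : 2 ^ k * (2 ^ s a * (2 ^ v a * tp a)) ≡
        2 ^ k * (2 ^ s a * (2 ^ v a * tm a)) + 2 ^ k * r [MOD 3] := by
      have := Nat.ModEq.mul_left (2 ^ k) e2
      rwa [mul_add] at this
    exact (e3.trans e5).trans (Nat.ModEq.add_right _ e4)
  have hinj' : ∀ a a', al a = al a' → tp a + tm a' = tp a' + tm a → a = a' := by
    intro a a' h1 h2
    have k1 := hvk a
    have k2 := hvk a'
    simp only [hal] at h1
    rcases hvs a with h3 | h3 <;> rcases hvs a' with h4 | h4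
    · exact hinj a a' (by omega) (by omega) h2
    · exact hinj a a' (by omega) (by omega) h2
    · exact hinj a a' (by omega) (by omega) h2
    · exact hinj a a' (by omega) (by omega) h2
  obtain ⟨X0, hX0⟩ := mainM (2 ^ k * r) 0 L' R Q (K + 1) al tp tm hodd hr' hinj'
  obtain ⟨X1, hX1⟩ := ev_scale k K
  refine ⟨max X1 (2 ^ k * (X0 + 1)), ?_⟩
  rintro c u hu Φ ρ κ ⟨a0, i0, n0, hc0, hn0, hd0⟩ x hx
  rw [max_le_iff] at hx
  obtain ⟨hx1, hx2⟩ := hx
  have h2k : 0 < 2 ^ k := by positivity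
  obtain ⟨hx3, hx4⟩ := hX1 x hx1
  refine hx4.trans ?_
  set y : ℕ := x / 2 ^ k - 1 with hy
  have hyX : X0 ≤ y := by
    have : X0 + 1 ≤ x / 2 ^ k := (Nat.le_div_iff_mul_le h2k).2 (by rw [mul_comm]; exact hx2)
    omega
  have hy1 : y + 1 = x / 2 ^ k := by
    have : 1 ≤ x / 2 ^ k := (Nat.le_div_iff_mul_le h2k).2 (by rw [one_mul]; exact hx3)
    omega
  set ρ' : ℕ := n0 % 2 ^ k with hρ'
  have hρk : ρ' < 2 ^ k := Nat.mod_lt _ h2k
  have hρb : ρ' % 2 ^ b = ρ % 2 ^ b := by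
    rw [hρ', Nat.mod_mod_of_dvd _ (pow_dvd_pow 2 (by omega : b ≤ k)), hn0]
  set C : ι → ℕ → ZMod 2 := fun a i => if h : i < L + 1 then c a ⟨i, h⟩ else 0 with hC
  set c' : ι → Fin (L' + 1) → ZMod 2 := fun a i' =>
    if 2 ^ s a * ρ' ≤ 2 ^ v a * (i' : ℕ) ∧ 2 ^ v a * (i' : ℕ) - 2 ^ s a * ρ' < L + 1 then
      C a (2 ^ v a * (i' : ℕ) - 2 ^ s a * ρ') else 0 with hc'
  have hL1 : ∀ a, 2 ^ s a * ρ' + L ≤ L' := by
    intro a
    have : 2 ^ s a * ρ' ≤ 2 ^ S' * 2 ^ k :=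
      Nat.mul_le_mul (Nat.pow_le_pow_right (by norm_num) (hsS a)) hρk.le
    omega
  have hc'0 : c' ≠ 0 := by
    have hd1 : 2 ^ v a0 ∣ 2 ^ s a0 * ρ' + i0 := by
      have e1 : 2 ^ s a0 * n0 + i0 = 2 ^ v a0 * (2 ^ (k - v a0) * (2 ^ s a0 * (n0 / 2 ^ k))) +
          (2 ^ s a0 * ρ' + i0) := by
        have e2 : 2 ^ v a0 * 2 ^ (k - v a0) = 2 ^ k := by
          rw [← pow_add]
          congr 1
          have := hvk a0
          omega
        have e3 : n0 = 2 ^ k * (n0 / 2 ^ k) + ρ' := (Nat.div_add_mod n0 (2 ^ k)).symm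
        have e4 : 2 ^ v a0 * (2 ^ (k - v a0) * (2 ^ s a0 * (n0 / 2 ^ k))) =
            (2 ^ v a0 * 2 ^ (k - v a0)) * (2 ^ s a0 * (n0 / 2 ^ k)) := by ring
        rw [e4, e2]
        nth_rewrite 1 [e3]
        ring
      rw [e1] at hd0
      exact (Nat.dvd_add_right (Dvd.intro _ rfl)).1 hd0
    obtain ⟨q, hq⟩ := hd1
    have hv0 : 0 < 2 ^ v a0 := by positivity
    have hqle : q ≤ 2 ^ v a0 * q := Nat.le_mul_of_pos_left _ hv0
    have hi0 : (i0 : ℕ) < L + 1 := i0.2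
    have hql : q < L' + 1 := by
      have := hL1 a0
      omega
    intro h0
    have h1 := congrFun (congrFun h0 a0) ⟨q, hql⟩
    apply hc0
    have e5 : 2 ^ v a0 * q - 2 ^ s a0 * ρ' = i0 := by omega
    simp only [hc', hC, Pi.zero_apply] at h1
    rw [if_pos ⟨by omega, by omega⟩] at h1
    rw [e5, dif_pos hi0] at h1
    exact h1
  have hw : ∀ m, wM c' al (fun a n => coeff n (Fz (tp a) (tm a))) m =
      wM c s (fun a n => coeff n (Fz (2 ^ v a * tp a) (2 ^ v a * tm a))) (2 ^ k * m + ρ') := by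
    intro m
    unfold wM
    refine Finset.sum_congr rfl fun a _ => ?_
    have h1 := reidx L L' (v a) (s a) k ρ' m (hvk a) (hL1 a) (C a)
      (fun n => coeff n (Fz (tp a) (tm a)))
    rw [Finset.sum_range, Finset.sum_range] at h1
    refine Eq.trans ?_ (h1.trans ?_)
    · rfl
    · refine Finset.sum_congr rfl fun i _ => ?_
      beta_reduce
      rw [coeff_Fz_pow]
      congr 1
      simp only [hC]
      rw [dif_pos i.2]
  have h1 := hX0 c' hc'0 (fun z m => u z (2 ^ k * m + ρ'))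
    (fun z => onePass_sub (hu z) k ρ' hρk) Φ 0 κ y hyX
  refine h1.trans ?_
  have h2 : ((range (y + 1)).filter fun m => m % 2 ^ 0 = 0 % 2 ^ 0 ∧
      wM c' al (fun a n => coeff n (Fz (tp a) (tm a))) m +
        Φ (fun z => u z (2 ^ k * m + ρ')) = κ).card ≤
      ((range (x + 1)).filter fun n => n % 2 ^ b = ρ % 2 ^ b ∧
            wM c s (fun a n => coeff n (Fz (2 ^ v a * tp a) (2 ^ v a * tm a))) n +
              Φ (fun z => u z n) = κ).card := by
    apply card_le_card_of_injOn (fun m => 2 ^ k * m + ρ')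
    · intro m hm
      rw [mem_coe, mem_filter, mem_range] at hm
      rw [mem_coe, mem_filter, mem_range]
      obtain ⟨hm1, -, hm2⟩ := hm
      refine ⟨?_, ?_, ?_⟩
      · have e1 : 2 ^ k * (m + 1) ≤ 2 ^ k * (x / 2 ^ k) := Nat.mul_le_mul_left _ (by omega)
        have e2 := Nat.mul_div_le x (2 ^ k)
        have e3 : 2 ^ k * (m + 1) = 2 ^ k * m + 2 ^ k := by ring
        simp only
        omega
      · have e1 : 2 ^ k = 2 ^ b * 2 ^ V := by rw [hk, pow_add]
        have e2 : 2 ^ k * m + ρ' = ρ' + 2 ^ b * (2 ^ V * m) := by rw [e1]; ring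
        simp only
        rw [e2, Nat.add_mul_mod_self_left, hρb]
      · simp only
        rw [← hw]
        exact hm2
    · intro m _ m' _ h
      simp only at h
      have : 2 ^ k * m = 2 ^ k * m' := by omega
      exact Nat.eq_of_mul_eq_mul_left h2k this
  exact_mod_cast h2

end Pool.Agent.Run7.h175.JM
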