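import Pool.Agent.Run7.h175.JM6

set_option autoImplicit false

/-! The partition function at the dilates `4 ^ a n` against powers of the eta function and
bounded-memory predictors. -/

namespace Pool.Agent.Run7.h175.JM

open Finset PowerSeries
open Pool.Agent.R836.PP Pool.Agent.N493.PE
open Pool.Agent.H397R2.PP Pool.Agent.H397R2.PP.TH Pool.Agent.H307R2.OP
open Pool.Agent.N493.PD

/-- `∏_{i ≥ 1} (1 - q ^ i) ^ e` for an integer `e` -/
noncomputable def etaP (e : ℤ) : ℤ⟦X⟧ :=
  pentagonalSeries ℤ ^ e.toNat * (invOfUnit (pentagonalSeries ℤ) 1) ^ (-e).toNat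

theorem etaP_map (e : ℤ) : (etaP e).map (Int.castRingHom (ZMod 2)) = Fz (-e).toNat e.toNat := by
  have h0 : constantCoeff (pentagonalSeries ℤ) = 1 := by
    have h0 : (0 : ℕ) = pentagonal 0 := by decide
    rw [← PowerSeries.coeff_zero_eq_constantCoeff_apply, h0,
      PowerSeries.coeff_pentagonalSeries_pentagonal]
    simp
  have h1 := PowerSeries.mul_invOfUnit (pentagonalSeries ℤ) 1 (by rw [h0]; rfl)
  have h2 := congrArg (PowerSeries.map (Int.castRingHom (ZMod 2))) h1
  rw [map_mul, map_one, B0.pent_map] at h2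
  have h3 : (PowerSeries.mk fun n => (Fintype.card (Nat.Partition n) : ZMod 2)) *
      pentagonalSeries (ZMod 2) = 1 := mk_card_mul_pentagonalSeries (ZMod 2)
  have h4 : (invOfUnit (pentagonalSeries ℤ) 1).map (Int.castRingHom (ZMod 2)) =
      PowerSeries.mk fun n => (Fintype.card (Nat.Partition n) : ZMod 2) :=
    (left_inv_eq_right_inv h3 h2).symm
  unfold etaP Fz Ft
  rw [map_mul, map_pow, map_pow, B0.pent_map, h4, mul_comm]

theorem mainP (A L b R Q K : ℕ) (T : Finset (ℤ × ℕ))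
    (hT : ∀ q ∈ T, q.1 ≠ 0 ∧ (Odd q.1 ∨ q.2 = 0) ∧ 2 ^ q.2 * q.1 ≡ 2 [ZMOD 3])
    (hTA : ∀ a ≤ A, ((-1 : ℤ), 2 * a) ∉ T) :
    ∃ X0 : ℕ, ∀ x : ℕ, X0 ≤ x → ∀ c : Fin (A + 1) → Fin (L + 1) → ZMod 2, c ≠ 0 →
      ∀ (d : ℤ × ℕ → ℕ → ZMod 2) (v : Fin R → ℕ → ZMod 2), (∀ z, OnePass Q (v z)) →
      ∀ (Φ : (Fin R → ZMod 2) → ZMod 2) (ρ : ℕ) (κ : ZMod 2),
        Real.sqrt x * (Real.log (Real.log x)) ^ K / Real.log x ≤
          (((range (x + 1)).filter fun n => n % 2 ^ b = ρ % 2 ^ b ∧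
            ∑ a : Fin (A + 1), ∑ i : Fin (L + 1),
              c a i * (Fintype.card (Nat.Partition (4 ^ (a : ℕ) * n + i)) : ZMod 2) +
            ∑ q ∈ T, ∑ i ∈ range (L + 1),
              d q i * ((coeff (2 ^ q.2 * n + i) (etaP q.1) : ℤ) : ZMod 2) +
              Φ (fun z => v z n) = κ).card : ℝ) := by
  classical
  choose vv w hw hvw using fun q : T => Nat.exists_eq_two_pow_mul_odd
    (Int.natAbs_ne_zero.2 (hT q.1 q.2).1)
  have hwodd : ∀ q, w q % 2 = 1 := fun q => Nat.odd_iff.1 (hw q)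
  have hv0 : ∀ q : T, Odd q.1.1 → vv q = 0 := by
    intro q hq
    rcases Nat.eq_zero_or_pos (vv q) with h | h
    · exact h
    · exfalso
      obtain ⟨y, hy⟩ : ∃ y, vv q = y + 1 := ⟨vv q - 1, by omega⟩
      have h1 := Nat.odd_iff.1 (Int.natAbs_odd.2 hq)
      rw [hvw q, hy, pow_succ, mul_comm (2 ^ y) 2, mul_assoc, Nat.mul_mod_right] at h1
      omega
  set ι := Fin (A + 1) ⊕ T with hι
  set V : ι → ℕ := Sum.elim (fun _ => 0) vv with hV
  set s : ι → ℕ := Sum.elim (fun a => 2 * (a : ℕ)) (fun q => q.1.2) with hs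
  set tp : ι → ℕ := Sum.elim (fun _ => 1) (fun q => if q.1.1 < 0 then w q else 0) with htp
  set tm : ι → ℕ := Sum.elim (fun _ => 0) (fun q => if q.1.1 < 0 then 0 else w q) with htm
  have hodd : ∀ a, (tp a + tm a) % 2 = 1 := by
    rintro (a | q)
    · simp [htp, htm]
    · simp only [htp, htm, Sum.elim_inr]
      have := hwodd q
      split_ifs <;> omega
  have hvs : ∀ a, V a = 0 ∨ s a = 0 := by
    rintro (a | q)
    · left; simp [hV]
    · exact ((hT q.1 q.2).2.1).imp (hv0 q) id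
  have hr : ∀ a, (2 ^ s a * (2 ^ V a * tp a)) % 3 = (2 ^ s a * (2 ^ V a * tm a) + 1) % 3 := by
    rintro (a | q)
    · simp only [hV, hs, htp, htm, Sum.elim_inl, pow_zero, mul_one, mul_zero, zero_add]
      rw [pow_mul, Nat.pow_mod]
      norm_num
    · simp only [hV, hs, htp, htm, Sum.elim_inr]
      have h1 : (2 ^ q.1.2 * q.1.1) % 3 = 2 % 3 := (hT q.1 q.2).2.2
      have h2 := hvw q
      by_cases hn : q.1.1 < 0
      · rw [if_pos hn, if_pos hn, mul_zero, mul_zero, zero_add, ← h2]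
        have h3 : (2 : ℤ) ^ q.1.2 * q.1.1 = -((2 ^ q.1.2 * Int.natAbs q.1.1 : ℕ) : ℤ) := by
          push_cast
          rw [abs_of_neg hn]
          ring
        rw [h3] at h1
        omega
      · rw [if_neg hn, if_neg hn, mul_zero, mul_zero, ← h2]
        have h3 : (2 : ℤ) ^ q.1.2 * q.1.1 = ((2 ^ q.1.2 * Int.natAbs q.1.1 : ℕ) : ℤ) := by
          push_cast
          rw [abs_of_nonneg (not_lt.1 hn)]
        rw [h3] at h1
        omega
  have hmix : ∀ (a : Fin (A + 1)) (q : T), 2 * (a : ℕ) = q.1.2 → 0 = vv q →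
      1 + (if q.1.1 < 0 then 0 else w q) = (if q.1.1 < 0 then w q else 0) + 0 → False := by
    intro a q h1 h2 h3
    by_cases hn : q.1.1 < 0
    · rw [if_pos hn, if_pos hn] at h3
      have h4 := hvw q
      rw [← h2, pow_zero, one_mul, ← (by omega : 1 = w q)] at h4
      apply hTA a (Nat.lt_succ_iff.1 a.2)
      have h5 : q.1 = ((-1 : ℤ), 2 * (a : ℕ)) := Prod.ext (by simp only; omega) h1.symm
      rw [← h5]
      exact q.2
    · rw [if_neg hn, if_neg hn] at h3
      omega
  have hinj : ∀ a a', s a = s a' → V a = V a' → tp a + tm a' = tp a' + tm a → a = a' := by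
    rintro (a | q) (a' | q') h1 h2 h3
    · simp only [hs, Sum.elim_inl] at h1
      rw [Fin.ext (by omega : (a : ℕ) = a')]
    · simp only [hs, hV, htp, htm, Sum.elim_inl, Sum.elim_inr] at h1 h2 h3
      exact (hmix a q' h1 h2 h3).elim
    · simp only [hs, hV, htp, htm, Sum.elim_inl, Sum.elim_inr] at h1 h2 h3
      exact (hmix a' q h1.symm h2.symm h3.symm).elim
    · simp only [hs, hV, htp, htm, Sum.elim_inr] at h1 h2 h3
      have e1 := hvw q
      have e2 := hvw q'
      have e3 := hwodd q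
      have e4 := hwodd q'
      congr 1
      apply Subtype.ext
      by_cases hn : q.1.1 < 0 <;> by_cases hn' : q'.1.1 < 0
      · rw [if_pos hn, if_pos hn, if_pos hn', if_pos hn'] at h3
        have h4 : w q = w q' := by omega
        rw [h2, h4, ← e2] at e1
        exact Prod.ext (by omega) h1
      · rw [if_pos hn, if_pos hn, if_neg hn', if_neg hn'] at h3
        omega
      · rw [if_neg hn, if_neg hn, if_pos hn', if_pos hn'] at h3
        omega
      · rw [if_neg hn, if_neg hn, if_neg hn', if_neg hn'] at h3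
        have h4 : w q = w q' := by omega
        rw [h2, h4, ← e2] at e1
        exact Prod.ext (by omega) h1
  obtain ⟨X, hX⟩ := mainE 1 b L R Q K V s tp tm hodd hvs hr hinj
  refine ⟨X, fun x hx c hc d v hv Φ ρ κ => ?_⟩
  obtain ⟨a0, ha0⟩ : ∃ a, c a ≠ 0 := by
    by_contra hcon
    push Not at hcon
    exact hc (funext hcon)
  obtain ⟨i0, hi0⟩ : ∃ i, c a0 i ≠ 0 := by
    by_contra hcon
    push Not at hcon
    exact ha0 (funext hcon)
  have h := hX (Sum.elim c (fun q i => d q.1 i)) v hv Φ ρ κ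
    ⟨Sum.inl a0, i0, ρ, by simpa using hi0, rfl, by simp [hV]⟩ x hx
  refine h.trans (le_of_eq ?_)
  congr 2
  ext n
  rw [mem_filter, mem_filter]
  have e1 : wM (Sum.elim c (fun q i => d q.1 i)) s
      (fun a n => coeff n (Fz (2 ^ V a * tp a) (2 ^ V a * tm a))) n =
      ∑ a : Fin (A + 1), ∑ i : Fin (L + 1),
              c a i * (Fintype.card (Nat.Partition (4 ^ (a : ℕ) * n + i)) : ZMod 2) +
            ∑ q ∈ T, ∑ i ∈ range (L + 1),
              d q i * ((coeff (2 ^ q.2 * n + i) (etaP q.1) : ℤ) : ZMod 2) := by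
    unfold wM
    rw [Fintype.sum_sum_type, ← Finset.sum_coe_sort T]
    congr 1
    · refine Finset.sum_congr rfl fun a _ => Finset.sum_congr rfl fun i _ => ?_
      simp only [hV, hs, htp, htm, Sum.elim_inl, pow_zero, mul_one, mul_zero]
      congr 1
      unfold Fz Ft
      rw [pow_one, pow_zero, mul_one, coeff_mk, pow_mul]
      norm_num
    · refine Finset.sum_congr rfl fun q _ => ?_
      rw [Finset.sum_range]
      refine Finset.sum_congr rfl fun i _ => ?_
      simp only [Sum.elim_inr]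
      congr 1
      have e2 : Fz (2 ^ V (Sum.inr q) * tp (Sum.inr q)) (2 ^ V (Sum.inr q) * tm (Sum.inr q)) =
          (etaP q.1.1).map (Int.castRingHom (ZMod 2)) := by
        rw [etaP_map]
        simp only [hV, htp, htm, Sum.elim_inr]
        have h2 := hvw q
        by_cases hn : q.1.1 < 0
        · rw [if_pos hn, if_pos hn, mul_zero, ← h2]
          congr 1 <;> omega
        · rw [if_neg hn, if_neg hn, mul_zero, ← h2]
          congr 1 <;> omega
      rw [e2, coeff_map]
      rfl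
  rw [e1]

end Pool.Agent.Run7.h175.JM
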