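import Pool.Agent.Run7.h175.Tree

/-!
# Red loose trees in colourings of `4m+1` points without blue Fano plane
-/

set_option linter.unusedSectionVars false

namespace Run7.h175

variable {α : Type*} [DecidableEq α] {red : Finset α → Prop}

/-- the sunflower with `n` petals, rooted at its centre -/
def star : ℕ → RT
  | 0 => RT.nil
  | n + 1 => RT.cons RT.nil RT.nil (star n)

lemma star_e : ∀ n, (star n).e = n
  | 0 => rfl
  | n + 1 => by simp only [star, RT.e, star_e n]; omega

lemma emb_star {x : α} {C : Finset α} (h : PM (Rd red x) C) :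
    ∀ k, C.card = 2 * k → x ∉ C → Emb red (star k) x (insert x C) := by
  induction h with
  | nil =>
    intro k hk hx
    have : k = 0 := by simpa using hk
    subst this
    exact Emb.nil x
  | @cons a b C ha hb hab h hC ih =>
    intro k hk hx
    rw [card_ins2 ha hb hab] at hk
    simp only [Finset.mem_insert, not_or] at hx
    obtain ⟨j, rfl⟩ : ∃ j, k = j + 1 := ⟨k - 1, by omega⟩
    have h1 := ih j (by omega) hx.2.2
    have h2 : insert x (insert a (insert b C)) = {a} ∪ {b} ∪ insert x C := by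
      ext v
      simp only [Finset.mem_insert, Finset.mem_union, Finset.mem_singleton]
      tauto
    rw [h2]
    refine Emb.cons h (Emb.nil a) (Emb.nil b) h1 ?_ ?_ ?_
    · simpa using hab
    · simp only [Finset.disjoint_singleton_left, Finset.mem_insert, not_or]
      exact ⟨fun e => hx.1 e.symm, ha⟩
    · simp only [Finset.disjoint_singleton_left, Finset.mem_insert, not_or]
      exact ⟨fun e => hx.2.1 e.symm, hb⟩

lemma emb_star_of_hasM {S : Finset α} {x : α} {k : ℕ} (hx : x ∈ S)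
    (h : HasM (Rd red x) (S.erase x) k) : ∃ X ⊆ S, Emb red (star k) x X := by
  obtain ⟨C, hC, hc, hP⟩ := h
  refine ⟨insert x C, ?_, emb_star hP k hc (fun h => by simpa using hC h)⟩
  intro v hv
  rcases Finset.mem_insert.1 hv with rfl | hv
  · exact hx
  · exact (Finset.mem_erase.1 (hC hv)).2

/-- either every tree with `m` edges is found greedily, or some vertex has a blue link clique
with `2m+2` vertices, on which there is no blue Pasch configuration -/
lemma greedy_or {S : Finset α} {m : ℕ} (hm : 1 ≤ m) (hS : S.card = 4 * m + 1)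
    (hF : ¬ HasFano red S) :
    (∀ T : RT, T.e = m → ∃ x ∈ S, ∃ X ⊆ S, Emb red T x X) ∨
      ∃ Z ⊆ S, Z.card = 2 * m + 2 ∧ PF red Z := by
  by_cases hG : ∀ v ∈ S, ∀ U ⊆ S, v ∉ U → U.card + 2 ≤ 2 * m →
    ∃ p ∈ S \ U, ∃ q ∈ S \ U, Rd red v p q
  · left
    intro T hT
    obtain ⟨x, hx⟩ := Finset.card_pos.1 (by omega : 0 < S.card)
    obtain ⟨X, hX, hE⟩ := greedy hG T x ∅ hx (by simp) (by simp) (by simp [hT])
    exact ⟨x, hx, X, hX.trans Finset.sdiff_subset, hE⟩
  · right
    push Not at hG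
    obtain ⟨v, hv, U, hU, hvU, hUc, hUb⟩ := hG
    have h1 : ((S \ U).erase v).card = S.card - U.card - 1 := by
      rw [Finset.card_erase_of_mem (Finset.mem_sdiff.2 ⟨hv, hvU⟩), Finset.card_sdiff_of_subset hU]
    obtain ⟨Z, hZ, hZc⟩ := Finset.exists_subset_card_eq (s := (S \ U).erase v) (n := 2 * m + 2)
      (by omega)
    have hZS : ∀ z ∈ Z, z ∈ S ∧ z ∈ S \ U ∧ z ≠ v := by
      intro z hz
      have := hZ hz
      rw [Finset.mem_erase] at this
      exact ⟨(Finset.mem_sdiff.1 this.2).1, this.2, this.1⟩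
    refine ⟨Z, fun z hz => (hZS z hz).1, hZc, PF_of_link hF hv (fun z hz => (hZS z hz).1) ?_⟩
    intro p hp q hq hpq
    exact bl_of_not_rd (hZS p hp).2.2.symm (hZS q hq).2.2.symm hpq
      (hUb p (hZS p hp).2.1 q (hZS q hq).2.1)

/-- a red clique contains all trees that fit in -/
lemma emb_of_clique {B : Finset α} {m : ℕ} (hB : 2 * m + 1 ≤ B.card)
    (hred : ∀ a ∈ B, ∀ b ∈ B, ∀ c ∈ B, a ≠ b → a ≠ c → b ≠ c → Rd red a b c) (T : RT)
    (hT : T.e = m) : ∃ x ∈ B, ∃ X ⊆ B, Emb red T x X := by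
  obtain ⟨x, hx⟩ := Finset.card_pos.1 (by omega : 0 < B.card)
  obtain ⟨X, hX, hE⟩ := greedy (S := B) (m := m) (by
    intro v hv U hU hvU hUc
    have h1 : ((B \ U).erase v).card = B.card - U.card - 1 := by
      rw [Finset.card_erase_of_mem (Finset.mem_sdiff.2 ⟨hv, hvU⟩), Finset.card_sdiff_of_subset hU]
    obtain ⟨p, hp, q, hq, hpq⟩ := Finset.one_lt_card.1 (by omega : 1 < ((B \ U).erase v).card)
    rw [Finset.mem_erase] at hp hq
    exact ⟨p, hp.2, q, hq.2, hred v hv p (Finset.mem_sdiff.1 hp.2).1 q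
      (Finset.mem_sdiff.1 hq.2).1 hp.1.symm hq.1.symm hpq⟩) T x ∅ hx (by simp) (by simp)
      (by simp [hT])
  exact ⟨x, hx, X, hX.trans Finset.sdiff_subset, hE⟩

/-- trees with a leaf edge attached at a vertex of small degree -/
theorem main_ns {S : Finset α} {m : ℕ} (hm : 3 ≤ m) (hS : S.card = 4 * m + 1)
    (hF : ¬ HasFano red S) (T' : RT) (hT' : T'.e + 1 = m) (hd : 2 * T'.deg ≤ m) :
    ∃ x ∈ S, ∃ X ⊆ S, Emb red (RT.cons RT.nil RT.nil T') x X := by
  classical
  by_contra hcon
  push Not at hcon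
  have hTe : (RT.cons RT.nil RT.nil T').e = m := by simp only [RT.e]; omega
  rcases greedy_or (by omega) hS hF with h | ⟨Z, hZS, hZc, hPF⟩
  · obtain ⟨x, hx, X, hX, hE⟩ := h _ hTe
    exact hcon x hx X hX hE
  set B := Z.filter (fun y => HasM (Rd red y) (Z.erase y) T'.deg) with hB
  have hAc : 4 ≤ (S \ Z).card := by
    rw [Finset.card_sdiff_of_subset hZS]; omega
  have hBZ : ∀ y ∈ B, y ∈ Z := fun y hy => (Finset.mem_filter.1 hy).1
  -- the outer pairs are blue with every vertex of `B`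
  have hout : ∀ y ∈ B, ∀ p ∈ S \ Z, ∀ q ∈ S \ Z, p ≠ q → Bl red y p q := by
    intro y hy p hp q hq hpq
    obtain ⟨hyZ, hyM⟩ := Finset.mem_filter.1 hy
    obtain ⟨X, hX, hE⟩ := r3 _ T' rfl Z hPF y hyZ (by omega) hyM
    rw [Finset.mem_sdiff] at hp hq
    have hyp : y ≠ p := fun e => hp.2 (e ▸ hyZ)
    have hyq : y ≠ q := fun e => hq.2 (e ▸ hyZ)
    refine bl_of_not_rd hyp hyq hpq ?_
    intro hR
    refine hcon y (hZS hyZ) ({p} ∪ {q} ∪ X) ?_ (Emb.cons hR (Emb.nil p) (Emb.nil q) hE ?_ ?_ ?_)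
    · intro v hv
      simp only [Finset.mem_union, Finset.mem_singleton] at hv
      rcases hv with (rfl | rfl) | hv
      · exact hp.1
      · exact hq.1
      · exact hZS (hX hv)
    · simpa using hpq
    · simp only [Finset.disjoint_singleton_left]
      exact fun h => hp.2 (hX h)
    · simp only [Finset.disjoint_singleton_left]
      exact fun h => hq.2 (hX h)
  -- `B` is a red clique
  have hred : ∀ a ∈ B, ∀ b ∈ B, ∀ c ∈ B, a ≠ b → a ≠ c → b ≠ c → Rd red a b c := by
    intro b1 h1 b2 h2 b3 h3 e12 e13 e23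
    refine rd_of_not_bl e12 e13 e23 ?_
    intro hbl
    obtain ⟨a2, m2, a4, m4, a5, m5, a6, m6, e24, e25, e26, e45, e46, e56⟩ := exists4 hAc
    have mS : ∀ v ∈ S \ Z, v ∈ S := fun v hv => (Finset.mem_sdiff.1 hv).1
    apply hF
    exact hasFano_of (a0 := b1) (a1 := b2) (a2 := a2) (a3 := b3) (a4 := a4) (a5 := a5) (a6 := a6)
      (hZS (hBZ b1 h1)) (hZS (hBZ b2 h2)) (mS _ m2) (hZS (hBZ b3 h3)) (mS _ m4) (mS _ m5)
      (mS _ m6) hbl (hout b2 h2 a2 m2 a4 m4 e24) (hout b3 h3 a2 m2 a5 m5 e25).s12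
      (hout b3 h3 a4 m4 a6 m6 e46) (hout b1 h1 a4 m4 a5 m5 e45).s12.s23
      (hout b2 h2 a5 m5 a6 m6 e56).s12.s23 (hout b1 h1 a6 m6 a2 m2 e26.symm).s12
  -- at most one vertex of `Z` is not in `B`
  have hexc : (Z.filter (fun y => ¬ HasM (Rd red y) (Z.erase y) T'.deg)).card ≤ 1 := by
    by_contra hc
    obtain ⟨y, hy, z, hz, hyz⟩ := Finset.one_lt_card.1 (not_le.1 hc)
    rw [Finset.mem_filter] at hy hz
    have hdpos : T'.deg ≠ 0 := by
      intro h0
      apply hy.2
      rw [h0]
      exact hasM_zero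
    obtain ⟨k, hk⟩ : ∃ k, T'.deg = k + 1 := ⟨T'.deg - 1, by omega⟩
    rw [hk] at hy hz hd
    obtain ⟨P, hP, hPc, hPi⟩ := (hasM_or_indep (G := Rd red y) (Z.erase y) k).resolve_left hy.2
    obtain ⟨P', hP', hPc', hPi'⟩ := (hasM_or_indep (G := Rd red z) (Z.erase z) k).resolve_left hz.2
    rw [Finset.card_erase_of_mem hy.1] at hPc
    rw [Finset.card_erase_of_mem hz.1] at hPc'
    have h3 : (P ∪ P').card ≤ Z.card := Finset.card_le_card (by
      intro v hv
      rcases Finset.mem_union.1 hv with hv | hv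
      · exact (Finset.mem_erase.1 (hP hv)).2
      · exact (Finset.mem_erase.1 (hP' hv)).2)
    have h4 := Finset.card_union_add_card_inter P P'
    refine no_common4 hPF hy.1 hz.1 hyz (Q := P ∩ P') ?_ (by omega) ?_ ?_
    · intro v hv
      exact (Finset.mem_erase.1 (hP (Finset.mem_inter.1 hv).1)).2
    · intro p hp q hq hpq
      rw [Finset.mem_inter] at hp hq
      exact bl_of_not_rd (Finset.mem_erase.1 (hP hp.1)).1.symm
        (Finset.mem_erase.1 (hP hq.1)).1.symm hpq (hPi p hp.1 q hq.1 hpq)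
    · intro p hp q hq hpq
      rw [Finset.mem_inter] at hp hq
      exact bl_of_not_rd (Finset.mem_erase.1 (hP' hp.2)).1.symm
        (Finset.mem_erase.1 (hP' hq.2)).1.symm hpq (hPi' p hp.2 q hq.2 hpq)
  have hBc : 2 * m + 1 ≤ B.card := by
    have h5 : B.card + (Z.filter (fun y => ¬ HasM (Rd red y) (Z.erase y) T'.deg)).card =
        Z.card := by
      rw [hB]
      exact Finset.card_filter_add_card_filter_not _
    omega
  obtain ⟨x, hx, X, hX, hE⟩ := emb_of_clique hBc hred _ hTe
  exact hcon x (hZS (hBZ x hx)) X (fun v hv => hZS (hBZ v (hX hv))) hE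

lemma exists_transversal {ι : Type*} [DecidableEq ι] (f : α → ι) (X : Finset α) :
    ∃ P ⊆ X, P.card = (X.image f).card ∧ ∀ a ∈ P, ∀ b ∈ P, a ≠ b → f a ≠ f b := by
  classical
  rcases X.eq_empty_or_nonempty with rfl | ⟨x0, _⟩
  · exact ⟨∅, by simp⟩
  have : Nonempty α := ⟨x0⟩
  have h : ∀ i ∈ X.image f, ∃ a ∈ X, f a = i := fun i hi => by
    obtain ⟨a, ha, h⟩ := Finset.mem_image.1 hi
    exact ⟨a, ha, h⟩
  choose! g hg1 hg2 using h
  refine ⟨(X.image f).image g, ?_, ?_, ?_⟩
  · intro a ha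
    obtain ⟨i, hi, rfl⟩ := Finset.mem_image.1 ha
    exact hg1 i hi
  · apply Finset.card_image_of_injOn
    intro i hi j hj hij
    rw [← hg2 i hi, ← hg2 j hj, hij]
  · intro a ha b hb hab he
    obtain ⟨i, hi, rfl⟩ := Finset.mem_image.1 ha
    obtain ⟨j, hj, rfl⟩ := Finset.mem_image.1 hb
    rw [hg2 i hi, hg2 j hj] at he
    exact hab (by rw [he])

/-- sunflowers with at least three petals -/
theorem main_sun {S : Finset α} {m : ℕ} (hm : 3 ≤ m) (hS : S.card = 4 * m + 1)
    (hF : ¬ HasFano red S) : ∃ x ∈ S, HasM (Rd red x) (S.erase x) m := by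
  classical
  by_contra hcon
  push Not at hcon
  have hst : ∀ v ∈ S, ∃ A lab, Struct red v (S.erase v) A lab (2 * m + 2) := by
    intro v hv
    refine exists_struct (Finset.notMem_erase v S) (k := m) (l := 2 * m) ?_ (hcon v hv)
    rw [Finset.card_erase_of_mem hv, hS]; omega
  choose! A lab hAl using hst
  have hcard : ∀ v ∈ S, (A v).card + 1 ≤ m := by
    intro v hv
    have h1 := struct_size (hAl v hv)
    rw [Finset.card_erase_of_mem hv, hS] at h1
    omega
  obtain ⟨u, hu, hmax⟩ := Finset.exists_max_image S (fun v => (A v).card)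
    (Finset.card_pos.1 (by omega))
  obtain ⟨P, hP, hPc, hPi⟩ := exists_transversal (lab u) ((S.erase u) \ A u)
  have hPS : ∀ v ∈ P, v ∈ S := by
    intro v hv
    exact (Finset.mem_erase.1 (Finset.mem_sdiff.1 (hP hv)).1).2
  have hPsub : P ⊆ S := hPS
  have hPc' : (A u).card + (2 * m + 2) ≤ P.card := by
    rw [hPc]; exact (hAl u hu).2.2
  have hPF : PF red P := PF_of_link hF hu hPsub (by
    intro p hp q hq hpq
    exact (hAl u hu).2.1 p (hP hp) q (hP hq) (hPi p hp q hq hpq))
  have hSP : (S \ P).card = 4 * m + 1 - P.card := by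
    rw [Finset.card_sdiff_of_subset hPsub, hS]
  -- conclusion from two centres with three labels each
  have hfin : ∀ v ∈ P, ∀ w ∈ P, v ≠ w → 4 ≤ (((P.erase v).erase w) \ (A v ∪ A w)).card →
      3 ≤ ((((P.erase v).erase w) \ (A v ∪ A w)).image (lab v)).card →
      3 ≤ ((((P.erase v).erase w) \ (A v ∪ A w)).image (lab w)).card → False := by
    intro v hv w hw hvw h4 h3 h3'
    obtain ⟨p, hp, q, hq, r, hr, t, ht, hpr, hqt, f1, f2, f3, f4⟩ := altC4 (lab v) (lab w) _ h4 h3 h3'
    have m0 : ∀ a ∈ ((P.erase v).erase w) \ (A v ∪ A w), a ∈ P := by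
      intro a ha
      simp only [Finset.mem_sdiff, Finset.mem_erase] at ha
      exact ha.1.2.2
    have m1 : ∀ a ∈ ((P.erase v).erase w) \ (A v ∪ A w), a ∈ (S.erase v) \ A v := by
      intro a ha
      simp only [Finset.mem_sdiff, Finset.mem_erase, Finset.mem_union, not_or] at ha ⊢
      exact ⟨⟨ha.1.2.1, hPS a ha.1.2.2⟩, ha.2.1⟩
    have m2 : ∀ a ∈ ((P.erase v).erase w) \ (A v ∪ A w), a ∈ (S.erase w) \ A w := by
      intro a ha
      simp only [Finset.mem_sdiff, Finset.mem_erase, Finset.mem_union, not_or] at ha ⊢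
      exact ⟨⟨ha.1.1, hPS a ha.1.2.2⟩, ha.2.2⟩
    exact hPF v hv w hw p (m0 p hp) q (m0 q hq) r (m0 r hr) t (m0 t ht) hvw hpr hqt
      ((hAl v (hPS v hv)).2.1 p (m1 p hp) q (m1 q hq) f1)
      ((hAl w (hPS w hw)).2.1 q (m2 q hq) r (m2 r hr) f2)
      ((hAl v (hPS v hv)).2.1 r (m1 r hr) t (m1 t ht) f3)
      ((hAl w (hPS w hw)).2.1 t (m2 t ht) p (m2 p hp) f4)
  -- number of labels
  have hlab : ∀ v ∈ P, ∀ w ∈ P, v ≠ w →
      (A v).card + P.card ≤ ((((P.erase v).erase w) \ (A v ∪ A w)).image (lab v)).card +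
        (A w).card + 2 * m := by
    intro v hv w hw hvw
    have hsub : (S.erase v) \ A v ⊆ (((P.erase v).erase w) \ (A v ∪ A w)) ∪
        ((S \ P) ∪ insert w (A w)) := by
      intro a ha
      simp only [Finset.mem_sdiff, Finset.mem_erase, Finset.mem_union, Finset.mem_insert] at ha ⊢
      tauto
    have h1 := image_card_le (lab v) hsub
    have h2 := Finset.card_union_le (S \ P) (insert w (A w))
    have h3 := Finset.card_insert_le w (A w)
    have h4 := (hAl v (hPS v hv)).2.2
    have h5 := Finset.card_le_card hPsub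
    omega
  rcases Nat.eq_zero_or_pos (A u).card with h0 | hpos
  · -- all deleted sets are empty
    have hA0 : ∀ v ∈ S, A v = ∅ := by
      intro v hv
      have := hmax v hv
      exact Finset.card_eq_zero.1 (by omega)
    have hP8 : 8 ≤ P.card := by omega
    set K : α → Finset α := fun v => (P.erase v).filter
      (fun w => (((P.erase v).erase w).image (lab v)).card ≤ 2) with hK
    have hK2 : ∀ v ∈ P, (K v).card ≤ 2 := by
      intro v hv
      by_contra hc
      obtain ⟨w1, hw1, w2, hw2, w3, hw3, e12, e13, e23⟩ := Finset.two_lt_card.1 (not_le.1 hc)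
      simp only [hK, Finset.mem_filter] at hw1 hw2 hw3
      have h3 : 3 ≤ ((P.erase v).image (lab v)).card := by
        have hsub : (S.erase v) \ A v ⊆ (P.erase v) ∪ (S \ P) := by
          intro a ha
          simp only [Finset.mem_sdiff, Finset.mem_erase, Finset.mem_union] at ha ⊢
          tauto
        have h1 := image_card_le (lab v) hsub
        have h4 := (hAl v (hPS v hv)).2.2
        have h5 := Finset.card_le_card hPsub
        omega
      -- each `w_i` carries a private label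
      have hpriv : ∀ w ∈ P.erase v, (((P.erase v).erase w).image (lab v)).card ≤ 2 →
          ((P.erase v).image (lab v)).card = 3 ∧ ∀ a ∈ (P.erase v).erase w, lab v a ≠ lab v w := by
        intro w hw hc2
        have h1 : (P.erase v).image (lab v) ⊆ insert (lab v w) (((P.erase v).erase w).image (lab v)) := by
          intro i hi
          obtain ⟨a, ha, rfl⟩ := Finset.mem_image.1 hi
          by_cases haw : a = w
          · rw [haw]; exact Finset.mem_insert_self _ _
          · exact Finset.mem_insert_of_mem (Finset.mem_image_of_mem _ (Finset.mem_erase.2 ⟨haw, ha⟩))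
        have h2 := Finset.card_le_card h1
        have h4 := Finset.card_insert_le (lab v w) (((P.erase v).erase w).image (lab v))
        refine ⟨by omega, ?_⟩
        intro a ha he
        have h5 : lab v w ∈ ((P.erase v).erase w).image (lab v) :=
          Finset.mem_image.2 ⟨a, ha, he⟩
        rw [Finset.insert_eq_of_mem h5] at h2
        omega
      obtain ⟨c3, p1⟩ := hpriv w1 hw1.1 hw1.2
      obtain ⟨_, p2⟩ := hpriv w2 hw2.1 hw2.2
      obtain ⟨_, p3⟩ := hpriv w3 hw3.1 hw3.2
      have l12 := p2 w1 (Finset.mem_erase.2 ⟨e12, hw1.1⟩)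
      have l13 := p3 w1 (Finset.mem_erase.2 ⟨e13, hw1.1⟩)
      have l23 := p3 w2 (Finset.mem_erase.2 ⟨e23, hw2.1⟩)
      have heq : ({lab v w1, lab v w2, lab v w3} : Finset (Finset α)) = (P.erase v).image (lab v) := by
        apply Finset.eq_of_subset_of_card_le
        · intro i hi
          simp only [Finset.mem_insert, Finset.mem_singleton] at hi
          rcases hi with rfl | rfl | rfl
          · exact Finset.mem_image_of_mem _ hw1.1
          · exact Finset.mem_image_of_mem _ hw2.1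
          · exact Finset.mem_image_of_mem _ hw3.1
        · rw [c3, Finset.card_eq_three.2 ⟨_, _, _, l12, l13, l23, rfl⟩]
      have hex : ∃ a ∈ P.erase v, a ≠ w1 ∧ a ≠ w2 ∧ a ≠ w3 := by
        by_contra hno
        push Not at hno
        have hs : P.erase v ⊆ {w1, w2, w3} := by
          intro a ha
          simp only [Finset.mem_insert, Finset.mem_singleton]
          by_contra hne
          push Not at hne
          exact hne.2.2 (hno a ha hne.1 hne.2.1)
        have h6 := Finset.card_le_card hs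
        have h7 := Finset.card_le_three (a := w1) (b := w2) (c := w3)
        rw [Finset.card_erase_of_mem hv] at h6
        omega
      obtain ⟨a, ha, a1, a2, a3⟩ := hex
      have hma : lab v a ∈ (P.erase v).image (lab v) := Finset.mem_image_of_mem _ ha
      rw [← heq] at hma
      simp only [Finset.mem_insert, Finset.mem_singleton] at hma
      rcases hma with h | h | h
      · exact p1 a (Finset.mem_erase.2 ⟨a1, ha⟩) h
      · exact p2 a (Finset.mem_erase.2 ⟨a2, ha⟩) h
      · exact p3 a (Finset.mem_erase.2 ⟨a3, ha⟩) h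
    have hex : ∃ v ∈ P, ∃ w ∈ P, v ≠ w ∧ w ∉ K v ∧ v ∉ K w := by
      by_contra hno
      push Not at hno
      set E1 := P.biUnion (fun v => (K v).image (fun w => (v, w))) with hE1
      set E2 := P.biUnion (fun v => (K v).image (fun w => (w, v))) with hE2
      have c1 : E1.card ≤ P.card * 2 := by
        refine Finset.card_biUnion_le_card_mul _ _ _ ?_
        intro v hv
        exact Finset.card_image_le.trans (hK2 v hv)
      have c2 : E2.card ≤ P.card * 2 := by
        refine Finset.card_biUnion_le_card_mul _ _ _ ?_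
        intro v hv
        exact Finset.card_image_le.trans (hK2 v hv)
      have hsub : P.offDiag ⊆ E1 ∪ E2 := by
        rintro ⟨v, w⟩ hvw
        rw [Finset.mem_offDiag] at hvw
        obtain ⟨hv, hw, hne⟩ := hvw
        rw [Finset.mem_union]
        by_cases hwK : w ∈ K v
        · left
          exact Finset.mem_biUnion.2 ⟨v, hv, Finset.mem_image.2 ⟨w, hwK, rfl⟩⟩
        · right
          exact Finset.mem_biUnion.2 ⟨w, hw, Finset.mem_image.2 ⟨v, hno v hv w hw hne hwK, rfl⟩⟩
      have c3 := Finset.card_le_card hsub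
      have c4 := Finset.card_union_le E1 E2
      rw [Finset.offDiag_card] at c3
      have c5 : P.card * P.card ≤ 5 * P.card := by
        have : P.card ≤ P.card * P.card := Nat.le_mul_self _
        omega
      have c6 : P.card ≤ 5 := Nat.le_of_mul_le_mul_right c5 (by omega)
      omega
    obtain ⟨v, hv, w, hw, hvw, h1, h2⟩ := hex
    have e0 : ((P.erase v).erase w) \ (A v ∪ A w) = (P.erase v).erase w := by
      rw [hA0 v (hPS v hv), hA0 w (hPS w hw)]; simp
    refine hfin v hv w hw hvw ?_ ?_ ?_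
    · rw [e0, Finset.card_erase_of_mem (Finset.mem_erase.2 ⟨hvw.symm, hw⟩),
        Finset.card_erase_of_mem hv]
      omega
    · rw [e0]
      by_contra hc
      exact h1 (Finset.mem_filter.2 ⟨Finset.mem_erase.2 ⟨hvw.symm, hw⟩, by omega⟩)
    · rw [e0, Finset.erase_right_comm]
      by_contra hc
      exact h2 (Finset.mem_filter.2 ⟨Finset.mem_erase.2 ⟨hvw, hv⟩, by omega⟩)
  · -- two centres with the same number of deleted vertices
    have hpig : ∃ v ∈ P, ∃ w ∈ P, v ≠ w ∧ (A v).card = (A w).card := by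
      refine Finset.exists_ne_map_eq_of_card_lt_of_maps_to (t := Finset.range ((A u).card + 1))
        ?_ ?_
      · rw [Finset.card_range]; omega
      · intro v hv
        have := hmax v (hPS v hv)
        simp only [Finset.coe_range, Set.mem_Iio]
        omega
    obtain ⟨v, hv, w, hw, hvw, he⟩ := hpig
    have h1 := hmax v (hPS v hv)
    have h2 := hmax w (hPS w hw)
    have h3 := hcard u hu
    have h4 := hlab v hv w hw hvw
    have h5 := hlab w hw v hv hvw.symm
    rw [Finset.erase_right_comm, Finset.union_comm (A w) (A v)] at h5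
    refine hfin v hv w hw hvw ?_ (by omega) (by omega)
    have h6 : ((P.erase v).erase w).card - (A v ∪ A w).card ≤
      (((P.erase v).erase w) \ (A v ∪ A w)).card := Finset.le_card_sdiff _ _
    have h7 := Finset.card_union_le (A v) (A w)
    rw [Finset.card_erase_of_mem (Finset.mem_erase.2 ⟨hvw.symm, hw⟩),
        Finset.card_erase_of_mem hv] at h6
    omega

/-- six points without blue Pasch configuration contain two red triples with exactly one common
point -/
lemma six {Z : Finset α} (hZ : 6 ≤ Z.card) (hPF : PF red Z) :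
    ∃ x ∈ Z, HasM (Rd red x) (Z.erase x) 2 := by
  classical
  by_contra hcon
  push Not at hcon
  have hch : ∀ x ∈ Z, ∀ a ∈ Z, ∀ b ∈ Z, ∀ c ∈ Z, ∀ d ∈ Z, a ≠ c → a ≠ d → b ≠ c → b ≠ d →
      Rd red x a b → Rd red x c d → False := by
    intro x hx a ha b hb c hc d hd e1 e2 e3 e4 h1 h2
    apply hcon x hx
    refine ⟨insert a (insert b (insert c (insert d ∅))), ?_, ?_, ?_⟩
    · intro v hv
      simp only [Finset.mem_insert, Finset.notMem_empty, or_false] at hv
      rw [Finset.mem_erase]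
      rcases hv with rfl | rfl | rfl | rfl
      · exact ⟨h1.1.symm, ha⟩
      · exact ⟨h1.2.1.symm, hb⟩
      · exact ⟨h2.1.symm, hc⟩
      · exact ⟨h2.2.1.symm, hd⟩
    · rw [card_ins2 (by simp [e1, e2]) (by simp [e3, e4]) h1.2.2.1,
        card_ins2 (by simp) (by simp) h2.2.2.1]
      simp
    · exact PM.cons (by simp [e1, e2]) (by simp [e3, e4]) h1.2.2.1 h1
        (PM.cons (by simp) (by simp) h2.2.2.1 h2 PM.nil)
  by_cases hr : ∃ x ∈ Z, ∃ y ∈ Z, ∃ z ∈ Z, Rd red x y z
  · obtain ⟨x, hx, y, hy, z, hz, hxyz⟩ := hr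
    have h3 : 2 < (((Z.erase x).erase y).erase z).card := by
      rw [Finset.card_erase_of_mem, Finset.card_erase_of_mem, Finset.card_erase_of_mem hx]
      · omega
      · exact Finset.mem_erase.2 ⟨hxyz.1.symm, hy⟩
      · simp only [Finset.mem_erase]
        exact ⟨hxyz.2.2.1.symm, hxyz.2.1.symm, hz⟩
    obtain ⟨a, ha, b, hb, c, hc, hab, hac, hbc⟩ := Finset.two_lt_card.1 h3
    simp only [Finset.mem_erase] at ha hb hc
    obtain ⟨az, ay, ax, haZ⟩ := ha
    obtain ⟨bz, by', bx, hbZ⟩ := hb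
    obtain ⟨cz, cy, cx, hcZ⟩ := hc
    -- triples meeting `{x, y, z}` in one point are blue
    have hblu : ∀ s ∈ Z, ∀ i ∈ Z, ∀ j ∈ Z, Rd red s i j → ∀ k ∈ Z, ∀ l ∈ Z, s ≠ k → s ≠ l → i ≠ k →
        i ≠ l → j ≠ k → j ≠ l → k ≠ l → Bl red s k l := by
      intro s hs i hi j hj hR k hk l hl e1 e2 e3 e4 e5 e6 e7
      refine bl_of_not_rd e1 e2 e7 ?_
      intro hR'
      exact hch s hs i hi j hj k hk l hl e3 e4 e5 e6 hR hR'
    -- the key alternative
    have key : ∀ s ∈ Z, ∀ i ∈ Z, ∀ j ∈ Z, Rd red s i j → ∀ k ∈ Z, ∀ k' ∈ Z, ∀ k'' ∈ Z,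
        k ≠ s → k ≠ i → k ≠ j → k' ≠ s → k' ≠ i → k' ≠ j → k'' ≠ s → k'' ≠ i → k'' ≠ j →
        k ≠ k' → k ≠ k'' → k' ≠ k'' → Rd red s i k ∨ Rd red s j k' := by
      intro s hs i hi j hj hR k hk k' hk' k'' hk'' e1 e2 e3 e4 e5 e6 e7 e8 e9 f1 f2 f3
      by_contra hno
      push Not at hno
      have b1 := bl_of_not_rd hR.1 e1.symm e2.symm hno.1
      have b2 := bl_of_not_rd hR.2.1 e4.symm e6.symm hno.2
      have b3 := hblu i hi s hs j hj hR.s12 k' hk' k'' hk'' e5.symm e8.symm e4.symm e7.symm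
        e6.symm e9.symm f3
      have b4 := hblu j hj s hs i hi hR.s23.s12 k hk k'' hk'' e3.symm e9.symm e1.symm e7.symm
        e2.symm e8.symm f2
      exact hPF i hi j hj s hs k hk k'' hk'' k' hk' hR.2.2.1 e7.symm f1 b1.s12 b4 b3.s23 b2.s12.s23
    rcases key z hz x hx y hy hxyz.s23.s12 a haZ b hbZ c hcZ az ax ay bz bx by' cz cx cy hab hac hbc
      with h | h
    · -- `z x a` red
      rcases key y hy x hx z hz hxyz.s12 b hbZ c hcZ a haZ by' bx bz cy cx cz ay ax az hbc
        hab.symm hac.symm with h' | h'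
      · -- `y x b` red and `z x a` red: cherry at `x`
        exact hch x hx z hz a haZ y hy b hbZ hxyz.2.2.1.symm bz.symm ay hab h.s12 h'.s12
      · -- `y z c` red and `z x a` red: cherry at `z`
        exact hch z hz x hx a haZ y hy c hcZ hxyz.1 cx.symm ay hac h h'.s12
    · -- `z y b` red
      rcases key x hx y hy z hz hxyz a haZ c hcZ b hbZ ax ay az cx cy cz bx by' bz hac hab
        hbc.symm with h' | h'
      · -- `x y a` red: cherry at `y`
        exact hch y hy z hz b hbZ x hx a haZ hxyz.2.1.symm az.symm bx hab.symm h.s12 h'.s12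
      · -- `x z c` red: cherry at `z`
        exact hch z hz y hy b hbZ x hx c hcZ hxyz.1.symm cy.symm bx hbc h h'.s12
  · push Not at hr
    obtain ⟨Y, hY, hYc⟩ := Finset.exists_subset_card_eq (s := Z) (n := 6) hZ
    obtain ⟨a, ha⟩ := Finset.card_pos.1 (by omega : 0 < Y.card)
    obtain ⟨b, hb⟩ := Finset.card_pos.1 (by rw [Finset.card_erase_of_mem ha]; omega :
      0 < (Y.erase a).card)
    have h4 : 4 ≤ ((Y.erase a).erase b).card := by
      rw [Finset.card_erase_of_mem hb, Finset.card_erase_of_mem ha]; omega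
    obtain ⟨p, hp, q, hq, r, hr', t, ht, hpq, hpr, hpt, hqr, hqt, hrt⟩ := exists4 h4
    simp only [Finset.mem_erase] at hb hp hq hr' ht
    have e : ∀ x ∈ Y, ∀ y ∈ Y, ∀ z ∈ Y, x ≠ y → x ≠ z → y ≠ z → Bl red x y z := by
      intro x hx y hy z hz h1 h2 h3
      exact bl_of_not_rd h1 h2 h3 (hr x (hY hx) y (hY hy) z (hY hz))
    exact hPF a (hY ha) b (hY hb.2) p (hY hp.2.2) q (hY hq.2.2) r (hY hr'.2.2) t (hY ht.2.2)
      hb.1.symm hpr hqt (e a ha p hp.2.2 q hq.2.2 hp.2.1.symm hq.2.1.symm hpq)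
      (e b hb.2 q hq.2.2 r hr'.2.2 hq.1.symm hr'.1.symm hqr)
      (e a ha r hr'.2.2 t ht.2.2 hr'.2.1.symm ht.2.1.symm hrt)
      (e b hb.2 t ht.2.2 p hp.2.2 ht.1.symm hp.1.symm hpt.symm)

/-- sunflowers with at least two petals -/
theorem main_star {S : Finset α} {m : ℕ} (hm : 2 ≤ m) (hS : S.card = 4 * m + 1)
    (hF : ¬ HasFano red S) : ∃ x ∈ S, ∃ X ⊆ S, Emb red (star m) x X := by
  rcases Nat.lt_or_ge 2 m with h | h
  · obtain ⟨x, hx, hM⟩ := main_sun h hS hF
    obtain ⟨X, hX, hE⟩ := emb_star_of_hasM hx hM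
    exact ⟨x, hx, X, hX, hE⟩
  · have : m = 2 := by omega
    subst this
    rcases greedy_or (by omega) hS hF with h | ⟨Z, hZS, hZc, hPF⟩
    · exact h (star 2) (star_e 2)
    · obtain ⟨x, hx, hM⟩ := six (by omega) hPF
      obtain ⟨X, hX, hE⟩ := emb_star_of_hasM hx hM
      exact ⟨x, hZS hx, X, hX.trans hZS, hE⟩

end Run7.h175
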