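import Pool.Agent.Run7.h175.Basic
import Pool.Agent.Run7.h175.TB

/-!
# Matchings as perfectly matched finite sets
-/

namespace Run7.h175

variable {α : Type*} [DecidableEq α]

/-- `C` is perfectly matched by `G`-edges -/
inductive PM (G : α → α → Prop) : Finset α → Prop
  | nil : PM G ∅
  | cons {a b : α} {C : Finset α} (ha : a ∉ C) (hb : b ∉ C) (hab : a ≠ b) (h : G a b)
      (hC : PM G C) : PM G (insert a (insert b C))

/-- `S` contains a matching with `k` edges -/
def HasM (G : α → α → Prop) (S : Finset α) (k : ℕ) : Prop :=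
  ∃ C ⊆ S, C.card = 2 * k ∧ PM G C

variable {G : α → α → Prop}

lemma card_ins2 {a b : α} {C : Finset α} (ha : a ∉ C) (hb : b ∉ C) (hab : a ≠ b) :
    (insert a (insert b C)).card = C.card + 2 := by
  rw [Finset.card_insert_of_notMem, Finset.card_insert_of_notMem hb]
  simp [hab, ha]

lemma PM.card_even {C : Finset α} (h : PM G C) : ∃ k, C.card = 2 * k := by
  induction h with
  | nil => exact ⟨0, rfl⟩
  | cons ha hb hab h _ ih =>
    obtain ⟨k, hk⟩ := ih
    refine ⟨k + 1, ?_⟩
    rw [card_ins2 ha hb hab, hk]; ring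

lemma PM.partner (hs : ∀ a b, G a b → G b a) {C : Finset α} (h : PM G C) :
    ∀ v ∈ C, ∃ w ∈ C, w ≠ v ∧ G v w ∧ PM G ((C.erase v).erase w) := by
  induction h with
  | nil => intro v hv; simp at hv
  | @cons a b C ha hb hab h hC ih =>
    intro v hv
    by_cases hva : v = a
    · subst hva
      refine ⟨b, by simp, hab.symm, h, ?_⟩
      have : ((insert v (insert b C)).erase v).erase b = C := by
        ext x; simp only [Finset.mem_erase, Finset.mem_insert]
        constructor
        · rintro ⟨h1, h2, h3⟩; tauto
        · intro hx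
          exact ⟨fun e => hb (e ▸ hx), fun e => ha (e ▸ hx), Or.inr (Or.inr hx)⟩
      rwa [this]
    by_cases hvb : v = b
    · subst hvb
      refine ⟨a, by simp, hab, hs _ _ h, ?_⟩
      have : ((insert a (insert v C)).erase v).erase a = C := by
        ext x; simp only [Finset.mem_erase, Finset.mem_insert]
        constructor
        · rintro ⟨h1, h2, h3⟩; tauto
        · intro hx
          exact ⟨fun e => ha (e ▸ hx), fun e => hb (e ▸ hx), Or.inr (Or.inr hx)⟩
      rwa [this]
    · have hvC : v ∈ C := by simpa [hva, hvb] using hv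
      obtain ⟨w, hw, hwv, hG, hP⟩ := ih v hvC
      refine ⟨w, by simp [hw], hwv, hG, ?_⟩
      have : ((insert a (insert b C)).erase v).erase w =
          insert a (insert b ((C.erase v).erase w)) := by
        ext x; simp only [Finset.mem_erase, Finset.mem_insert]
        have haw : a ≠ w := fun e => ha (e ▸ hw)
        have hbw : b ≠ w := fun e => hb (e ▸ hw)
        constructor
        · rintro ⟨h1, h2, h3⟩; tauto
        · rintro (rfl | rfl | h3)
          · exact ⟨haw, fun e => hva e.symm, Or.inl rfl⟩
          · exact ⟨hbw, fun e => hvb e.symm, Or.inr (Or.inl rfl)⟩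
          · exact ⟨h3.1, h3.2.1, Or.inr (Or.inr h3.2.2)⟩
      rw [this]
      exact PM.cons (by simp [ha]) (by simp [hb]) hab h hP

lemma PM.union {C D : Finset α} (hC : PM G C) (hD : PM G D) (hd : Disjoint C D) :
    PM G (C ∪ D) := by
  induction hC with
  | nil => simpa using hD
  | @cons a b C ha hb hab h hC ih =>
    rw [Finset.disjoint_left] at hd
    have haD : a ∉ D := hd (by simp)
    have hbD : b ∉ D := hd (by simp)
    have : insert a (insert b C) ∪ D = insert a (insert b (C ∪ D)) := by
      ext x; simp only [Finset.mem_union, Finset.mem_insert]; tauto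
    rw [this]
    refine PM.cons (by simp [ha, haD]) (by simp [hb, hbD]) hab h (ih ?_)
    rw [Finset.disjoint_left]
    intro x hx
    exact hd (by simp [hx])

lemma PM.sub {C : Finset α} (hC : PM G C) :
    ∀ j k, C.card = 2 * k → j ≤ k → ∃ D ⊆ C, D.card = 2 * j ∧ PM G D := by
  induction hC with
  | nil =>
    intro j k hk hj
    have : k = 0 := by simp at hk; omega
    have : j = 0 := by omega
    subst this
    exact ⟨∅, by simp, by simp, PM.nil⟩
  | @cons a b C ha hb hab h hC ih =>
    intro j k hk hj
    rw [card_ins2 ha hb hab] at hk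
    by_cases hjk : j = k
    · subst hjk
      refine ⟨_, Finset.Subset.refl _, ?_, PM.cons ha hb hab h hC⟩
      rw [card_ins2 ha hb hab, hk]
    · obtain ⟨D, hD, hc, hP⟩ := ih j (k - 1) (by omega) (by omega)
      refine ⟨D, fun x hx => ?_, hc, hP⟩
      simp [hD hx]

lemma PM.mono_rel {G' : α → α → Prop} (hG : ∀ a b, G a b → G' a b) {C : Finset α}
    (h : PM G C) : PM G' C := by
  induction h with
  | nil => exact PM.nil
  | cons ha hb hab h _ ih => exact PM.cons ha hb hab (hG _ _ h) ih

lemma HasM.mono {S S' : Finset α} {k j : ℕ} (h : HasM G S k) (hS : S ⊆ S') (hj : j ≤ k) :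
    HasM G S' j := by
  obtain ⟨C, hC, hc, hP⟩ := h
  obtain ⟨D, hD, hd, hPD⟩ := hP.sub j k hc hj
  exact ⟨D, fun x hx => hS (hC (hD hx)), hd, hPD⟩

lemma hasM_zero {S : Finset α} : HasM G S 0 := ⟨∅, by simp, by simp, PM.nil⟩

lemma PM_of_invol (hG : ∀ a b, G a b → a ≠ b) (m : α → α) :
    ∀ (n : ℕ) (W : Finset α), W.card = n → (∀ x ∈ W, m x ∈ W ∧ m (m x) = x ∧ G x (m x)) →
      PM G W := by
  intro n
  induction n using Nat.strong_induction_on with
  | _ n ih =>
    intro W hW hm
    rcases W.eq_empty_or_nonempty with rfl | ⟨x, hx⟩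
    · exact PM.nil
    · obtain ⟨h1, h2, h3⟩ := hm x hx
      have hne := hG _ _ h3
      have hW' : W = insert x (insert (m x) ((W.erase x).erase (m x))) := by
        ext y; simp only [Finset.mem_insert, Finset.mem_erase]
        constructor
        · intro hy; tauto
        · rintro (rfl | rfl | h) <;> tauto
      have hc : ((W.erase x).erase (m x)).card < n := by
        rw [← hW]
        refine lt_of_le_of_lt (Finset.card_erase_le) ?_
        exact Finset.card_erase_lt_of_mem hx
      rw [hW']
      refine PM.cons (by simp) (by simp) hne h3 ?_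
      refine ih _ hc _ rfl ?_
      intro y hy
      simp only [Finset.mem_erase] at hy ⊢
      obtain ⟨hy1, hy2, hy3⟩ := hy
      obtain ⟨g1, g2, g3⟩ := hm y hy3
      refine ⟨⟨?_, ?_, g1⟩, g2, g3⟩
      · intro e
        apply hy2
        rw [← g2, e, h2]
      · intro e
        apply hy1
        rw [← e, g2]

/-- maximal matchings: either a matching with `k` edges or a large independent set -/
lemma hasM_or_indep (T : Finset α) (k : ℕ) :
    HasM G T (k + 1) ∨ ∃ P ⊆ T, T.card ≤ P.card + 2 * k ∧ ∀ a ∈ P, ∀ b ∈ P, a ≠ b → ¬ G a b := by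
  induction k with
  | zero =>
    by_cases h : ∃ a ∈ T, ∃ b ∈ T, a ≠ b ∧ G a b
    · obtain ⟨a, ha, b, hb, hab, hG⟩ := h
      left
      refine ⟨insert a (insert b ∅), ?_, ?_, PM.cons (by simp) (by simp) hab hG PM.nil⟩
      · intro x; simp only [Finset.mem_insert]
        rintro (rfl | rfl | h)
        · exact ha
        · exact hb
        · simp at h
      · rw [card_ins2 (by simp) (by simp) hab]; simp
    · right
      push Not at h
      exact ⟨T, Finset.Subset.refl _, by omega, h⟩
  | succ k ih =>
    rcases ih with ⟨C, hC, hc, hP⟩ | ⟨P, hP, hc, hi⟩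
    · by_cases h : ∃ a ∈ T \ C, ∃ b ∈ T \ C, a ≠ b ∧ G a b
      · obtain ⟨a, ha, b, hb, hab, hG⟩ := h
        rw [Finset.mem_sdiff] at ha hb
        left
        refine ⟨insert a (insert b C), ?_, ?_, PM.cons ha.2 hb.2 hab hG hP⟩
        · intro x; simp only [Finset.mem_insert]
          rintro (rfl | rfl | h)
          · exact ha.1
          · exact hb.1
          · exact hC h
        · rw [card_ins2 ha.2 hb.2 hab, hc]; ring
      · right
        push Not at h
        refine ⟨T \ C, Finset.sdiff_subset, ?_, h⟩
        rw [Finset.card_sdiff_of_subset hC]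
        have := Finset.card_le_card hC
        omega
    · right
      exact ⟨P, hP, by omega, hi⟩

end Run7.h175
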