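import Pool.Agent.Run7.h175.Struct

/-!
# Centres with large red matchings, and the double-centre lemma
-/

set_option linter.unusedSectionVars false

namespace Run7.h175

variable {α : Type*} [DecidableEq α] {red : Finset α → Prop}

lemma image_card_le {ι : Type*} [DecidableEq ι] (f : α → ι) {X Y L : Finset α}
    (h : X ⊆ Y ∪ L) : (X.image f).card ≤ (Y.image f).card + L.card := by
  calc (X.image f).card ≤ ((Y ∪ L).image f).card := Finset.card_le_card (Finset.image_subset_image h)
    _ = (Y.image f ∪ L.image f).card := by rw [Finset.image_union]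
    _ ≤ (Y.image f).card + (L.image f).card := Finset.card_union_le _ _
    _ ≤ (Y.image f).card + L.card := Nat.add_le_add_left Finset.card_image_le _

lemma struct_size {y : α} {T A : Finset α} {lab : α → Finset α} {n : ℕ}
    (h : Struct red y T A lab n) : 2 * A.card + n ≤ T.card := by
  have h1 := h.2.2
  have h2 : ((T \ A).image lab).card ≤ (T \ A).card := Finset.card_image_le
  rw [Finset.card_sdiff_of_subset h.1] at h2
  have := Finset.card_le_card h.1
  omega

/-- two structures with the same deleted size give a blue Pasch configuration -/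
lemma inj_struct {U : Finset α} (hU : PF red U) {y y' : α} (hy : y ∈ U) (hy' : y' ∈ U)
    (hne : y ≠ y') {A A' : Finset α} {lab lab' : α → Finset α} {n s : ℕ} (hn : 4 ≤ n)
    (h : Struct red y (U.erase y) A lab n) (h' : Struct red y' (U.erase y') A' lab' n)
    (hA : A.card = s) (hA' : A'.card = s) (hs : 2 * s + 6 ≤ U.card) : False := by
  set Y := ((U.erase y).erase y') \ (A ∪ A') with hY
  have hYc : 4 ≤ Y.card := by
    have h1 : ((U.erase y).erase y').card = U.card - 2 := by
      rw [Finset.card_erase_of_mem (Finset.mem_erase.2 ⟨hne.symm, hy'⟩), Finset.card_erase_of_mem hy]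
      omega
    have h2 : ((U.erase y).erase y').card - (A ∪ A').card ≤ Y.card :=
      Finset.le_card_sdiff _ _
    have h3 := Finset.card_union_le A A'
    omega
  have hsub : (U.erase y) \ A ⊆ Y ∪ insert y' A' := by
    intro v hv
    simp only [hY, Finset.mem_sdiff, Finset.mem_erase, Finset.mem_union, Finset.mem_insert] at hv ⊢
    tauto
  have hsub' : (U.erase y') \ A' ⊆ Y ∪ insert y A := by
    intro v hv
    simp only [hY, Finset.mem_sdiff, Finset.mem_erase, Finset.mem_union, Finset.mem_insert] at hv ⊢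
    tauto
  have c1 := image_card_le lab hsub
  have c2 := image_card_le lab' hsub'
  have d1 : (insert y' A').card ≤ A'.card + 1 := Finset.card_insert_le _ _
  have d2 : (insert y A).card ≤ A.card + 1 := Finset.card_insert_le _ _
  have e1 := h.2.2
  have e2 := h'.2.2
  obtain ⟨p, hp, q, hq, r, hr, t, ht, hpr, hqt, f1, f2, f3, f4⟩ :=
    altC4 lab lab' Y hYc (by omega) (by omega)
  have mU : ∀ v ∈ Y, v ∈ U := by
    intro v hv
    simp only [hY, Finset.mem_sdiff, Finset.mem_erase] at hv
    exact hv.1.2.2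
  have m1 : ∀ v ∈ Y, v ∈ (U.erase y) \ A := by
    intro v hv
    simp only [hY, Finset.mem_sdiff, Finset.mem_erase, Finset.mem_union] at hv ⊢
    tauto
  have m2 : ∀ v ∈ Y, v ∈ (U.erase y') \ A' := by
    intro v hv
    simp only [hY, Finset.mem_sdiff, Finset.mem_erase, Finset.mem_union] at hv ⊢
    tauto
  exact hU y hy y' hy' p (mU p hp) q (mU q hq) r (mU r hr) t (mU t ht) hne hpr hqt
    (h.2.1 p (m1 p hp) q (m1 q hq) f1) (h'.2.1 q (m2 q hq) r (m2 r hr) f2)
    (h.2.1 r (m1 r hr) t (m1 t ht) f3) (h'.2.1 t (m2 t ht) p (m2 p hp) f4)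

/-- a vertex `x` that lies in a red triple has a neighbour with a large red matching -/
theorem splus {Z : Finset α} {h : ℕ} (hZ : Z.card = 2 * h + 6) (hPF : PF red Z) {x : α}
    (hx : x ∈ Z) (hR : ∃ y ∈ Z, ∃ z ∈ Z, Rd red x y z) :
    ∃ y ∈ Z, (∃ z ∈ Z, Rd red x y z) ∧ HasM (Rd red y) (Z.erase y) (h + 1) := by
  classical
  by_contra hcon
  push Not at hcon
  set N := Z.filter (fun y => ∃ z ∈ Z, Rd red x y z) with hN
  have hNZ : ∀ y ∈ N, y ∈ Z := fun y hy => (Finset.mem_filter.1 hy).1
  have hst : ∀ y ∈ N, ∃ A lab, Struct red y (Z.erase y) A lab 5 := by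
    intro y hy
    rw [hN, Finset.mem_filter] at hy
    refine exists_struct (Finset.notMem_erase y Z) (k := h + 1) (l := 3) ?_ ?_
    · rw [Finset.card_erase_of_mem hy.1, hZ]; omega
    · obtain ⟨z, hz, hyz⟩ := hy.2
      exact hcon y hy.1 ⟨z, hz, hyz⟩
  choose! A lab hAl using hst
  have hcard : ∀ y ∈ N, (A y).card ≤ h := by
    intro y hy
    have h1 := struct_size (hAl y hy)
    rw [Finset.card_erase_of_mem (hNZ y hy), hZ] at h1
    omega
  have hinj : Set.InjOn (fun y => (A y).card) (N : Set α) := by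
    intro y hy y' hy' he
    by_contra hne
    have hy1 : y ∈ N := hy
    have hy2 : y' ∈ N := hy'
    refine inj_struct hPF (hNZ y hy1) (hNZ y' hy2) hne (n := 5) (s := (A y).card) (by omega)
      (hAl y hy1) (hAl y' hy2) rfl he.symm ?_
    have := hcard y hy1
    omega
  have hNc : N.card ≤ h + 1 := by
    have : N.card ≤ (Finset.range (h + 1)).card := by
      apply Finset.card_le_card_of_injOn (fun y => (A y).card)
      · intro y hy
        have := hcard y hy
        simp only [Finset.coe_range, Set.mem_Iio]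
        omega
      · exact hinj
    simpa using this
  obtain ⟨v, hv, z, hz, hxvz⟩ := hR
  have hvN : v ∈ N := Finset.mem_filter.2 ⟨hv, z, hz, hxvz⟩
  set B := (Z.erase x) \ N with hB
  have hBc : h + 4 ≤ B.card := by
    have h1 : (Z.erase x).card - N.card ≤ B.card := Finset.le_card_sdiff _ _
    rw [Finset.card_erase_of_mem hx, hZ] at h1
    omega
  have hBA : 2 ≤ (B \ A v).card := by
    have h1 : B.card - (A v).card ≤ (B \ A v).card := Finset.le_card_sdiff _ _
    have := hcard v hvN
    omega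
  obtain ⟨b1, hb1, b2, hb2, hb12⟩ := Finset.one_lt_card.1 (by omega : 1 < (B \ A v).card)
  -- membership facts for the `b`s
  have hbfact : ∀ b ∈ B \ A v, b ∈ Z ∧ b ≠ x ∧ b ≠ v ∧ b ∈ (Z.erase v) \ A v ∧
      ∀ t ∈ Z, t ≠ x → t ≠ b → Bl red x b t := by
    intro b hb
    simp only [hB, hN, Finset.mem_sdiff, Finset.mem_erase, Finset.mem_filter, not_and,
      not_exists] at hb
    obtain ⟨⟨⟨hbx, hbZ⟩, hbN⟩, hbA⟩ := hb
    have hbv : b ≠ v := by
      rintro rfl
      exact hbN hbZ z hz hxvz
    refine ⟨hbZ, hbx, hbv, ?_, ?_⟩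
    · simp [hbZ, hbv, hbA]
    · intro t ht htx htb
      exact bl_of_not_rd hbx.symm htx.symm htb.symm (hbN hbZ t ht)
  obtain ⟨b1Z, b1x, b1v, b1T, b1B⟩ := hbfact b1 hb1
  obtain ⟨b2Z, b2x, b2v, b2T, b2B⟩ := hbfact b2 hb2
  -- two further labels
  have hlabs : 5 ≤ (((Z.erase v) \ A v).image (lab v)).card := by
    have := (hAl v hvN).2.2
    omega
  set L := (((Z.erase v) \ A v).image (lab v)) \ {lab v b1, lab v b2, lab v x} with hL
  have hLc : 2 ≤ L.card := by
    have h1 : (((Z.erase v) \ A v).image (lab v)).card -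
      ({lab v b1, lab v b2, lab v x} : Finset (Finset α)).card ≤ L.card := Finset.le_card_sdiff _ _
    have h2 := Finset.card_le_three (a := lab v b1) (b := lab v b2) (c := lab v x)
    omega
  obtain ⟨lt, hlt, lq, hlq, hne⟩ := Finset.one_lt_card.1 (by omega : 1 < L.card)
  have hfact2 : ∀ l ∈ L, ∃ t ∈ (Z.erase v) \ A v, lab v t = l ∧ lab v t ≠ lab v b1 ∧
      lab v t ≠ lab v b2 ∧ t ≠ x := by
    intro l hl
    rw [hL, Finset.mem_sdiff] at hl
    obtain ⟨t, ht, rfl⟩ := Finset.mem_image.1 hl.1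
    have h2 := hl.2
    simp only [Finset.mem_insert, Finset.mem_singleton, not_or] at h2
    exact ⟨t, ht, rfl, h2.1, h2.2.1, fun e => h2.2.2 (by rw [e])⟩
  obtain ⟨t, ht, htl, ht1, ht2, htx⟩ := hfact2 lt hlt
  obtain ⟨q, hq, hql, hq1, hq2, hqx⟩ := hfact2 lq hlq
  have htq : t ≠ q := by
    intro e
    apply hne
    rw [← htl, ← hql, e]
  have htZ : t ∈ Z := by
    simp only [Finset.mem_sdiff, Finset.mem_erase] at ht
    exact ht.1.2
  have hqZ : q ∈ Z := by
    simp only [Finset.mem_sdiff, Finset.mem_erase] at hq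
    exact hq.1.2
  have htb1 : t ≠ b1 := fun e => ht1 (by rw [e])
  have htb2 : t ≠ b2 := fun e => ht2 (by rw [e])
  have hqb1 : q ≠ b1 := fun e => hq1 (by rw [e])
  have hqb2 : q ≠ b2 := fun e => hq2 (by rw [e])
  have hs := (hAl v hvN).2.1
  -- Pasch: `v b1 t`, `x t b2`, `v b2 q`, `x q b1`
  exact hPF v hv x hx b1 b1Z t htZ b2 b2Z q hqZ (fun e => hxvz.1 e.symm) hb12 htq
    (hs b1 b1T t ht (Ne.symm ht1)) (b2B t htZ htx htb2).s23 (hs b2 b2T q hq (Ne.symm hq2))
    (b1B q hqZ hqx hqb1).s23

end Run7.h175
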