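import Pool.Agent.Run7.h175.PMatch

/-!
# The Tutte-Berge structure of a red link without large matchings
-/

set_option linter.unusedSectionVars false

namespace Run7.h175

variable {α : Type*} [DecidableEq α] {red : Finset α → Prop}

/-- Tutte-Berge structure of the red link of `y` on `T`: outside `A` two vertices with different
labels form a blue triple with `y`, and there are at least `A.card + n` labels. -/
def Struct (red : Finset α → Prop) (y : α) (T A : Finset α) (lab : α → Finset α) (n : ℕ) :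
    Prop :=
  A ⊆ T ∧ (∀ u ∈ T \ A, ∀ w ∈ T \ A, lab u ≠ lab w → Bl red y u w) ∧
    A.card + n ≤ ((T \ A).image lab).card

lemma sum_odd_mod (F : Finset (Finset α)) (h : ∀ O ∈ F, Odd O.card) :
    (∑ O ∈ F, O.card) % 2 = F.card % 2 := by
  induction F using Finset.induction_on with
  | empty => simp
  | insert O F hO ih =>
    rw [Finset.sum_insert hO, Finset.card_insert_of_notMem hO]
    have h1 := ih (fun O' hO' => h O' (Finset.mem_insert_of_mem hO'))
    obtain ⟨k, hk⟩ := h O (Finset.mem_insert_self _ _)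
    omega

lemma exists_struct {y : α} {T : Finset α} (hy : y ∉ T) {k l : ℕ} (hT : T.card = 2 * k + l)
    (h : ¬ HasM (Rd red y) T k) : ∃ A lab, Struct red y T A lab (l + 2) := by
  classical
  by_contra hcon
  apply h
  let G : SimpleGraph α :=
    { Adj := fun a b => Rd red y a b
      symm := ⟨fun a b hab => hab.s23⟩
      loopless := ⟨fun a ha => ha.2.2.1 rfl⟩ }
  have hcond : ∀ (A : Finset α) (F : Finset (Finset α)), A ⊆ T → (∀ O ∈ F, Odd O.card) →
      (∀ O ∈ F, ∀ O' ∈ F, O ≠ O' → Disjoint O O') → (∀ O ∈ F, O ⊆ T \ A) →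
      (∀ O ∈ F, ∀ x ∈ O, ∀ y ∈ T, G.Adj x y → y ∈ O ∨ y ∈ A) → F.card ≤ A.card + l := by
    intro A F hA hodd hdisj hsub hclos
    by_contra hlt
    push Not at hlt
    apply hcon
    let lab : α → Finset α := fun v => if h : ∃ O ∈ F, v ∈ O then h.choose else ∅
    have hlab1 : ∀ O ∈ F, ∀ v ∈ O, lab v = O := by
      intro O hO v hv
      have hex : ∃ O ∈ F, v ∈ O := ⟨O, hO, hv⟩
      have h1 := hex.choose_spec
      have h2 : lab v = hex.choose := by simp only [lab, dif_pos hex]
      rw [h2]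
      by_contra hne
      exact Finset.disjoint_left.1 (hdisj _ h1.1 O hO hne) h1.2 hv
    have hlab2 : ∀ v, (¬ ∃ O ∈ F, v ∈ O) → lab v = ∅ := by
      intro v hv
      simp only [lab, dif_neg hv]
    have hneO : ∀ O ∈ F, O.Nonempty := by
      intro O hO
      obtain ⟨p, hp⟩ := hodd O hO
      exact Finset.card_pos.1 (by omega)
    refine ⟨A, lab, hA, ?_, ?_⟩
    · intro u hu w hw hne
      rw [Finset.mem_sdiff] at hu hw
      have hyu : y ≠ u := fun e => hy (e ▸ hu.1)
      have hyw : y ≠ w := fun e => hy (e ▸ hw.1)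
      have huw : u ≠ w := fun e => hne (by rw [e])
      refine bl_of_not_rd hyu hyw huw ?_
      intro hR
      by_cases hex : ∃ O ∈ F, u ∈ O
      · obtain ⟨O, hO, huO⟩ := hex
        rcases hclos O hO u huO w hw.1 hR with h1 | h1
        · exact hne (by rw [hlab1 O hO u huO, hlab1 O hO w h1])
        · exact hw.2 h1
      · by_cases hex' : ∃ O ∈ F, w ∈ O
        · obtain ⟨O, hO, hwO⟩ := hex'
          rcases hclos O hO w hwO u hu.1 hR.s23 with h1 | h1
          · exact hex ⟨O, hO, h1⟩
          · exact hu.2 h1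
        · exact hne (by rw [hlab2 u hex, hlab2 w hex'])
    · have hFsub : F ⊆ (T \ A).image lab := by
        intro O hO
        obtain ⟨v, hv⟩ := hneO O hO
        exact Finset.mem_image.2 ⟨v, hsub O hO hv, hlab1 O hO v hv⟩
      have hcA : (T \ A).card = T.card - A.card := Finset.card_sdiff_of_subset hA
      have hcA' := Finset.card_le_card hA
      by_cases hR : ∃ v ∈ T \ A, ¬ ∃ O ∈ F, v ∈ O
      · obtain ⟨v, hv, hv'⟩ := hR
        have h1 : insert ∅ F ⊆ (T \ A).image lab := by
          intro O hO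
          rcases Finset.mem_insert.1 hO with rfl | hO
          · exact Finset.mem_image.2 ⟨v, hv, hlab2 v hv'⟩
          · exact hFsub hO
        have h2 : (∅ : Finset α) ∉ F := by
          intro h0
          have := hneO _ h0
          simp at this
        have h3 := Finset.card_le_card h1
        rw [Finset.card_insert_of_notMem h2] at h3
        omega
      · push Not at hR
        have h1 : F.biUnion id = T \ A := by
          ext v
          simp only [Finset.mem_biUnion, id]
          constructor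
          · rintro ⟨O, hO, hv⟩
            exact hsub O hO hv
          · intro hv
            obtain ⟨O, hO, hvO⟩ := hR v hv
            exact ⟨O, hO, hvO⟩
        have h2 : (T \ A).card = ∑ O ∈ F, O.card := by
          rw [← h1, Finset.card_biUnion]
          · rfl
          · intro O hO O' hO' hne
            exact hdisj O hO O' hO' hne
        have h3 := sum_odd_mod F hodd
        have h4 := Finset.card_le_card hFsub
        omega
  obtain ⟨U, m, hU, hUc, hm⟩ := tutte_berge G T l ⟨k + l, by omega⟩ hcond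
  have hP : PM (Rd red y) (T \ U) :=
    PM_of_invol (fun a b hab => hab.2.2.1) m _ (T \ U) rfl hm
  obtain ⟨j, hj⟩ := hP.card_even
  have hc : (T \ U).card = T.card - U.card := Finset.card_sdiff_of_subset hU
  obtain ⟨D, hD, hd, hPD⟩ := hP.sub k j hj (by omega)
  exact ⟨D, hD.trans Finset.sdiff_subset, hd, hPD⟩

/-- four points with few coincidences under two labelings contain an alternating 4-cycle -/
lemma four_pts {ι ι' : Type*} (f : α → ι) (g : α → ι') {a b c d : α}
    (f1 : f a ≠ f b) (f2 : f a ≠ f c) (f3 : f b ≠ f c)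
    (hg : (g a ≠ g b ∧ g a ≠ g c ∧ g b ≠ g c) ∨ (g a ≠ g b ∧ g a ≠ g d ∧ g b ≠ g d) ∨
      (g a ≠ g c ∧ g a ≠ g d ∧ g c ≠ g d) ∨ (g b ≠ g c ∧ g b ≠ g d ∧ g c ≠ g d))
    (hab : a ≠ b) (hac : a ≠ c) (had : a ≠ d) (hbc : b ≠ c) (hbd : b ≠ d) (hcd : c ≠ d)
    (P : α → Prop) (ha : P a) (hb : P b) (hc : P c) (hd : P d) :
    ∃ p q r t, P p ∧ P q ∧ P r ∧ P t ∧ p ≠ r ∧ q ≠ t ∧ f p ≠ f q ∧ g q ≠ g r ∧ f r ≠ f t ∧
      g t ≠ g p := by
  by_contra hcon
  push Not at hcon
  have k1 := hcon a b c d ha hb hc hd hac hbd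
  have k2 := hcon a b d c ha hb hd hc had hbc
  have k3 := hcon a c b d ha hc hb hd hab hcd
  have k4 := hcon a c d b ha hc hd hb had hbc.symm
  have k5 := hcon a d b c ha hd hb hc hab hcd.symm
  have k6 := hcon a d c b ha hd hc hb hac hbd.symm
  clear hcon ha hb hc hd hab hac had hbc hbd hcd
  by_cases e1 : f d = f a
  · have e2 : f d ≠ f b := by rw [e1]; exact f1
    have e3 : f d ≠ f c := by rw [e1]; exact f2
    have k1' := fun h => k1 f1 h e3.symm
    have k2' := fun h => k2 f1 h e3
    have k3' := fun h => k3 f2 h e2.symm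
    have k4' := fun h => k4 f2 h e2
    clear k1 k2 k3 k4 k5 k6
    rcases hg with ⟨g1, g2, g3⟩ | ⟨g1, g2, g3⟩ | ⟨g1, g2, g3⟩ | ⟨g1, g2, g3⟩ <;> grind
  · by_cases e2 : f d = f b
    · have e3 : f d ≠ f c := by rw [e2]; exact f3
      have k1' := fun h => k1 f1 h e3.symm
      have k2' := fun h => k2 f1 h e3
      have k5' := fun h => k5 (Ne.symm e1) h f3
      have k6' := fun h => k6 (Ne.symm e1) h f3.symm
      clear k1 k2 k3 k4 k5 k6
      rcases hg with ⟨g1, g2, g3⟩ | ⟨g1, g2, g3⟩ | ⟨g1, g2, g3⟩ | ⟨g1, g2, g3⟩ <;> grind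
    · have k3' := fun h => k3 f2 h (Ne.symm e2)
      have k4' := fun h => k4 f2 h e2
      have k5' := fun h => k5 (Ne.symm e1) h f3
      have k6' := fun h => k6 (Ne.symm e1) h f3.symm
      clear k1 k2 k3 k4 k5 k6
      rcases hg with ⟨g1, g2, g3⟩ | ⟨g1, g2, g3⟩ | ⟨g1, g2, g3⟩ | ⟨g1, g2, g3⟩ <;> grind

/-- two labelings with at least three labels each on a set with at least four points have an
alternating 4-cycle -/
lemma altC4 {ι ι' : Type*} [DecidableEq ι] [DecidableEq ι'] (f : α → ι) (g : α → ι')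
    (Y : Finset α) (h4 : 4 ≤ Y.card) (hf : 3 ≤ (Y.image f).card) (hg : 3 ≤ (Y.image g).card) :
    ∃ p ∈ Y, ∃ q ∈ Y, ∃ r ∈ Y, ∃ t ∈ Y, p ≠ r ∧ q ≠ t ∧ f p ≠ f q ∧ g q ≠ g r ∧ f r ≠ f t ∧
      g t ≠ g p := by
  obtain ⟨i1, h1, i2, h2, i3, h3, n12, n13, n23⟩ := Finset.two_lt_card.1 hf
  obtain ⟨a1, ha1, rfl⟩ := Finset.mem_image.1 h1
  obtain ⟨a2, ha2, rfl⟩ := Finset.mem_image.1 h2
  obtain ⟨a3, ha3, rfl⟩ := Finset.mem_image.1 h3
  -- a point with a `g`-label outside a given set of two labels
  have hout : ∀ s : Finset ι', s.card ≤ 2 → ∃ b ∈ Y, g b ∉ s := by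
    intro s hs
    by_contra hcon
    push Not at hcon
    have : Y.image g ⊆ s := by
      intro i hi
      obtain ⟨b, hb, rfl⟩ := Finset.mem_image.1 hi
      exact hcon b hb
    have := Finset.card_le_card this
    omega
  -- main step: a transversal triple on which `g` is not constant
  have key : ∀ a b c, a ∈ Y → b ∈ Y → c ∈ Y → f a ≠ f b → f a ≠ f c → f b ≠ f c → g a ≠ g b →
      ∃ p ∈ Y, ∃ q ∈ Y, ∃ r ∈ Y, ∃ t ∈ Y, p ≠ r ∧ q ≠ t ∧ f p ≠ f q ∧ g q ≠ g r ∧ f r ≠ f t ∧
        g t ≠ g p := by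
    intro a b c ha hb hc hab hac hbc hgab
    have nab : a ≠ b := fun e => hab (by rw [e])
    have nac : a ≠ c := fun e => hac (by rw [e])
    have nbc : b ≠ c := fun e => hbc (by rw [e])
    by_cases hgc : g c = g a ∨ g c = g b
    · obtain ⟨d, hd, hgd⟩ := hout {g a, g b} (Finset.card_le_two)
      simp only [Finset.mem_insert, Finset.mem_singleton, not_or] at hgd
      have had : a ≠ d := fun e => hgd.1 (by rw [e])
      have hbd : b ≠ d := fun e => hgd.2 (by rw [e])
      have hcd : c ≠ d := by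
        rintro rfl
        rcases hgc with h | h
        · exact hgd.1 h
        · exact hgd.2 h
      obtain ⟨p, q, r, t, hp, hq, hr, ht, hh⟩ := four_pts f g hab hac hbc
        (Or.inr (Or.inl ⟨hgab, fun e => hgd.1 e.symm, fun e => hgd.2 e.symm⟩))
        nab nac had nbc hbd hcd (· ∈ Y) ha hb hc hd
      exact ⟨p, hp, q, hq, r, hr, t, ht, hh⟩
    · push Not at hgc
      have : ∃ d ∈ Y, d ≠ a ∧ d ≠ b ∧ d ≠ c := by
        by_contra hcon
        push Not at hcon
        have hsub : Y ⊆ {a, b, c} := by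
          intro d hd
          simp only [Finset.mem_insert, Finset.mem_singleton]
          by_contra hne
          push Not at hne
          exact hne.2.2 (hcon d hd hne.1 hne.2.1)
        have := Finset.card_le_card hsub
        have := Finset.card_le_three (a := a) (b := b) (c := c)
        omega
      obtain ⟨d, hd, had, hbd, hcd⟩ := this
      obtain ⟨p, q, r, t, hp, hq, hr, ht, hh⟩ := four_pts f g hab hac hbc
        (Or.inl ⟨hgab, fun e => hgc.1 e.symm, fun e => hgc.2 e.symm⟩)
        nab nac had.symm nbc hbd.symm hcd.symm (· ∈ Y) ha hb hc hd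
      exact ⟨p, hp, q, hq, r, hr, t, ht, hh⟩
  by_cases g12 : g a1 = g a2
  · by_cases g13 : g a1 = g a3
    · obtain ⟨b, hb, hgb⟩ := hout {g a1} (by simp)
      simp only [Finset.mem_singleton] at hgb
      by_cases e1 : f b = f a1
      · exact key b a2 a3 hb ha2 ha3 (by rw [e1]; exact n12) (by rw [e1]; exact n13) n23
          (by rw [← g12]; exact hgb)
      · by_cases e2 : f b = f a2
        · exact key b a1 a3 hb ha1 ha3 e1 (by rw [e2]; exact n23) n13 hgb
        · exact key b a1 a2 hb ha1 ha2 e1 e2 n12 hgb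
    · exact key a1 a3 a2 ha1 ha3 ha2 n13 n12 n23.symm g13
  · exact key a1 a2 a3 ha1 ha2 ha3 n12 n13 n23 g12

end Run7.h175
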