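import Pool.Agent.Run7.h175.D3

/-!
# Rooted loose trees and their red embeddings
-/

set_option linter.unusedSectionVars false

namespace Run7.h175

/-- Rooted loose trees: `cons A B C` has a root that lies in an edge whose two other vertices are
the roots of `A` and `B`; `C` is the rest of the tree at the same root. -/
inductive RT : Type
  | nil : RT
  | cons (A B C : RT) : RT

namespace RT

/-- number of edges -/
def e : RT → ℕ
  | nil => 0
  | cons A B C => A.e + B.e + C.e + 1

/-- degree of the root -/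
def deg : RT → ℕ
  | nil => 0
  | cons _ _ C => C.deg + 1

lemma deg_le : ∀ T : RT, T.deg ≤ T.e
  | nil => le_rfl
  | cons A B C => by
    have := deg_le C
    simp only [deg, e]
    omega

end RT

variable {α : Type*} [DecidableEq α] {red : Finset α → Prop}

/-- `Emb red T x X`: the rooted loose tree `T` is realised by red triples on the vertex set `X`
with root `x`. -/
inductive Emb (red : Finset α → Prop) : RT → α → Finset α → Prop
  | nil (x : α) : Emb red RT.nil x {x}
  | cons {A B C : RT} {x y z : α} {XA XB XC : Finset α} (h : Rd red x y z)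
      (hA : Emb red A y XA) (hB : Emb red B z XB) (hC : Emb red C x XC)
      (hAB : Disjoint XA XB) (hAC : Disjoint XA XC) (hBC : Disjoint XB XC) :
      Emb red (RT.cons A B C) x (XA ∪ XB ∪ XC)

lemma Emb.root_mem {T : RT} {x : α} {X : Finset α} (h : Emb red T x X) : x ∈ X := by
  induction h with
  | nil x => simp
  | cons h hA hB hC hAB hAC hBC ihA ihB ihC => exact Finset.mem_union_right _ ihC

lemma Emb.card {T : RT} {x : α} {X : Finset α} (h : Emb red T x X) : X.card = 2 * T.e + 1 := by
  induction h with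
  | nil x => simp [RT.e]
  | cons h hA hB hC hAB hAC hBC ihA ihB ihC =>
    rw [Finset.card_union_of_disjoint (Finset.disjoint_union_left.2 ⟨hAC, hBC⟩),
      Finset.card_union_of_disjoint hAB, ihA, ihB, ihC]
    simp only [RT.e]
    ring

lemma Emb.swap {A B C : RT} {x : α} {X : Finset α} (h : Emb red (RT.cons A B C) x X) :
    Emb red (RT.cons B A C) x X := by
  cases h with
  | @cons _ _ _ _ y z XA XB XC h hA hB hC hAB hAC hBC =>
    rw [Finset.union_comm XA XB]
    exact Emb.cons h.s23 hB hA hC hAB.symm hBC hAC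

/-- a tree with one branch at the root: extension of embeddings of the two subtrees -/
lemma branch {Z : Finset α} (hPF : PF red Z) {A B : RT} (hBA : B.e ≤ A.e)
    (ihA : ∀ Z' ⊆ Z, ∀ x ∈ Z', Z'.card = 2 * A.e + 4 → HasM (Rd red x) (Z'.erase x) A.deg →
      ∃ X ⊆ Z', Emb red A x X)
    (ihB : ∀ Z' ⊆ Z, ∀ x ∈ Z', Z'.card = 2 * B.e + 4 → HasM (Rd red x) (Z'.erase x) B.deg →
      ∃ X ⊆ Z', Emb red B x X)
    (hZ : Z.card = 2 * (A.e + B.e + 1) + 4) {x : α} (hx : x ∈ Z)
    (hR : ∃ y ∈ Z, ∃ z ∈ Z, Rd red x y z) :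
    ∃ X ⊆ Z, Emb red (RT.cons A B RT.nil) x X := by
  obtain ⟨y, hy, z, hz, hRz, C, D, hC, hD, hCD, hCc, hDc, hPC, hPD⟩ :=
    d3 (h := A.e + B.e) (k := A.e) (l := B.e) rfl hBA (by omega) hPF hx hR
  set W := ((Z.erase x).erase y).erase z with hW
  have hWZ : W ⊆ Z := by
    intro v hv
    simp only [hW, Finset.mem_erase] at hv
    exact hv.2.2.2
  have hWc : W.card = 2 * (A.e + B.e) + 3 := by
    rw [hW, Finset.card_erase_of_mem, Finset.card_erase_of_mem, Finset.card_erase_of_mem hx, hZ]
    · omega
    · exact Finset.mem_erase.2 ⟨hRz.1.symm, hy⟩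
    · simp only [Finset.mem_erase]
      exact ⟨hRz.2.2.1.symm, hRz.2.1.symm, hz⟩
  have hxW : x ∉ W := by simp [hW]
  have hyW : y ∉ W := by simp [hW]
  have hzW : z ∉ W := by simp [hW]
  -- embed `A`
  set ZA := insert y (W \ D) with hZA
  have hyWD : y ∉ W \ D := fun h => hyW (Finset.mem_sdiff.1 h).1
  have hZAc : ZA.card = 2 * A.e + 4 := by
    rw [hZA, Finset.card_insert_of_notMem hyWD, Finset.card_sdiff_of_subset hD, hWc, hDc]
    omega
  have hZAZ : ZA ⊆ Z := by
    intro v hv
    rcases Finset.mem_insert.1 hv with rfl | hv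
    · exact hy
    · exact hWZ (Finset.mem_sdiff.1 hv).1
  have hCA : C ⊆ ZA.erase y := by
    intro v hv
    rw [hZA, Finset.erase_insert hyWD, Finset.mem_sdiff]
    exact ⟨hC hv, fun hd => Finset.disjoint_left.1 hCD hv hd⟩
  obtain ⟨XA, hXA, hEA⟩ := ihA ZA hZAZ y (Finset.mem_insert_self _ _) hZAc
    (HasM.mono ⟨C, hCA, hCc, hPC⟩ (Finset.Subset.refl _) A.deg_le)
  -- embed `B`
  set ZB := insert z (W \ XA) with hZB
  have hzWX : z ∉ W \ XA := fun h => hzW (Finset.mem_sdiff.1 h).1
  have hXAW : (W \ XA).card = 2 * B.e + 3 := by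
    have h1 : W \ XA = W \ (XA.erase y) := by
      ext v
      simp only [Finset.mem_sdiff, Finset.mem_erase, not_and]
      constructor
      · rintro ⟨h1, h2⟩
        exact ⟨h1, fun _ => h2⟩
      · rintro ⟨h1, h2⟩
        exact ⟨h1, h2 (fun e => hyW (e ▸ h1))⟩
    have h2 : XA.erase y ⊆ W := by
      intro v hv
      rw [Finset.mem_erase] at hv
      rcases Finset.mem_insert.1 (hXA hv.2) with h | h
      · exact absurd h hv.1
      · exact (Finset.mem_sdiff.1 h).1
    rw [h1, Finset.card_sdiff_of_subset h2, Finset.card_erase_of_mem hEA.root_mem, hEA.card, hWc]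
    omega
  have hZBc : ZB.card = 2 * B.e + 4 := by
    rw [hZB, Finset.card_insert_of_notMem hzWX, hXAW]
  have hZBZ : ZB ⊆ Z := by
    intro v hv
    rcases Finset.mem_insert.1 hv with rfl | hv
    · exact hz
    · exact hWZ (Finset.mem_sdiff.1 hv).1
  have hDB : D ⊆ ZB.erase z := by
    intro v hv
    rw [hZB, Finset.erase_insert hzWX, Finset.mem_sdiff]
    refine ⟨hD hv, fun hvX => ?_⟩
    rcases Finset.mem_insert.1 (hXA hvX) with h | h
    · exact hyW (h ▸ hD hv)
    · exact (Finset.mem_sdiff.1 h).2 hv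
  obtain ⟨XB, hXB, hEB⟩ := ihB ZB hZBZ z (Finset.mem_insert_self _ _) hZBc
    (HasM.mono ⟨D, hDB, hDc, hPD⟩ (Finset.Subset.refl _) B.deg_le)
  have hAB : Disjoint XA XB := by
    rw [Finset.disjoint_left]
    intro v hv hv'
    rcases Finset.mem_insert.1 (hXB hv') with h | h
    · subst h
      rcases Finset.mem_insert.1 (hXA hv) with h | h
      · exact hRz.2.2.1 h.symm
      · exact hzW (Finset.mem_sdiff.1 h).1
    · exact (Finset.mem_sdiff.1 h).2 hv
  have hAx : Disjoint XA {x} := by
    rw [Finset.disjoint_singleton_right]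
    intro hv
    rcases Finset.mem_insert.1 (hXA hv) with h | h
    · exact hRz.1 h
    · exact hxW (Finset.mem_sdiff.1 h).1
  have hBx : Disjoint XB {x} := by
    rw [Finset.disjoint_singleton_right]
    intro hv
    rcases Finset.mem_insert.1 (hXB hv) with h | h
    · exact hRz.2.1 h
    · exact hxW (Finset.mem_sdiff.1 h).1
  refine ⟨XA ∪ XB ∪ {x}, ?_, Emb.cons hRz hEA hEB (Emb.nil x) hAB hAx hBx⟩
  intro v hv
  rcases Finset.mem_union.1 hv with hv | hv
  · rcases Finset.mem_union.1 hv with hv | hv
    · exact hZAZ (hXA hv)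
    · exact hZBZ (hXB hv)
  · rw [Finset.mem_singleton.1 hv]
    exact hx

/-- **Rooted embedding theorem.** Without blue Pasch configuration, a set with three more
elements than the tree contains a red copy of the tree with prescribed root, as soon as the red
link of the root contains a matching as large as the degree of the root. -/
theorem r3 : ∀ (n : ℕ) (T : RT), T.e = n → ∀ Z : Finset α, PF red Z → ∀ x ∈ Z,
    Z.card = 2 * T.e + 4 → HasM (Rd red x) (Z.erase x) T.deg → ∃ X ⊆ Z, Emb red T x X := by
  intro n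
  induction n using Nat.strong_induction_on with
  | _ n ih =>
    intro T hT Z hPF x hx hZ hM
    cases T with
    | nil => exact ⟨{x}, by simpa using hx, Emb.nil x⟩
    | cons A B C =>
      simp only [RT.e] at hT hZ
      simp only [RT.deg] at hM
      -- embedding of the one-branch tree `cons A B nil`
      have hbr : ∀ Z' ⊆ Z, ∀ x ∈ Z', Z'.card = 2 * (A.e + B.e + 1) + 4 →
          (∃ y ∈ Z', ∃ z ∈ Z', Rd red x y z) → ∃ X ⊆ Z', Emb red (RT.cons A B RT.nil) x X := by
        intro Z' hZ' x hx hc hR
        have hPF' := hPF.mono hZ'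
        rcases le_total B.e A.e with hle | hle
        · refine branch hPF' hle ?_ ?_ hc hx hR
          · intro Z'' hZ'' x hx hc hM
            exact ih A.e (by omega) A rfl Z'' (hPF'.mono hZ'') x hx hc hM
          · intro Z'' hZ'' x hx hc hM
            exact ih B.e (by omega) B rfl Z'' (hPF'.mono hZ'') x hx hc hM
        · obtain ⟨X, hX, hE⟩ := branch hPF' hle (A := B) (B := A) (by
            intro Z'' hZ'' x hx hc hM
            exact ih B.e (by omega) B rfl Z'' (hPF'.mono hZ'') x hx hc hM) (by
            intro Z'' hZ'' x hx hc hM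
            exact ih A.e (by omega) A rfl Z'' (hPF'.mono hZ'') x hx hc hM) (by omega) hx hR
          exact ⟨X, hX, hE.swap⟩
      obtain ⟨M, hMZ, hMc, hPM⟩ := hM
      have hMpos : 0 < M.card := by omega
      obtain ⟨p, hp⟩ := Finset.card_pos.1 hMpos
      obtain ⟨q, hq, hqp, hG, hP1⟩ := hPM.partner (rd_symm x) p hp
      set M1 := (M.erase p).erase q with hM1
      have hM1c : M1.card = 2 * C.deg := by
        rw [hM1, Finset.card_erase_of_mem (Finset.mem_erase.2 ⟨hqp, hq⟩),
          Finset.card_erase_of_mem hp, hMc]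
        omega
      have hM1M : M1 ⊆ M := by
        intro v hv
        simp only [hM1, Finset.mem_erase] at hv
        exact hv.2.2
      have hMx : ∀ v ∈ M, v ∈ Z ∧ v ≠ x := by
        intro v hv
        have := hMZ hv
        rw [Finset.mem_erase] at this
        exact ⟨this.2, this.1⟩
      have hM1Z : M1 ⊆ Z := fun v hv => (hMx v (hM1M hv)).1
      -- a set for the branch
      have hCd := C.deg_le
      have hsub : ({x, p, q} : Finset α) ⊆ Z \ M1 := by
        intro v hv
        simp only [Finset.mem_insert, Finset.mem_singleton] at hv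
        rw [Finset.mem_sdiff]
        rcases hv with rfl | rfl | rfl
        · exact ⟨hx, fun h => (hMx _ (hM1M h)).2 rfl⟩
        · exact ⟨(hMx _ hp).1, by simp [hM1]⟩
        · exact ⟨(hMx _ hq).1, by simp [hM1]⟩
      have hc3 := Finset.card_le_three (a := x) (b := p) (c := q)
      obtain ⟨Z2, h1, h2, hZ2c⟩ := Finset.exists_subsuperset_card_eq hsub
        (n := 2 * (A.e + B.e + 1) + 4) (by omega) (by
          rw [Finset.card_sdiff_of_subset hM1Z, hM1c, hZ]
          omega)
      have hxZ2 : x ∈ Z2 := h1 (by simp)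
      have hpZ2 : p ∈ Z2 := h1 (by simp)
      have hqZ2 : q ∈ Z2 := h1 (by simp)
      have hZ2Z : Z2 ⊆ Z := h2.trans Finset.sdiff_subset
      obtain ⟨X2, hX2, hE2⟩ := hbr Z2 hZ2Z x hxZ2 hZ2c ⟨p, hpZ2, q, hqZ2, hG⟩
      -- a set for the rest
      set Z1 := insert x (Z \ X2) with hZ1
      have hxX2 : x ∈ X2 := hE2.root_mem
      have hxn : x ∉ Z \ X2 := fun h => (Finset.mem_sdiff.1 h).2 hxX2
      have hZ1c : Z1.card = 2 * C.e + 4 := by
        rw [hZ1, Finset.card_insert_of_notMem hxn,
          Finset.card_sdiff_of_subset (hX2.trans hZ2Z), hE2.card, hZ]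
        simp only [RT.e]
        omega
      have hZ1Z : Z1 ⊆ Z := by
        intro v hv
        rcases Finset.mem_insert.1 hv with rfl | hv
        · exact hx
        · exact (Finset.mem_sdiff.1 hv).1
      have hM1Z1 : M1 ⊆ Z1.erase x := by
        intro v hv
        rw [hZ1, Finset.erase_insert hxn, Finset.mem_sdiff]
        exact ⟨hM1Z hv, fun h => (Finset.mem_sdiff.1 (h2 (hX2 h))).2 hv⟩
      obtain ⟨X1, hX1, hE1⟩ := ih C.e (by omega) C rfl Z1 (hPF.mono hZ1Z) x
        (Finset.mem_insert_self _ _) hZ1c ⟨M1, hM1Z1, hM1c, hP1⟩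
      have hX1X2 : ∀ v ∈ X1, v ∈ X2 → v = x := by
        intro v hv hv'
        rcases Finset.mem_insert.1 (hX1 hv) with h | h
        · exact h
        · exact absurd hv' (Finset.mem_sdiff.1 h).2
      cases hE2 with
      | @cons _ _ _ _ y z XA XB XC h hA hB hC hAB hAC hBC =>
        cases hC with
        | nil =>
          have hAX : Disjoint XA X1 := by
            rw [Finset.disjoint_left]
            intro v hv hv1
            have : v = x := hX1X2 v hv1 (Finset.mem_union_left _ (Finset.mem_union_left _ hv))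
            subst this
            exact Finset.disjoint_left.1 hAC hv (by simp)
          have hBX : Disjoint XB X1 := by
            rw [Finset.disjoint_left]
            intro v hv hv1
            have : v = x := hX1X2 v hv1 (Finset.mem_union_left _ (Finset.mem_union_right _ hv))
            subst this
            exact Finset.disjoint_left.1 hBC hv (by simp)
          refine ⟨XA ∪ XB ∪ X1, ?_, Emb.cons h hA hB hE1 hAB hAX hBX⟩
          intro v hv
          rcases Finset.mem_union.1 hv with hv | hv
          · exact hZ2Z (hX2 (Finset.mem_union_left _ hv))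
          · exact hZ1Z (hX1 hv)

/-- **Greedy embedding.** -/
theorem greedy {S : Finset α} {m : ℕ} (hG : ∀ v ∈ S, ∀ U ⊆ S, v ∉ U → U.card + 2 ≤ 2 * m →
    ∃ p ∈ S \ U, ∃ q ∈ S \ U, Rd red v p q) :
    ∀ (T : RT) (x : α) (U : Finset α), x ∈ S → U ⊆ S → x ∉ U → U.card + 2 * T.e ≤ 2 * m →
      ∃ X ⊆ S \ U, Emb red T x X := by
  intro T
  induction T with
  | nil =>
    intro x U hx hU hxU _
    refine ⟨{x}, ?_, Emb.nil x⟩
    intro v hv
    rw [Finset.mem_singleton.1 hv]
    exact Finset.mem_sdiff.2 ⟨hx, hxU⟩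
  | cons A B C ihA ihB ihC =>
    intro x U hx hU hxU hc
    simp only [RT.e] at hc
    obtain ⟨p, hp, q, hq, hR⟩ := hG x hx U hU hxU (by omega)
    rw [Finset.mem_sdiff] at hp hq
    -- embed `C` at `x`
    obtain ⟨XC, hXC, hEC⟩ := ihC x (insert p (insert q U)) hx (by
      intro v hv
      rcases Finset.mem_insert.1 hv with rfl | hv
      · exact hp.1
      rcases Finset.mem_insert.1 hv with rfl | hv
      · exact hq.1
      · exact hU hv) (by
      simp only [Finset.mem_insert, not_or]
      exact ⟨hR.1, hR.2.1, hxU⟩) (by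
      have h1 := Finset.card_insert_le p (insert q U)
      have h2 := Finset.card_insert_le q U
      omega)
    have hXCS : ∀ v ∈ XC, v ∈ S ∧ v ≠ p ∧ v ≠ q ∧ v ∉ U := by
      intro v hv
      have := hXC hv
      simp only [Finset.mem_sdiff, Finset.mem_insert, not_or] at this
      exact ⟨this.1, this.2.1, this.2.2.1, this.2.2.2⟩
    -- embed `A` at `p`
    obtain ⟨XA, hXA, hEA⟩ := ihA p (insert q (U ∪ XC)) hp.1 (by
      intro v hv
      rcases Finset.mem_insert.1 hv with rfl | hv
      · exact hq.1
      rcases Finset.mem_union.1 hv with hv | hv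
      · exact hU hv
      · exact (hXCS v hv).1) (by
      simp only [Finset.mem_insert, Finset.mem_union, not_or]
      exact ⟨hR.2.2.1, hp.2, fun h => (hXCS p h).2.1 rfl⟩) (by
      have h1 := Finset.card_insert_le q (U ∪ XC)
      have h2 := Finset.card_union_le U XC
      have h3 := hEC.card
      omega)
    have hXAS : ∀ v ∈ XA, v ∈ S ∧ v ≠ q ∧ v ∉ U ∧ v ∉ XC := by
      intro v hv
      have := hXA hv
      simp only [Finset.mem_sdiff, Finset.mem_insert, Finset.mem_union, not_or] at this
      exact ⟨this.1, this.2.1, this.2.2.1, this.2.2.2⟩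
    -- embed `B` at `q`
    obtain ⟨XB, hXB, hEB⟩ := ihB q (U ∪ XC ∪ XA) hq.1 (by
      intro v hv
      rcases Finset.mem_union.1 hv with hv | hv
      · rcases Finset.mem_union.1 hv with hv | hv
        · exact hU hv
        · exact (hXCS v hv).1
      · exact (hXAS v hv).1) (by
      simp only [Finset.mem_union, not_or]
      exact ⟨⟨hq.2, fun h => (hXCS q h).2.2.1 rfl⟩, fun h => (hXAS q h).2.1 rfl⟩) (by
      have h1 := Finset.card_union_le (U ∪ XC) XA
      have h2 := Finset.card_union_le U XC
      have h3 := hEC.card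
      have h4 := hEA.card
      omega)
    have hXBS : ∀ v ∈ XB, v ∈ S ∧ v ∉ U ∧ v ∉ XC ∧ v ∉ XA := by
      intro v hv
      have := hXB hv
      simp only [Finset.mem_sdiff, Finset.mem_union, not_or] at this
      exact ⟨this.1, this.2.1.1, this.2.1.2, this.2.2⟩
    refine ⟨XA ∪ XB ∪ XC, ?_, Emb.cons hR hEA hEB hEC ?_ ?_ ?_⟩
    · intro v hv
      rw [Finset.mem_sdiff]
      rcases Finset.mem_union.1 hv with hv | hv
      · rcases Finset.mem_union.1 hv with hv | hv
        · exact ⟨(hXAS v hv).1, (hXAS v hv).2.2.1⟩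
        · exact ⟨(hXBS v hv).1, (hXBS v hv).2.1⟩
      · exact ⟨(hXCS v hv).1, (hXCS v hv).2.2.2⟩
    · rw [Finset.disjoint_left]
      exact fun v hv hv' => (hXBS v hv').2.2.2 hv
    · rw [Finset.disjoint_left]
      exact fun v hv hv' => (hXAS v hv).2.2.2 hv'
    · rw [Finset.disjoint_left]
      exact fun v hv hv' => (hXBS v hv).2.2.1 hv'

end Run7.h175
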